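import Mathlib

/-! Hardy-Littlewood maximal theorem (classical), def-free form. -/

namespace Pool.Agent.Lib.MP_a785f2_an.NH

open MeasureTheory Metric Set Filter
open scoped ENNReal

variable {X : Type*} [NormedAddCommGroup X] [NormedSpace ℝ X] [FiniteDimensional ℝ X]
  [MeasurableSpace X] [BorelSpace X] (μ : Measure X) [μ.IsAddHaarMeasure]

/-- weak type (1,1) by the Vitali covering lemma -/
theorem max_weak (g : X → ℝ≥0∞) (R : ℝ) (t : ℝ≥0∞) (A : Set X)
    (hA : ∀ x ∈ A, ∃ r, 0 < r ∧ r ≤ R ∧ t * μ (ball x r) ≤ ∫⁻ y in ball x r, g y ∂μ) :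
    t * μ A ≤ 4 ^ Module.finrank ℝ X * ∫⁻ y, g y ∂μ := by
  choose! r hr0 hrR hr using hA
  obtain ⟨u, huA, hd, hc⟩ :=
    Vitali.exists_disjoint_subfamily_covering_enlargement_ball A (fun a => a) r R hrR 4 (by norm_num)
  have hu : u.Countable := hd.countable_of_isOpen (fun a _ => isOpen_ball)
    (fun a ha => ⟨a, mem_ball_self (hr0 a (huA ha))⟩)
  have h1 : A ⊆ ⋃ b ∈ u, ball b (4 * r b) := fun a ha => by
    obtain ⟨b, hb, h⟩ := hc a ha
    exact mem_biUnion hb (h (mem_ball_self (hr0 a ha)))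
  have h2 : ∀ b : u, t * μ (ball (b : X) (4 * r b)) ≤
      4 ^ Module.finrank ℝ X * ∫⁻ y in ball (b : X) (r b), g y ∂μ := fun b => by
    rw [Measure.addHaar_ball_mul_of_pos μ _ (by norm_num : (0 : ℝ) < 4),
      ← Measure.addHaar_ball_center μ (b : X), ENNReal.ofReal_pow (by norm_num),
      ENNReal.ofReal_ofNat, mul_left_comm]
    exact mul_le_mul_right (hr b (huA b.2)) _
  calc t * μ A ≤ t * ∑' b : u, μ (ball (b : X) (4 * r b)) :=
        mul_le_mul_right ((measure_mono h1).trans (measure_biUnion_le μ hu _)) _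
    _ ≤ ∑' b : u, 4 ^ Module.finrank ℝ X * ∫⁻ y in ball (b : X) (r b), g y ∂μ := by
        rw [← ENNReal.tsum_mul_left]; exact ENNReal.tsum_le_tsum h2
    _ ≤ _ := by
        rw [ENNReal.tsum_mul_left, ← lintegral_biUnion hu (fun a _ => measurableSet_ball) hd]
        exact mul_le_mul_right (setLIntegral_le_lintegral _ _) _

/-- strong type (p,p), `p > 1` -/
theorem max_strong {g M : X → ℝ} (hg : Measurable g) (g0 : ∀ x, 0 ≤ g x) (hM : AEMeasurable M μ)
    (M0 : ∀ x, 0 ≤ M x) (R : ℝ)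
    (h : ∀ x t, 0 < t → t < M x → ∃ r, 0 < r ∧ r ≤ R ∧
      ENNReal.ofReal t * μ (ball x r) ≤ ∫⁻ y in ball x r, ENNReal.ofReal (g y) ∂μ)
    {p : ℝ} (hp : 1 < p) :
    ∫⁻ x, ENNReal.ofReal (M x ^ p) ∂μ ≤
      ENNReal.ofReal (p / (p - 1) * 2 ^ p * 4 ^ Module.finrank ℝ X) *
        ∫⁻ x, ENNReal.ofReal (g x ^ p) ∂μ := by
  have hq : 0 < p - 1 := by linarith
  set ν := μ.withDensity fun x => ENNReal.ofReal (g x) with hν
  have hS : ∀ t : ℝ, MeasurableSet {a | t < 2 * g a} := fun t =>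
    measurableSet_lt measurable_const (hg.const_mul 2)
  have h1 : ∀ t, 0 < t → ENNReal.ofReal (t / 2) * μ {a | t < M a} ≤
      4 ^ Module.finrank ℝ X * ν {a | t < 2 * g a} := fun t ht => by
    rw [hν, withDensity_apply _ (hS t), ← lintegral_indicator (hS t)]
    refine max_weak μ _ R _ _ fun x hx => ?_
    obtain ⟨r, r0, rR, hr⟩ := h x t ht hx
    refine ⟨r, r0, rR, ?_⟩
    have h2 : ∫⁻ y in ball x r, ENNReal.ofReal (g y) ∂μ ≤ ∫⁻ y in ball x r,
        (ENNReal.ofReal (t / 2) + indicator {a | t < 2 * g a} (fun x => ENNReal.ofReal (g x)) y) ∂μ :=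
      lintegral_mono fun y => by
        by_cases hy : y ∈ {a | t < 2 * g a}
        · simp only [indicator_of_mem hy]; exact le_add_self
        · simp only [indicator_of_notMem hy, add_zero]
          exact ENNReal.ofReal_le_ofReal (by have : 2 * g y ≤ t := not_lt.1 hy; linarith)
    rw [lintegral_add_left measurable_const, setLIntegral_const] at h2
    have h3 := hr.trans h2
    rw [← add_halves t, ENNReal.ofReal_add (half_pos ht).le (half_pos ht).le, add_mul] at h3
    rw [add_halves] at h3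
    exact (ENNReal.add_le_add_iff_left
      (ENNReal.mul_ne_top ENNReal.ofReal_ne_top measure_ball_lt_top.ne)).1 h3
  have h4 := lintegral_rpow_eq_lintegral_meas_lt_mul ν (f := fun a => 2 * g a)
    (Eventually.of_forall fun a => by have := g0 a; simp only [Pi.zero_apply]; linarith)
    (hg.const_mul 2).aemeasurable hq
  have h5 : ∫⁻ a, ENNReal.ofReal ((2 * g a) ^ (p - 1)) ∂ν =
      ENNReal.ofReal (2 ^ (p - 1)) * ∫⁻ x, ENNReal.ofReal (g x ^ p) ∂μ := by
    rw [hν, lintegral_withDensity_eq_lintegral_mul _ hg.ennreal_ofReal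
      ((hg.const_mul 2).pow_const _).ennreal_ofReal, ← lintegral_const_mul' _ _ ENNReal.ofReal_ne_top]
    refine lintegral_congr fun a => ?_
    rw [Pi.mul_apply, ← ENNReal.ofReal_mul (g0 a), ← ENNReal.ofReal_mul (by positivity),
      Real.mul_rpow (by norm_num) (g0 a), mul_left_comm]
    have : g a ^ p = g a * g a ^ (p - 1) := by
      rw [Real.rpow_sub_one' (g0 a) hq.ne']
      rcases (g0 a).eq_or_lt with h0 | h0
      · rw [← h0, zero_mul, Real.zero_rpow (by linarith)]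
      · field_simp
    rw [this]
  have h6 : ∫⁻ t in Ioi 0, μ {a | t < M a} * ENNReal.ofReal (t ^ (p - 1)) ≤
      2 * 4 ^ Module.finrank ℝ X *
        ∫⁻ t in Ioi 0, ν {a | t < 2 * g a} * ENNReal.ofReal (t ^ (p - 1 - 1)) := by
    rw [← lintegral_const_mul' _ _ (by finiteness)]
    refine setLIntegral_mono' measurableSet_Ioi fun t (ht : 0 < t) => ?_
    have e : ENNReal.ofReal (t ^ (p - 1)) =
        ENNReal.ofReal (t / 2) * (2 * ENNReal.ofReal (t ^ (p - 1 - 1))) := by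
      rw [← ENNReal.ofReal_ofNat 2, ← ENNReal.ofReal_mul (by norm_num),
        ← ENNReal.ofReal_mul (half_pos ht).le, Real.rpow_sub_one ht.ne' (p - 1)]
      congr 1
      field_simp
    rw [e, ← mul_assoc, mul_comm (μ _)]
    refine (mul_le_mul_left (h1 t ht) _).trans (le_of_eq ?_)
    ring
  have h7 : ∫⁻ t in Ioi 0, ν {a | t < 2 * g a} * ENNReal.ofReal (t ^ (p - 1 - 1)) =
      ENNReal.ofReal ((p - 1)⁻¹ * 2 ^ (p - 1)) * ∫⁻ x, ENNReal.ofReal (g x ^ p) ∂μ := by
    rw [ENNReal.ofReal_mul (by positivity), mul_assoc, ← h5, h4, ← mul_assoc,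
      ← ENNReal.ofReal_mul (by positivity), inv_mul_cancel₀ hq.ne', ENNReal.ofReal_one, one_mul]
  rw [lintegral_rpow_eq_lintegral_meas_lt_mul μ (Eventually.of_forall M0) hM (by linarith)]
  refine (mul_le_mul_right h6 _).trans (le_of_eq ?_)
  have e : p / (p - 1) * 2 ^ p * 4 ^ Module.finrank ℝ X =
      p * (2 * 4 ^ Module.finrank ℝ X * ((p - 1)⁻¹ * 2 ^ (p - 1))) := by
    rw [Real.rpow_sub_one (by norm_num : (2 : ℝ) ≠ 0)]
    field_simp
  rw [h7, e, ENNReal.ofReal_mul (p := p) (by linarith),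
    ENNReal.ofReal_mul (p := 2 * 4 ^ Module.finrank ℝ X) (by positivity),
    ENNReal.ofReal_mul (p := 2) (by positivity), ENNReal.ofReal_pow (by norm_num),
    ENNReal.ofReal_ofNat, ENNReal.ofReal_ofNat]
  simp only [mul_assoc]

/-- Bochner form, natural exponent `q + 2` -/
theorem max_int {g M : X → ℝ} (hg : Measurable g) (g0 : ∀ x, 0 ≤ g x) (hM : AEMeasurable M μ)
    (M0 : ∀ x, 0 ≤ M x) (R : ℝ) (q : ℕ) (hi : Integrable (fun x => g x ^ (q + 2)) μ)
    (h : ∀ x, ∃ r, 0 < r ∧ r ≤ R ∧ M x * μ.real (ball x r) ≤ ∫ y in ball x r, g y ∂μ) :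
    Integrable (fun x => M x ^ (q + 2)) μ ∧ ∫ x, M x ^ (q + 2) ∂μ ≤
      2 ^ (q + 3) * 4 ^ Module.finrank ℝ X * ∫ x, g x ^ (q + 2) ∂μ := by
  have hq : (0 : ℝ) ≤ q := Nat.cast_nonneg q
  have h1 := max_strong μ hg g0 hM M0 R (fun x t t0 ht => by
    obtain ⟨r, r0, rR, hr⟩ := h x
    refine ⟨r, r0, rR, ?_⟩
    calc ENNReal.ofReal t * μ (ball x r) = ENNReal.ofReal (t * μ.real (ball x r)) := by
          rw [ENNReal.ofReal_mul t0.le, ofReal_measureReal measure_ball_lt_top.ne]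
      _ ≤ ENNReal.ofReal (∫ y in ball x r, g y ∂μ) := ENNReal.ofReal_le_ofReal
          ((mul_le_mul_of_nonneg_right ht.le measureReal_nonneg).trans hr)
      _ ≤ _ := by
          by_cases hI : Integrable g (μ.restrict (ball x r))
          · exact (ofReal_integral_eq_lintegral_ofReal hI (Eventually.of_forall g0)).le
          · rw [integral_undef hI, ENNReal.ofReal_zero]; exact zero_le)
    (p := ((q + 2 : ℕ) : ℝ)) (by push_cast; linarith)
  simp only [Real.rpow_natCast] at h1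
  rw [← ofReal_integral_eq_lintegral_ofReal hi
    (Eventually.of_forall fun x => pow_nonneg (g0 x) _), ← ENNReal.ofReal_mul (by
      have : (0 : ℝ) < ((q + 2 : ℕ) : ℝ) - 1 := by push_cast; linarith
      positivity)] at h1
  have hn : 0 ≤ᵐ[μ] fun x => M x ^ (q + 2) := Eventually.of_forall fun x => pow_nonneg (M0 x) _
  have hI : Integrable (fun x => M x ^ (q + 2)) μ := ⟨(hM.pow_const _).aestronglyMeasurable,
    (hasFiniteIntegral_iff_ofReal hn).2 (h1.trans_lt ENNReal.ofReal_lt_top)⟩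
  refine ⟨hI, ?_⟩
  have i0 : 0 ≤ ∫ x, g x ^ (q + 2) ∂μ := integral_nonneg fun x => pow_nonneg (g0 x) _
  have c : ((q + 2 : ℕ) : ℝ) / (((q + 2 : ℕ) : ℝ) - 1) ≤ 2 := by
    rw [div_le_iff₀ (by push_cast; linarith)]; push_cast; linarith
  rw [← ofReal_integral_eq_lintegral_ofReal hI hn] at h1
  refine (ENNReal.ofReal_le_ofReal_iff (by positivity)).1 (h1.trans (ENNReal.ofReal_le_ofReal ?_))
  rw [pow_succ' (2 : ℝ) (q + 2)]
  gcongr

omit [NormedSpace ℝ X] [FiniteDimensional ℝ X] [μ.IsAddHaarMeasure] in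
/-- ball integrals depend measurably on the centre -/
theorem meas_ball_int [SecondCountableTopology X] [SFinite μ] {g : X → ℝ} (hg : Measurable g)
    (r : ℝ) : Measurable fun x => ∫ y in ball x r, g y ∂μ := by
  have hs : MeasurableSet {z : X × X | dist z.2 z.1 < r} :=
    measurableSet_lt (measurable_snd.dist measurable_fst) measurable_const
  have h := ((hg.comp measurable_snd).indicator hs).stronglyMeasurable.integral_prod_right' (ν := μ)
  refine (funext fun x => ?_ : _ = fun x => ∫ y in ball x r, g y ∂μ) ▸ h.measurable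
  rw [← integral_indicator measurableSet_ball]
  rfl

/-- finite family of ball averages: `A j x * |B(x, r j)| ≤ c * ∫_{B(x, r j)} g`; there is a common
measurable majorant with the `L^(q+2)` bound -/
theorem max_fam {g : X → ℝ} (hg : Measurable g) (g0 : ∀ x, 0 ≤ g x) (q : ℕ)
    (hi : Integrable (fun x => g x ^ (q + 2)) μ) (J : ℕ) (r : ℕ → ℝ) (r0 : ∀ j, 0 < r j) :
    ∃ M : X → ℝ, Measurable M ∧ (∀ x, 0 ≤ M x) ∧
      (∀ x, ∀ j ≤ J, ∫ y in ball x (r j), g y ∂μ ≤ M x * μ.real (ball (0 : X) (r j))) ∧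
      Integrable (fun x => M x ^ (q + 2)) μ ∧ ∫ x, M x ^ (q + 2) ∂μ ≤
        2 ^ (q + 3) * 4 ^ Module.finrank ℝ X * ∫ x, g x ^ (q + 2) ∂μ := by
  have hne : (Finset.range (J + 1)).Nonempty := ⟨0, by simp⟩
  have v0 : ∀ j, 0 < μ.real (ball (0 : X) (r j)) := fun j =>
    ENNReal.toReal_pos (measure_ball_pos μ _ (r0 j)).ne' measure_ball_lt_top.ne
  set A : ℕ → X → ℝ := fun j x => (∫ y in ball x (r j), g y ∂μ) / μ.real (ball (0 : X) (r j))
  have A0 : ∀ j x, 0 ≤ A j x := fun j x => div_nonneg (integral_nonneg g0) (v0 j).le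
  have hm : Measurable ((Finset.range (J + 1)).sup' hne A) :=
    Finset.measurable_sup' hne fun j _ => (meas_ball_int μ hg _).div_const _
  have hle : ∀ x, ∀ j ≤ J, A j x ≤ (Finset.range (J + 1)).sup' hne A x := fun x j hj =>
    Finset.le_sup' A (Finset.mem_range.2 (Nat.lt_succ_of_le hj)) x
  have h0 : ∀ x, 0 ≤ (Finset.range (J + 1)).sup' hne A x := fun x =>
    (A0 0 x).trans (hle x 0 J.zero_le)
  refine ⟨_, hm, h0, fun x j hj => (div_le_iff₀ (v0 j)).1 (hle x j hj),
    max_int μ hg g0 hm.aemeasurable h0 ((Finset.range (J + 1)).sup' hne r) q hi fun x => ?_⟩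
  obtain ⟨j, hj, e⟩ := Finset.exists_mem_eq_sup' hne fun j => A j x
  refine ⟨r j, r0 j, Finset.le_sup' r hj, le_of_eq ?_⟩
  rw [Finset.sup'_apply, e, Measure.real, Measure.addHaar_ball_center]
  exact div_mul_cancel₀ _ (v0 j).ne'

end Pool.Agent.Lib.MP_a785f2_an.NH
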