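import Pool.Agent.Lib.MP_a785f2_an.Defs

/-!
Definitions for MP_a785f2_an: submanifolds of Euclidean space, weakly `n`-harmonic maps, and
potentials that are pulled back from the target.
-/

open MeasureTheory

namespace Pool.Agent.Lib.MP_a785f2_an

/-- The point `u(x)` of Euclidean space. -/
def pt {n m : ℕ} (u : Fin m → E n → ℝ) (x : E n) : E m := WithLp.toLp 2 fun i => u i x

/-- The vector `∂_α u(x)` of Euclidean space, `G` being the weak gradient. -/
def dir {n m : ℕ} (G : Fin m → Fin n → E n → ℝ) (α : Fin n) (x : E n) : E m :=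
  WithLp.toLp 2 fun i => G i α x

/-- `N` is an embedded `C^2` submanifold without boundary of Euclidean space: near each of its
points it is the zero set of a `C^2` submersion. -/
def IsC2Submanifold {m : ℕ} (N : Set (E m)) : Prop :=
  ∀ p ∈ N, ∃ (k : ℕ) (U : Set (E m)) (Φ : E m → E k), IsOpen U ∧ p ∈ U ∧ ContDiffOn ℝ 2 Φ U ∧
    (∀ q ∈ U, Function.Surjective (fderiv ℝ Φ q)) ∧ ∀ q ∈ U, q ∈ N ↔ Φ q = 0

/-- `u` with weak gradient `G` is a weakly `n`-harmonic map into `N`: it takes values in `N`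
almost everywhere, and `-div (|∇u|^(n-2) ∇u)` is an integrable vector field `F` that is
orthogonal to the tangent space of `N` at `u(x)` for almost every `x`. -/
def IsWeaklyHarmonic {n m : ℕ} (N : Set (E m)) (u : Fin m → E n → ℝ)
    (G : Fin m → Fin n → E n → ℝ) : Prop :=
  (∀ᵐ x ∂(ballMeasure n), pt u x ∈ N) ∧
  ∃ F : Fin m → E n → ℝ, (∀ i, Integrable (F i) (ballMeasure n)) ∧
    (∀ᵐ x ∂(ballMeasure n), ∀ τ ∈ tangentConeAt ℝ N (pt u x), ∑ i, F i x * τ i = 0) ∧
    ∀ i φ, IsTest φ →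
      ∫ x, ∑ α, gradNorm G x ^ (n - 2) * G i α x * pd α φ x ∂(ballMeasure n) =
        ∫ x, F i x * φ x ∂(ballMeasure n)

/-- A `C^1` function whose derivative is bounded. -/
def IsC1Lip {m : ℕ} (b : E m → ℝ) : Prop :=
  ContDiff ℝ 1 b ∧ ∃ L : ℝ, ∀ y, ‖fderiv ℝ b y‖ ≤ L

/-- The potential `Ω^α_{ij} = ∑_l a^l_{ij}(u) ∂_α (b^l ∘ u)`, the last factor being
`Db^l(u) ∂_α u`. -/
noncomputable def pullPotential {n m k : ℕ} (a : Fin k → Fin m → Fin m → E m → ℝ)
    (b : Fin k → E m → ℝ) (u : Fin m → E n → ℝ) (G : Fin m → Fin n → E n → ℝ)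
    (α : Fin n) (i j : Fin m) (x : E n) : ℝ :=
  ∑ l, a l i j (pt u x) * fderiv ℝ (b l) (pt u x) (dir G α x)

end Pool.Agent.Lib.MP_a785f2_an
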