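import Pool.Agent.Lib.MP_a785f2_an.HS.Defs

/-! Weak solutions with an integrable right-hand side, in the internal vocabulary. -/

open MeasureTheory Metric Set Filter Topology
open scoped ContDiff RealInnerProductSpace ENNReal

namespace Pool.Agent.Lib.MP_a785f2_an.NH

open HS

variable {n m : ℕ}

/-- Weak solution on the open set `Ω` of `-div (|G|^(n-2) G) = F` with `F` integrable, all data
measurable and extended to the whole space. -/
structure GSol (Ω : Set (D n)) (u : D n → V m) (G : D n → D n →L[ℝ] V m) (F : D n → V m) :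
    Prop where
  op : IsOpen Ω
  mu : StronglyMeasurable u
  mG : StronglyMeasurable G
  mF : StronglyMeasurable F
  lu : MemLp u n volume
  lG : MemLp G n volume
  lF : Integrable F volume
  wk : ∀ φ : D n → ℝ, ContDiff ℝ ∞ φ → HasCompactSupport φ → tsupport φ ⊆ Ω → ∀ v : D n,
    ∫ x, fderiv ℝ φ x v • u x = -∫ x, φ x • G x v
  eq : ∀ φ : D n → V m, ContDiff ℝ ∞ φ → HasCompactSupport φ → tsupport φ ⊆ Ω →
    ∫ x, pr (G x) (fderiv ℝ φ x) = ∫ x, ⟪F x, φ x⟫

/-- Continuous representative on `Ω`. -/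
def Rep (Ω : Set (D n)) (u : D n → V m) : Prop :=
  ∃ v : D n → V m, ContinuousOn v Ω ∧ ∀ᵐ x ∂(volume.restrict Ω), u x = v x

end Pool.Agent.Lib.MP_a785f2_an.NH
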