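import Pool.Agent.Lib.MP_a785f2_an.HS.Moll
import Pool.Agent.Lib.MP_a785f2_an.HS.LimT
import Pool.Agent.Lib.MP_a785f2_an.NH.Sob

/-! Smooth approximation and the chain rule on a level set. -/

open MeasureTheory Metric Set Filter Topology
open scoped ContDiff RealInnerProductSpace ENNReal

namespace Pool.Agent.Lib.MP_a785f2_an.NH

open HS

variable {n m : ℕ}

open scoped Convolution in
/-- Smooth approximations on a cube inside the open set. -/
theorem GSol.apx (hn : 2 ≤ n) {Ω : Set (D n)} {u : D n → V m} {G : D n → D n →L[ℝ] V m}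
    {F : D n → V m} (S : GSol Ω u G F) {x0 : D n} {R : ℝ}
    (hK : closedBall x0 R ⊆ Ω) : ∃ w, Apx (closedBall x0 R) u G w := by
  obtain ⟨δ, hδ, hΩ⟩ := (isCompact_closedBall x0 R).exists_cthickening_subset_open S.op hK
  have hp : ∀ k : ℕ, 0 < δ * (1 / ((k : ℝ) + 1)) := fun k => by positivity
  let φ : ℕ → ContDiffBump (0 : D n) := fun k =>
    ⟨δ * (1 / ((k : ℝ) + 1)) / 2, δ * (1 / ((k : ℝ) + 1)), half_pos (hp k), half_lt_self (hp k)⟩
  have h0 : Tendsto (fun k => (φ k).rOut) atTop (𝓝 0) := by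
    have := (tendsto_one_div_add_atTop_nhds_zero_nat (𝕜 := ℝ)).const_mul δ
    rwa [mul_zero] at this
  have h2 : ∀ k, (φ k).rOut ≤ 2 * (φ k).rIn := fun k => by
    show δ * (1 / ((k : ℝ) + 1)) ≤ 2 * (δ * (1 / ((k : ℝ) + 1)) / 2)
    linarith
  have h3 : ∀ k, (φ k).rOut ≤ δ := fun k => by
    show δ * (1 / ((k : ℝ) + 1)) ≤ δ
    refine mul_le_of_le_one_right hδ.le ?_
    rw [div_le_one (by positivity)]
    linarith [Nat.cast_nonneg (α := ℝ) k]
  have h1 : (1 : ℝ≥0∞) ≤ n := by exact_mod_cast (by omega : 1 ≤ n)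
  have lu : LocallyIntegrable u volume := S.lu.locallyIntegrable h1
  have lG : LocallyIntegrable G volume := S.lG.locallyIntegrable h1
  obtain ⟨au, tu⟩ := moll_tendsto hn S.mu S.lu h0 h2
  obtain ⟨-, tG⟩ := moll_tendsto hn S.mG S.lG h0 h2
  refine ⟨fun k => (φ k).normed volume ⋆[ContinuousLinearMap.lsmul ℝ ℝ, volume] u,
    fun k => (φ k).hasCompactSupport_normed.contDiff_convolution_left _
      (φ k).contDiff_normed lu, ae_restrict_of_ae au, ?_, ?_⟩
  · exact tendsto_of_tendsto_of_tendsto_of_le_of_le tendsto_const_nhds tu (fun _ => zero_le)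
      fun _ => setLIntegral_le_lintegral _ _
  · refine tendsto_of_tendsto_of_tendsto_of_le_of_le tendsto_const_nhds tG (fun _ => zero_le)
      fun k => le_trans (le_of_eq ?_) (setLIntegral_le_lintegral (closedBall x0 R) _)
    refine setLIntegral_congr_fun measurableSet_closedBall fun x hx => ?_
    have hx' : closedBall x (φ k).rOut ⊆ Ω :=
      ((closedBall_subset_closedBall (h3 k)).trans (closedBall_subset_cthickening hx δ)).trans hΩ
    simp only [moll_fderiv lu lG S.wk (φ k) hx']

/-- The weak chain rule against a test function supported in a compact set. -/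
theorem chain_weak (hn : 2 ≤ n) {K : Set (D n)} (hK : IsCompact K) {u : D n → V m}
    {G : D n → D n →L[ℝ] V m} (mG : StronglyMeasurable G) (lG : LocallyIntegrable G volume)
    {w : ℕ → D n → V m} (hw : Apx K u G w) {W : Type} [NormedAddCommGroup W] [NormedSpace ℝ W]
    {Φ : V m → W} (h1 : ContDiff ℝ 1 Φ) {B : ℝ} (b0 : ∀ y, ‖Φ y‖ ≤ B)
    (b1 : ∀ y, ‖fderiv ℝ Φ y‖ ≤ B) {φ : D n → ℝ} (hφ : ContDiff ℝ 1 φ) (hs : tsupport φ ⊆ K)
    (v : D n) :
    ∫ x, φ x • fderiv ℝ Φ (u x) (G x v) = -∫ x, fderiv ℝ φ x v • Φ (u x) := by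
  obtain ⟨k0, rfl⟩ : ∃ k, n = k + 1 := ⟨n - 1, by omega⟩
  have B0 : 0 ≤ B := (norm_nonneg _).trans (b0 0)
  have cs : HasCompactSupport φ := hK.of_isClosed_subset (isClosed_tsupport _) hs
  have cφ := hφ.continuous
  have cs' : HasCompactSupport fun x => fderiv ℝ φ x v := cs.fderiv_apply (𝕜 := ℝ) v
  have dφ : Continuous fun x => fderiv ℝ φ x v :=
    (hφ.continuous_fderiv one_ne_zero).clm_apply continuous_const
  have dΦ : Continuous fun y => fderiv ℝ Φ y := h1.continuous_fderiv one_ne_zero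
  have cw := fun k => (hw.sm k).continuous
  have dw : ∀ k, Continuous fun x => fderiv ℝ (w k) x := fun k =>
    (hw.sm k).continuous_fderiv (by simp)
  have z0 : ∀ x, x ∉ K → φ x = 0 := fun x hx => image_eq_zero_of_notMem_tsupport fun h => hx (hs h)
  have z1 : ∀ x, x ∉ K → fderiv ℝ φ x v = 0 := fun x hx => by
    have : fderiv ℝ φ x = 0 := by
      by_contra h
      exact hx (hs (support_fderiv_subset ℝ h))
    rw [this]; rfl
  have hl : ∀ᵐ x : D (k0 + 1), x ∈ K → Tendsto (fun k => w k x) atTop (𝓝 (u x)) :=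
    (ae_restrict_iff' hK.measurableSet).1 hw.ae
  have dd : ∀ k x, HasFDerivAt (fun x => Φ (w k x))
      ((fderiv ℝ Φ (w k x)).comp (fderiv ℝ (w k) x)) x := fun k x =>
    (h1.differentiable one_ne_zero _).hasFDerivAt.comp x
      ((hw.sm k).differentiable (by simp) x).hasFDerivAt
  have c1 : ∀ k, Continuous fun x => fderiv ℝ Φ (w k x) (fderiv ℝ (w k) x v) := fun k =>
    (dΦ.comp (cw k)).clm_apply ((dw k).clm_apply continuous_const)
  have i1 : ∀ k, Integrable fun x => φ x • fderiv ℝ Φ (w k x) (fderiv ℝ (w k) x v) := fun k =>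
    (cφ.smul (c1 k)).integrable_of_hasCompactSupport cs.smul_right
  have he : ∀ k, ∫ x, φ x • fderiv ℝ Φ (w k x) (fderiv ℝ (w k) x v) =
      -∫ x, fderiv ℝ φ x v • Φ (w k x) := fun k => by
    have c0 : Continuous fun x => Φ (w k x) := h1.continuous.comp (cw k)
    have h := integral_smul_fderiv_eq_neg_fderiv_smul_of_integrable (μ := volume) (f := φ)
      (g := fun x => Φ (w k x)) (v := v)
      ((dφ.smul c0).integrable_of_hasCompactSupport cs'.smul_right)
      (by simpa only [(dd k _).fderiv, ContinuousLinearMap.comp_apply] using i1 k)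
      ((cφ.smul c0).integrable_of_hasCompactSupport cs.smul_right)
      (fun x _ => hφ.differentiable one_ne_zero x) (fun x _ => (dd k x).differentiableAt)
    simpa only [(dd k _).fderiv, ContinuousLinearMap.comp_apply] using h
  have l2 : Tendsto (fun k => ∫ x, fderiv ℝ φ x v • Φ (w k x)) atTop
      (𝓝 (∫ x, fderiv ℝ φ x v • Φ (u x))) := by
    refine tendsto_integral_of_dominated_convergence (fun x => ‖fderiv ℝ φ x v‖ * B)
      (fun k => (dφ.smul (h1.continuous.comp (cw k))).aestronglyMeasurable)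
      ((dφ.integrable_of_hasCompactSupport cs').norm.mul_const B)
      (fun k => ae_of_all _ fun x => ?_) (hl.mono fun x q => ?_)
    · rw [norm_smul]
      exact mul_le_mul_of_nonneg_left (b0 _) (norm_nonneg _)
    · by_cases hx : x ∈ K
      · exact ((h1.continuous.tendsto (u x)).comp (q hx)).const_smul _
      · simp only [z1 x hx, zero_smul]
        exact tendsto_const_nhds
  have bp : ∀ (c : ℝ) (y : V m) (A : D (k0 + 1) →L[ℝ] V m),
      ‖c • fderiv ℝ Φ y (A v)‖ ≤ ‖c • A‖ * (B * ‖v‖) := fun c y A => by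
    rw [norm_smul, norm_smul, mul_assoc]
    refine mul_le_mul_of_nonneg_left ?_ (norm_nonneg _)
    calc _ ≤ B * ‖A v‖ := (fderiv ℝ Φ y).le_of_opNorm_le (b1 y) _
      _ ≤ B * (‖A‖ * ‖v‖) := mul_le_mul_of_nonneg_left (A.le_opNorm v) B0
      _ = _ := by ring
  have mp : ∀ k, AEStronglyMeasurable (fun x => φ x • fderiv ℝ Φ (w k x) (G x v)) volume :=
    fun k => by
      have c : Continuous fun p : (V m →L[ℝ] W) × (D (k0 + 1) →L[ℝ] V m) => p.1 (p.2 v) :=
        continuous_fst.clm_apply (continuous_snd.clm_apply continuous_const)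
      have q := c.comp_stronglyMeasurable ((dΦ.comp (cw k)).stronglyMeasurable.prodMk mG)
      exact (cφ.stronglyMeasurable.smul q).aestronglyMeasurable
  have iG : Integrable fun x => ‖φ x • G x‖ * (B * ‖v‖) :=
    (lG.integrable_smul_left_of_hasCompactSupport cφ cs).norm.mul_const _
  have l1 : Tendsto (fun k => ∫ x, φ x • fderiv ℝ Φ (w k x) (G x v)) atTop
      (𝓝 (∫ x, φ x • fderiv ℝ Φ (u x) (G x v))) := by
    refine tendsto_integral_of_dominated_convergence _ mp iG
      (fun k => ae_of_all _ fun x => bp _ _ _) (hl.mono fun x q => ?_)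
    by_cases hx : x ∈ K
    · exact (((dΦ.clm_apply continuous_const).tendsto (u x)).comp (q hx)).const_smul _
    · simp only [z0 x hx, zero_smul]
      exact tendsto_const_nhds
  have i2 : ∀ k, Integrable fun x => φ x • fderiv ℝ Φ (w k x) (G x v) := fun k =>
    iG.mono' (mp k) (ae_of_all _ fun x => bp _ _ _)
  obtain ⟨C, hC⟩ := cφ.bounded_above_of_compact_support cs
  have C0 : 0 ≤ C := (norm_nonneg _).trans (hC 0)
  have l3 : Tendsto (fun k => ∫⁻ x, ‖(φ x • fderiv ℝ Φ (w k x) (fderiv ℝ (w k) x v) -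
      φ x • fderiv ℝ Φ (w k x) (G x v)) - 0‖ₑ) atTop (𝓝 0) := by
    have fin : IsFiniteMeasure ((volume : Measure (D (k0 + 1))).restrict K) :=
      ⟨by simpa using hK.measure_lt_top⟩
    have h := ENNReal.Tendsto.const_mul (a := ENNReal.ofReal (C * (B * ‖v‖)))
      (limT_small (μ := volume.restrict K) k0 (g := fun _ => 1) (fun _ => zero_le_one)
        (integrable_const _) hw.lG) (Or.inr ENNReal.ofReal_ne_top)
    rw [mul_zero] at h
    refine tendsto_of_tendsto_of_tendsto_of_le_of_le tendsto_const_nhds h (fun _ => zero_le)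
      fun k => ?_
    simp only
    rw [← lintegral_const_mul' _ _ ENNReal.ofReal_ne_top, ← lintegral_indicator hK.measurableSet]
    refine lintegral_mono fun x => ?_
    by_cases hx : x ∈ K
    · rw [indicator_of_mem hx, sub_zero, ← smul_sub, ← map_sub, ← _root_.sub_apply,
        ← ofReal_norm, ← ENNReal.ofReal_mul (by positivity)]
      refine ENNReal.ofReal_le_ofReal ((bp _ _ _).trans ?_)
      rw [norm_smul, one_pow, one_mul]
      calc _ ≤ C * ‖fderiv ℝ (w k) x - G x‖ * (B * ‖v‖) := by gcongr; exact hC x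
        _ = _ := by ring
    · simp [z0 x hx]
  have l4 := tendsto_integral_of_L1 (fun _ => (0 : W)) aestronglyMeasurable_const
    (Eventually.of_forall fun k => (i1 k).sub (i2 k)) l3
  have l5 := l1.add l4
  rw [integral_zero, add_zero] at l5
  refine tendsto_nhds_unique (l5.congr fun k => ?_) l2.neg
  rw [← he k]
  simp only [Pi.sub_apply]
  rw [integral_sub (i1 k) (i2 k), add_sub_cancel]

/-- If a `C^1` function with compact support vanishes along `u`, its derivative kills the weak
gradient almost everywhere. -/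
theorem GSol.chain (hn : 2 ≤ n) {Ω : Set (D n)} {u : D n → V m} {G : D n → D n →L[ℝ] V m}
    {F : D n → V m} (S : GSol Ω u G F) {W : Type} [NormedAddCommGroup W] [NormedSpace ℝ W]
    [FiniteDimensional ℝ W] {Φ : V m → W} (h1 : ContDiff ℝ 1 Φ) (h2 : HasCompactSupport Φ)
    (h0 : ∀ᵐ x, x ∈ Ω → Φ (u x) = 0) :
    ∀ᵐ x, x ∈ Ω → ∀ v, fderiv ℝ Φ (u x) (G x v) = 0 := by
  have : CompleteSpace W := FiniteDimensional.complete ℝ W
  have hn1 : (1 : ℝ≥0∞) ≤ n := by exact_mod_cast (by omega : 1 ≤ n)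
  have lG : LocallyIntegrable G volume := S.lG.locallyIntegrable hn1
  have dΦ : Continuous fun y => fderiv ℝ Φ y := h1.continuous_fderiv one_ne_zero
  obtain ⟨B1, b0⟩ := h1.continuous.bounded_above_of_compact_support h2
  obtain ⟨B2, b1⟩ := dΦ.bounded_above_of_compact_support (h2.fderiv ℝ)
  have key : ∀ v : D n, ∀ᵐ x, x ∈ Ω → fderiv ℝ Φ (u x) (G x v) = 0 := fun v => by
    have li : LocallyIntegrable (fun x => fderiv ℝ Φ (u x) (G x v)) volume := by
      have c : Continuous fun p : (V m →L[ℝ] W) × (D n →L[ℝ] V m) => p.1 (p.2 v) :=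
        continuous_fst.clm_apply (continuous_snd.clm_apply continuous_const)
      have q := c.comp_stronglyMeasurable ((dΦ.comp_stronglyMeasurable S.mu).prodMk S.mG)
      intro x
      obtain ⟨s, hs, hi⟩ := lG x
      refine ⟨s, hs, (hi.norm.mul_const (B2 * ‖v‖)).mono' q.aestronglyMeasurable
        (ae_of_all _ fun y => ?_)⟩
      calc _ ≤ B2 * ‖G y v‖ := (fderiv ℝ Φ (u y)).le_of_opNorm_le (b1 _) _
        _ ≤ B2 * (‖G y‖ * ‖v‖) :=
          mul_le_mul_of_nonneg_left ((G y).le_opNorm v) ((norm_nonneg _).trans (b1 0))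
        _ = _ := by ring
    refine measure_null_of_locally_null _ fun x0 hx0 => ?_
    have hx : x0 ∈ Ω := by
      by_contra h
      exact hx0 fun h' => absurd h' h
    obtain ⟨R, hR, hK⟩ := nhds_basis_closedBall.mem_iff.1 (S.op.mem_nhds hx)
    obtain ⟨w, hw⟩ := S.apx hn hK
    have h3 := (isOpen_ball (x := x0) (ε := R)).ae_eq_zero_of_integral_contDiff_smul_eq_zero
      (li.locallyIntegrableOn _) fun g g1 _ g3 => by
        rw [chain_weak hn (isCompact_closedBall x0 R) S.mG lG hw h1 (B := max B1 B2)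
          (fun y => (b0 y).trans (le_max_left _ _)) (fun y => (b1 y).trans (le_max_right _ _))
          (g1.of_le (by simp)) (g3.trans ball_subset_closedBall) v, neg_eq_zero]
        refine integral_eq_zero_of_ae (h0.mono fun y q => ?_)
        by_cases hy : y ∈ Ω
        · simp only [q hy, smul_zero, Pi.zero_apply]
        · have : fderiv ℝ g y = 0 := by
            by_contra h
            exact hy (hK (ball_subset_closedBall (g3 (support_fderiv_subset ℝ h))))
          simp [this]
    refine ⟨_, inter_mem_nhdsWithin _ (ball_mem_nhds x0 hR), measure_mono_null ?_ h3⟩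
    exact fun y hy q => hy.1 fun _ => q hy.2
  filter_upwards [ae_all_iff.2 fun α : Fin n => key (Pi.single α 1)] with x q hx v
  rw [apply_eq_sum, map_sum]
  refine Finset.sum_eq_zero fun α _ => ?_
  rw [map_smul, col, q α hx, smul_zero]

end Pool.Agent.Lib.MP_a785f2_an.NH
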