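import Pool.Agent.Lib.MP_a785f2_an.NH.Sob

/-! Test fields of class `C¹` are admissible. -/

open MeasureTheory Metric Set Filter Topology ContinuousLinearMap
open scoped ContDiff RealInnerProductSpace ENNReal Convolution Pointwise

namespace Pool.Agent.Lib.MP_a785f2_an.NH

open HS

variable {n m : ℕ}

theorem int_fro_pow (hn : 1 ≤ n) {G : D n → D n →L[ℝ] V m} (lG : MemLp G n volume) :
    Integrable (fun x => fro (G x) ^ n) volume := by
  refine ((lG.integrable_norm_pow (by omega)).const_mul ((n : ℝ) ^ n)).mono'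
    ((continuous_fro.pow n).comp_aestronglyMeasurable lG.1) (Eventually.of_forall fun x => ?_)
  rw [Real.norm_of_nonneg (pow_nonneg (fro_nonneg _) _), ← mul_pow]
  exact pow_le_pow_left₀ (fro_nonneg _) (fro_le_norm _) _

theorem int_fro_on (hn : 1 ≤ n) {G : D n → D n →L[ℝ] V m} (lG : MemLp G n volume) {k : ℕ}
    (hk : k ≤ n) {K : Set (D n)} (hK : volume K ≠ ⊤) :
    IntegrableOn (fun x => fro (G x) ^ k) K volume := by
  refine ((integrableOn_const (C := (1 : ℝ)) hK).add (int_fro_pow hn lG).integrableOn).mono'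
    ((continuous_fro.pow k).comp_aestronglyMeasurable lG.1.restrict)
    (Eventually.of_forall fun x => ?_)
  have h0 := fro_nonneg (G x)
  rw [Real.norm_of_nonneg (pow_nonneg h0 _)]
  rcases le_total (fro (G x)) 1 with h | h
  · exact (pow_le_one₀ h0 h).trans (le_add_of_nonneg_right (pow_nonneg h0 _))
  · exact (pow_le_pow_right₀ h hk).trans (le_add_of_nonneg_left zero_le_one)

theorem bump_le {W : Type} [NormedAddCommGroup W] [NormedSpace ℝ W] [CompleteSpace W]
    (β : ContDiffBump (0 : D n)) {g : D n → W} (hg : Continuous g) {B : ℝ} (hB : ∀ x, ‖g x‖ ≤ B)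
    (x : D n) : ‖(β.normed volume ⋆[lsmul ℝ ℝ, volume] g) x‖ ≤ 3 * B := by
  have h := β.dist_normed_convolution_le (μ := volume) (x₀ := x) (ε := 2 * B)
    hg.aestronglyMeasurable fun y _ => (dist_le_norm_add_norm _ _).trans (by linarith [hB y, hB x])
  have h2 := norm_le_norm_add_norm_sub' ((β.normed volume ⋆[lsmul ℝ ℝ, volume] g) x) (g x)
  rw [dist_eq_norm] at h
  linarith [hB x]

theorem GSol.eq1A (hn : 2 ≤ n) {Ω : Set (D n)} {u : D n → V m} {G : D n → D n →L[ℝ] V m}
    {F : D n → V m} (S : GSol Ω u G F) {φ : D n → V m} (h1 : ContDiff ℝ 1 φ)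
    (hc : HasCompactSupport φ) (hs : tsupport φ ⊆ Ω) :
    ∫ x, pr (G x) (fderiv ℝ φ x) = ∫ x, ⟪F x, φ x⟫ := by
  obtain ⟨δ, δ0, hδ⟩ := hc.isCompact.exists_cthickening_subset_open S.op hs
  have hK : IsCompact (cthickening δ (tsupport φ)) := hc.isCompact.cthickening
  have r0 : ∀ k : ℕ, 0 < δ * (1 / ((k : ℝ) + 1)) := fun k => by positivity
  let β : ℕ → ContDiffBump (0 : D n) := fun k =>
    ⟨δ * (1 / ((k : ℝ) + 1)) / 2, δ * (1 / ((k : ℝ) + 1)), half_pos (r0 k), half_lt_self (r0 k)⟩
  have hβ : Tendsto (fun k => (β k).rOut) atTop (𝓝 0) := by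
    simpa only [mul_zero] using tendsto_one_div_add_atTop_nhds_zero_nat.const_mul δ
  have hle : ∀ k, (β k).rOut ≤ δ := fun k => mul_le_of_le_one_right δ0.le
    (div_le_one_of_le₀ (by linarith [k.cast_nonneg (α := ℝ)]) (by positivity))
  set w : ℕ → D n → V m := fun k => (β k).normed volume ⋆[lsmul ℝ ℝ, volume] φ with hw
  have hd := h1.continuous_fderiv one_ne_zero
  obtain ⟨B, hB⟩ := h1.continuous.bounded_above_of_compact_support hc
  obtain ⟨B', hB'⟩ := hd.bounded_above_of_compact_support (hc.fderiv ℝ)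
  have ws : ∀ k, tsupport (w k) ⊆ cthickening δ (tsupport φ) := fun k => by
    refine closure_minimal ((support_convolution_subset _).trans ?_) isClosed_cthickening
    rintro _ ⟨a, ha, b, hb, rfl⟩
    rw [(β k).support_normed_eq, mem_ball_zero_iff] at ha
    refine mem_cthickening_of_dist_le _ b δ _ (subset_tsupport _ hb) ?_
    rw [dist_eq_norm, add_sub_cancel_right]
    exact ha.le.trans (hle k)
  have wd : ∀ k x, fderiv ℝ (w k) x =
      ((β k).normed volume ⋆[lsmul ℝ ℝ, volume] fderiv ℝ φ) x := fun k x => by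
    rw [(hc.hasFDerivAt_convolution_right (lsmul ℝ ℝ)
      (β k).integrable_normed.locallyIntegrable h1 x).fderiv]
    rfl
  have e : ∀ k, ∫ x, pr (G x) (fderiv ℝ (w k) x) = ∫ x, ⟪F x, w k x⟫ := fun k =>
    S.eq _ ((β k).hasCompactSupport_normed.contDiff_convolution_left _ (β k).contDiff_normed
      h1.continuous.locallyIntegrable) (hK.of_isClosed_subset (isClosed_tsupport _) (ws k))
      ((ws k).trans hδ)
  have wc : ∀ k, ContDiff ℝ 1 (w k) := fun k =>
    hc.contDiff_convolution_right _ (β k).integrable_normed.locallyIntegrable h1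
  have pm : ∀ k, AEStronglyMeasurable (fun x => pr (G x) (fderiv ℝ (w k) x)) volume := fun k => by
    have h := continuous_pr.comp_aestronglyMeasurable (S.mG.aestronglyMeasurable.prodMk
      ((wc k).continuous_fderiv one_ne_zero).aestronglyMeasurable (μ := volume))
    exact h
  have t1 : Tendsto (fun k => ∫ x, pr (G x) (fderiv ℝ (w k) x)) atTop
      (𝓝 (∫ x, pr (G x) (fderiv ℝ φ x))) := by
    refine tendsto_integral_of_dominated_convergence
      ((cthickening δ (tsupport φ)).indicator fun x => n * (fro (G x) ^ (n - 1) * (3 * B')))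
      (fun k => pm k)
      ((integrable_indicator_iff hK.measurableSet).2 (((int_fro_on (by omega) S.lG
        (Nat.sub_le n 1) hK.measure_lt_top.ne).mul_const _).const_mul _))
      (fun k => Eventually.of_forall fun x => ?_) (Eventually.of_forall fun x => ?_)
    · by_cases hx : x ∈ cthickening δ (tsupport φ)
      · rw [indicator_of_mem hx]
        refine (abs_pr_le hn _ _).trans ?_
        have := fro_nonneg (G x)
        rw [wd]
        gcongr
        exact bump_le _ hd hB' x
      · rw [indicator_of_notMem hx, fderiv_of_notMem_tsupport ℝ fun h => hx (ws k h)]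
        simp [pr, col]
    · simp only [wd]
      exact (continuous_pr.comp (Continuous.prodMk_right (G x))).continuousAt.tendsto.comp
        (ContDiffBump.convolution_tendsto_right_of_continuous hβ hd x)
  have t2 : Tendsto (fun k => ∫ x, ⟪F x, w k x⟫) atTop (𝓝 (∫ x, ⟪F x, φ x⟫)) := by
    refine tendsto_integral_of_dominated_convergence (fun x => ‖F x‖ * (3 * B))
      (fun k => S.mF.aestronglyMeasurable.inner (wc k).continuous.aestronglyMeasurable)
      (S.lF.norm.mul_const _) (fun k => Eventually.of_forall fun x => ?_)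
      (Eventually.of_forall fun x => ?_)
    · exact (norm_inner_le_norm _ _).trans
        (mul_le_mul_of_nonneg_left (bump_le _ h1.continuous hB x) (norm_nonneg _))
    · exact tendsto_const_nhds.inner
        (ContDiffBump.convolution_tendsto_right_of_continuous hβ h1.continuous x)
  exact tendsto_nhds_unique (t1.congr e) t2

end Pool.Agent.Lib.MP_a785f2_an.NH
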