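import Pool.Agent.Lib.MP_a785f2_an.NH.Defs
import Pool.Agent.Lib.MP_a785f2_an.NH.Max

open MeasureTheory Metric Set Filter Topology
open scoped ContDiff RealInnerProductSpace ENNReal Convolution

namespace Pool.Agent.Lib.MP_a785f2_an.NH

open HS

variable {n m : ℕ} {H : Type} [NormedAddCommGroup H] [NormedSpace ℝ H]
  {a : V m → H →L[ℝ] V m →L[ℝ] V m} {b : V m → H} {L : ℝ}
  {Ω : Set (D n)} {u : D n → V m} {G : D n → D n →L[ℝ] V m}

theorem mass_mono (hn : 2 ≤ n) (S : Sob Ω u G) {x : D n} {t : ℝ} {A : Set (D n)} {y : D n} {R : ℝ}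
    (h1 : closedBall x t ⊆ A) (h2 : A ⊆ closedBall y R) : mass G x t ≤ ∫ z in A, ‖G z‖ := by
  exact setIntegral_mono_set ((S.locG (by omega) y R).mono_set h2)
    (Eventually.of_forall fun _ => norm_nonneg _) h1.eventuallyLE

theorem mass_meas (S : Sob Ω u G) (t : ℝ) : Measurable fun x => mass G x t := by
  have hs : MeasurableSet {z : D n × D n | dist z.2 z.1 ≤ t} :=
    measurableSet_le (measurable_snd.dist measurable_fst) measurable_const
  have h := ((S.mG.norm.measurable.comp measurable_snd).indicator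
    hs).stronglyMeasurable.integral_prod_right' (ν := volume)
  refine (funext fun x => ?_ : _ = fun x => mass G x t) ▸ h.measurable
  rw [mass, ← integral_indicator measurableSet_closedBall]
  rfl

/-- Fubini. -/
theorem mass_fub (hn : 2 ≤ n) (S : Sob Ω u G) {ρ : ℝ} (hρ : 0 < ρ) {A A' : Set (D n)}
    (mA : MeasurableSet A) (mA' : MeasurableSet A') {y : D n} {R : ℝ} (h2 : A' ⊆ closedBall y R)
    (h1 : ∀ x ∈ A, closedBall x ρ ⊆ A') :
    IntegrableOn (fun x => mass G x ρ) A ∧
      ∫ x in A, mass G x ρ ≤ (2 * ρ) ^ n * ∫ z in A', ‖G z‖ := by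
  set g : D n → ℝ := A'.indicator fun z => ‖G z‖ with hg
  have gI : Integrable g :=
    (integrable_indicator_iff mA').2 ((S.locG (by omega) y R).mono_set h2)
  have g0 : ∀ z, 0 ≤ g z := fun z => indicator_nonneg (fun _ _ => norm_nonneg _) z
  have gm : Measurable g := S.mG.norm.measurable.indicator mA'
  have hs : MeasurableSet {p : D n × D n | dist p.1 p.2 ≤ ρ} :=
    measurableSet_le (measurable_fst.dist measurable_snd) measurable_const
  set F : D n × D n → ℝ := {p : D n × D n | dist p.1 p.2 ≤ ρ}.indicator fun p => g p.2 with hF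
  have F0 : ∀ p, 0 ≤ F p := fun p => indicator_nonneg (fun _ _ => g0 _) p
  have e1 : ∀ z, (fun x => F (x, z)) = (closedBall z ρ).indicator fun _ => g z := fun z => rfl
  have e2 : ∀ z, ∫ x, F (x, z) = (2 * ρ) ^ n * g z := fun z => by
    rw [e1, integral_indicator_const _ measurableSet_closedBall, Measure.real,
      Real.volume_pi_closedBall _ hρ.le, ENNReal.toReal_ofReal (by positivity), Fintype.card_fin,
      smul_eq_mul]
  have FI : Integrable F (volume.prod volume) := by
    refine (integrable_prod_iff' ((gm.comp measurable_snd).indicator hs).aestronglyMeasurable).2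
      ⟨Eventually.of_forall fun z => ?_, ?_⟩
    · change Integrable fun x => F (x, z)
      rw [e1]
      exact (integrable_indicator_iff measurableSet_closedBall).2
        (integrableOn_const measure_closedBall_lt_top.ne)
    · change Integrable fun z => ∫ x, ‖F (x, z)‖
      simp only [Real.norm_of_nonneg (F0 _), e2]
      exact gI.const_mul _
  have e3 : EqOn (fun x => ∫ z, F (x, z)) (fun x => mass G x ρ) A := fun x hx => by
    have : (fun z => F (x, z)) = (closedBall x ρ).indicator fun z => ‖G z‖ := funext fun z => by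
      by_cases hz : z ∈ closedBall x ρ
      · rw [hF, indicator_of_mem hz, indicator_of_mem (by exact mem_closedBall'.1 hz), hg,
          indicator_of_mem (h1 x hx hz)]
      · rw [hF, indicator_of_notMem hz,
          indicator_of_notMem (by exact fun k => hz (mem_closedBall'.2 k))]
    simp only [this, integral_indicator measurableSet_closedBall, mass]
  refine ⟨FI.integral_prod_left.integrableOn.congr_fun e3 mA, ?_⟩
  rw [← setIntegral_congr_fun mA e3, ← integral_indicator mA', ← hg, ← integral_const_mul]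
  refine (setIntegral_le_integral FI.integral_prod_left
    (Eventually.of_forall fun x => integral_nonneg fun z => F0 _)).trans (le_of_eq ?_)
  rw [integral_integral_swap (f := fun x z => F (x, z)) FI]
  simp only [e2]

/-- The local maximal function of a finite family of radii. -/
theorem mass_max (hn : 2 ≤ n) (S : Sob Ω u G) (x0 : D n) {R ρ : ℝ} (J : ℕ) (r : ℕ → ℝ)
    (r0 : ∀ j, 0 < r j) (r1 : ∀ j, r j ≤ ρ) :
    ∃ M : D n → ℝ, Measurable M ∧ (∀ x, 0 ≤ M x) ∧ Integrable (fun x => M x ^ n) volume ∧
      ∫ x, M x ^ n ≤ 2 ^ (n + 1) * 4 ^ n * ∫ x in closedBall x0 (R + ρ), ‖G x‖ ^ n ∧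
      ∀ x ∈ closedBall x0 R, ∀ j ≤ J, mass G x (r j) ≤ M x * (2 * r j) ^ n := by
  obtain ⟨q, rfl⟩ : ∃ q, n = q + 2 := ⟨n - 2, by omega⟩
  have e1 : (fun x => (closedBall x0 (R + ρ)).indicator (fun z => ‖G z‖) x ^ (q + 2)) =
      (closedBall x0 (R + ρ)).indicator fun z => ‖G z‖ ^ (q + 2) := funext fun x => by
    by_cases hx : x ∈ closedBall x0 (R + ρ) <;> simp [hx]
  obtain ⟨M, Mm, M0, hM, MI, hI⟩ := max_fam volume
    (S.mG.norm.measurable.indicator (measurableSet_closedBall (x := x0) (ε := R + ρ)))
    (fun z => indicator_nonneg (fun _ _ => norm_nonneg _) z) q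
    (e1 ▸ (S.powG (by omega)).indicator measurableSet_closedBall) J r r0
  rw [e1, integral_indicator measurableSet_closedBall, Module.finrank_fin_fun] at hI
  refine ⟨M, Mm, M0, MI, hI, fun x hx j hj => ?_⟩
  have h := hM x j hj
  have rp := r0 j
  rw [Measure.real, Real.volume_pi_ball _ rp, ENNReal.toReal_ofReal (by positivity),
    Fintype.card_fin] at h
  refine le_trans (le_of_eq ?_) h
  rw [mass, ← setIntegral_congr_set (ae_eq_of_subset_of_measure_ge ball_subset_closedBall
    (by rw [Real.volume_pi_ball _ rp, Real.volume_pi_closedBall _ rp.le])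
    measurableSet_ball.nullMeasurableSet measure_closedBall_lt_top.ne)]
  refine setIntegral_congr_fun measurableSet_ball fun z hz =>
    (indicator_of_mem (s := closedBall x0 (R + ρ)) ?_ fun z => ‖G z‖).symm
  have := dist_triangle z x x0
  rw [mem_ball] at hz
  rw [mem_closedBall] at hx ⊢
  linarith [r1 j]

end Pool.Agent.Lib.MP_a785f2_an.NH
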