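import Pool.Agent.Lib.MP_a785f2_an.HS.Moll

/-! Mollification at a given scale: bounds for the derivative and for the change of scale. -/

open MeasureTheory Metric Set Filter Topology ContinuousLinearMap
open scoped ContDiff RealInnerProductSpace ENNReal Convolution

namespace Pool.Agent.Lib.MP_a785f2_an.NH

open HS

variable {n m : ℕ} {F : Type} [NormedAddCommGroup F] [NormedSpace ℝ F]

theorem normed_le (φ : ContDiffBump (0 : D n)) (x : D n) :
    φ.normed volume x ≤ ((2 * φ.rIn) ^ n)⁻¹ := by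
  have h := φ.normed_le_div_measure_closedBall_rIn (μ := volume) x
  rwa [measureReal_def, Real.volume_pi_closedBall _ φ.rIn_pos.le, Fintype.card_fin,
    ENNReal.toReal_ofReal (pow_nonneg (by linarith [φ.rIn_pos]) _), one_div] at h

theorem conv_le (φ : ContDiffBump (0 : D n)) {g : D n → F} (hg : LocallyIntegrable g volume)
    (x : D n) : ‖(φ.normed volume ⋆[lsmul ℝ ℝ, volume] g) x‖ ≤
      ((2 * φ.rIn) ^ n)⁻¹ * ∫ y in ball x φ.rOut, ‖g y‖ := by
  have hi : IntegrableOn (fun y => ‖g y‖) (ball x φ.rOut) :=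
    ((hg.integrableOn_isCompact (isCompact_closedBall x φ.rOut)).mono_set
      ball_subset_closedBall).norm
  rw [convolution_lsmul_swap, ← integral_const_mul, ← integral_indicator measurableSet_ball]
  refine norm_integral_le_of_norm_le ((integrable_indicator_iff measurableSet_ball).2
    (hi.const_mul _)) (ae_of_all _ fun y => ?_)
  by_cases hy : y ∈ ball x φ.rOut
  · rw [indicator_of_mem hy, norm_smul, Real.norm_of_nonneg (φ.nonneg_normed _)]
    exact mul_le_mul_of_nonneg_right (normed_le φ _) (norm_nonneg _)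
  · have : φ.normed volume (x - y) = 0 := by
      rw [← Function.notMem_support, φ.support_normed_eq, mem_ball_zero_iff, ← dist_eq_norm,
        dist_comm]
      exact hy
    rw [indicator_of_notMem hy, this, zero_smul, norm_zero]

theorem conv_smooth (φ : ContDiffBump (0 : D n)) {g : D n → F} (hg : LocallyIntegrable g volume) :
    ContDiff ℝ ∞ (φ.normed volume ⋆[lsmul ℝ ℝ, volume] g) :=
  φ.hasCompactSupport_normed.contDiff_convolution_left _ φ.contDiff_normed hg

theorem conv_comm [CompleteSpace F] (φ ψ : ContDiffBump (0 : D n)) {g : D n → F}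
    (hg : LocallyIntegrable g volume) (x : D n) :
    (φ.normed volume ⋆[lsmul ℝ ℝ, volume] (ψ.normed volume ⋆[lsmul ℝ ℝ, volume] g)) x =
      (ψ.normed volume ⋆[lsmul ℝ ℝ, volume] (φ.normed volume ⋆[lsmul ℝ ℝ, volume] g)) x := by
  have hn : LocallyIntegrable (fun x => ‖g x‖) volume := fun x => (hg x).norm
  have key : ∀ φ ψ : ContDiffBump (0 : D n),
      ((φ.normed volume ⋆[mul ℝ ℝ, volume] ψ.normed volume) ⋆[lsmul ℝ ℝ, volume] g) x =
      (φ.normed volume ⋆[lsmul ℝ ℝ, volume] (ψ.normed volume ⋆[lsmul ℝ ℝ, volume] g)) x := by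
    intro φ ψ
    refine convolution_assoc _ _ _ _ (fun a b c => mul_smul a b c)
      φ.continuous_normed.aestronglyMeasurable ψ.continuous_normed.aestronglyMeasurable
      hg.aestronglyMeasurable (ae_of_all _ (φ.hasCompactSupport_normed.convolutionExists_left _
        φ.continuous_normed ψ.continuous_normed.locallyIntegrable))
      (ae_of_all _ (ψ.hasCompactSupport_normed.norm.convolutionExists_left _
        ψ.continuous_normed.norm hn)) (φ.hasCompactSupport_normed.norm.convolutionExists_left _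
          φ.continuous_normed.norm (ψ.hasCompactSupport_normed.norm.continuous_convolution_left _
            ψ.continuous_normed.norm hn).locallyIntegrable x)
  have e : φ.normed volume ⋆[mul ℝ ℝ, volume] ψ.normed volume =
      ψ.normed volume ⋆[mul ℝ ℝ, volume] φ.normed volume := by
    funext y
    rw [convolution_mul, convolution_mul_swap]
    exact integral_congr_ae (ae_of_all _ fun t => mul_comm _ _)
  rw [← key, ← key, e]

variable {Ω : Set (D n)} {u : D n → V m} {G : D n → D n →L[ℝ] V m}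
  (hu : LocallyIntegrable u volume) (hG : LocallyIntegrable G volume)
  (wk : ∀ φ : D n → ℝ, ContDiff ℝ ∞ φ → HasCompactSupport φ → tsupport φ ⊆ Ω → ∀ v : D n,
    ∫ x, fderiv ℝ φ x v • u x = -∫ x, φ x • G x v)
include hu hG wk

theorem fderiv_conv_le (φ : ContDiffBump (0 : D n)) {x : D n} (hx : closedBall x φ.rOut ⊆ Ω) :
    ‖fderiv ℝ (φ.normed volume ⋆[lsmul ℝ ℝ, volume] u) x‖ ≤
      ((2 * φ.rIn) ^ n)⁻¹ * ∫ y in ball x φ.rOut, ‖G y‖ := by
  rw [moll_fderiv hu hG wk φ hx]
  exact conv_le φ hG x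

theorem conv_lip (φ : ContDiffBump (0 : D n)) {x y : D n} {r : ℝ}
    (hx : closedBall x (r + φ.rOut) ⊆ Ω) (hy : y ∈ ball x r) :
    ‖(φ.normed volume ⋆[lsmul ℝ ℝ, volume] u) y - (φ.normed volume ⋆[lsmul ℝ ℝ, volume] u) x‖ ≤
      (((2 * φ.rIn) ^ n)⁻¹ * ∫ y in ball x (r + φ.rOut), ‖G y‖) * ‖y - x‖ := by
  have hi : IntegrableOn (fun y => ‖G y‖) (ball x (r + φ.rOut)) :=
    ((hG.integrableOn_isCompact (isCompact_closedBall x _)).mono_set ball_subset_closedBall).norm
  refine (convex_ball x r).norm_image_sub_le_of_norm_fderiv_le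
    (fun z _ => (conv_smooth φ hu).differentiable (by simp) z) (fun z hz => ?_)
    (mem_ball_self (pos_of_mem_ball hy)) hy
  have hz' := mem_ball.1 hz
  refine (fderiv_conv_le hu hG wk φ ((closedBall_subset_closedBall' (by linarith)).trans
    hx)).trans (mul_le_mul_of_nonneg_left (setIntegral_mono_set hi
      (ae_of_all _ fun _ => norm_nonneg _) (ball_subset_ball' (by linarith)).eventuallyLE) ?_)
  have := φ.rIn_pos
  positivity

theorem conv_conv_le (φ ψ : ContDiffBump (0 : D n)) {x : D n}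
    (hx : closedBall x (ψ.rOut + φ.rOut) ⊆ Ω) :
    ‖(ψ.normed volume ⋆[lsmul ℝ ℝ, volume] (φ.normed volume ⋆[lsmul ℝ ℝ, volume] u)) x -
      (φ.normed volume ⋆[lsmul ℝ ℝ, volume] u) x‖ ≤
      (((2 * φ.rIn) ^ n)⁻¹ * ∫ y in ball x (ψ.rOut + φ.rOut), ‖G y‖) * ψ.rOut := by
  rw [← dist_eq_norm]
  refine ψ.dist_normed_convolution_le (conv_smooth φ hu).continuous.aestronglyMeasurable
    fun y hy => ?_
  rw [dist_eq_norm]
  refine (conv_lip hu hG wk φ hx hy).trans (mul_le_mul_of_nonneg_left (mem_ball_iff_norm.1 hy).le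
    (mul_nonneg ?_ (integral_nonneg fun _ => norm_nonneg _)))
  have := φ.rIn_pos
  positivity

/-- Change of scale. -/
theorem conv_sub_le (φ ψ : ContDiffBump (0 : D n)) {x : D n}
    (hx : closedBall x (ψ.rOut + φ.rOut) ⊆ Ω) :
    ‖(φ.normed volume ⋆[lsmul ℝ ℝ, volume] u) x - (ψ.normed volume ⋆[lsmul ℝ ℝ, volume] u) x‖ ≤
      (((2 * φ.rIn) ^ n)⁻¹ * ψ.rOut + ((2 * ψ.rIn) ^ n)⁻¹ * φ.rOut) *
        ∫ y in ball x (ψ.rOut + φ.rOut), ‖G y‖ := by
  have a := conv_conv_le hu hG wk φ ψ hx
  have b := conv_conv_le hu hG wk ψ φ (add_comm ψ.rOut φ.rOut ▸ hx)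
  rw [conv_comm φ ψ hu, add_comm φ.rOut] at b
  rw [norm_sub_rev] at a
  exact (norm_sub_le_norm_sub_add_norm_sub _ _ _).trans ((add_le_add a b).trans_eq (by ring))

end Pool.Agent.Lib.MP_a785f2_an.NH
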