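import Pool.Agent.Lib.MP_a785f2_an.NH.Defs
import Pool.Agent.Lib.MP_a785f2_an.NH.MollA

open MeasureTheory Metric Set Filter Topology
open scoped ContDiff RealInnerProductSpace ENNReal Convolution

namespace Pool.Agent.Lib.MP_a785f2_an.NH

open HS

variable {n m : ℕ} {H : Type} [NormedAddCommGroup H] [NormedSpace ℝ H]
  {a : V m → H →L[ℝ] V m →L[ℝ] V m} {b : V m → H} {L : ℝ}
  {Ω : Set (D n)} {u : D n → V m} {G : D n → D n →L[ℝ] V m}

theorem bmp_rIn {s : ℝ} (h : 0 < s) : 2 * (bmp n s).rIn = s := by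
  rw [bmp, dif_pos h]; exact mul_div_cancel₀ s two_ne_zero

theorem bmp_rOut {s : ℝ} (h : 0 < s) : (bmp n s).rOut = s := by rw [bmp, dif_pos h]

theorem Sob.liu (hn : 2 ≤ n) (S : Sob Ω u G) : LocallyIntegrable u volume :=
  S.lu.locallyIntegrable (by exact_mod_cast (by omega : 1 ≤ n))

theorem Sob.liG (hn : 2 ≤ n) (S : Sob Ω u G) : LocallyIntegrable G volume :=
  S.lG.locallyIntegrable (by exact_mod_cast (by omega : 1 ≤ n))

theorem Sob.ball_le (hn : 2 ≤ n) (S : Sob Ω u G) (x : D n) {r t : ℝ} (h : r ≤ t) :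
    ∫ y in ball x r, ‖G y‖ ≤ mass G x t :=
  setIntegral_mono_set (S.locG (by omega) x t) (ae_of_all _ fun _ => norm_nonneg _)
    (ball_subset_closedBall.trans (closedBall_subset_closedBall h)).eventuallyLE

theorem mol_smooth (hn : 2 ≤ n) (S : Sob Ω u G) (s : ℝ) : ContDiff ℝ ∞ (mol s u) := by
  exact conv_smooth _ (S.liu hn)

theorem mol_grad (hn : 2 ≤ n) (S : Sob Ω u G) {s : ℝ} (hs : 0 < s) {x : D n}
    (hx : closedBall x s ⊆ Ω) : ‖fderiv ℝ (mol s u) x‖ ≤ mass G x s / s ^ n := by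
  have a := fderiv_conv_le (S.liu hn) (S.liG hn) S.wk (bmp n s) ((bmp_rOut hs).symm ▸ hx)
  rw [bmp_rIn hs, bmp_rOut hs] at a
  rw [div_eq_inv_mul]
  exact a.trans (mul_le_mul_of_nonneg_left (S.ball_le hn x le_rfl) (by positivity))

/-- Compare both with the double mollification. -/
theorem mol_diff (hn : 2 ≤ n) (S : Sob Ω u G) {s : ℝ} (hs : 0 < s) {x : D n}
    (hx : closedBall x (2 * s) ⊆ Ω) :
    ‖mol (s / 2) u x - mol s u x‖ ≤ (2 ^ n + 1) * mass G x (2 * s) / s ^ (n - 1) := by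
  have h2 := half_pos hs
  have a := conv_sub_le (S.liu hn) (S.liG hn) S.wk (bmp n (s / 2)) (bmp n s) (x := x) (by
    rw [bmp_rOut hs, bmp_rOut h2]
    exact (closedBall_subset_closedBall (by linarith)).trans hx)
  rw [bmp_rIn hs, bmp_rIn h2, bmp_rOut hs, bmp_rOut h2] at a
  have c : ((s / 2) ^ n)⁻¹ * s + (s ^ n)⁻¹ * (s / 2) ≤ (2 ^ n + 1) * (s * (s ^ n)⁻¹) := by
    rw [div_pow, inv_div, div_eq_mul_inv]
    nlinarith [mul_pos hs (inv_pos.2 (pow_pos hs n))]
  refine a.trans ((mul_le_mul c (S.ball_le hn x (by linarith : s + s / 2 ≤ 2 * s))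
    (integral_nonneg fun _ => norm_nonneg _) (by positivity)).trans_eq ?_)
  obtain ⟨k, rfl⟩ : ∃ k, n = k + 1 := ⟨n - 1, by omega⟩
  rw [Nat.add_sub_cancel]
  field_simp
  ring

theorem mol_apx (hn : 2 ≤ n) (S : Sob Ω u G) {s R : ℝ} (hs : 0 < s) {x0 : D n}
    (hx : closedBall x0 (R + s) ⊆ Ω) :
    Apx (closedBall x0 R) u G fun j => mol (s / 2 ^ j) u := by
  have p : ∀ j : ℕ, 0 < s / 2 ^ j := fun j => by positivity
  have h0 : Tendsto (fun j : ℕ => (bmp n (s / 2 ^ j)).rOut) atTop (𝓝 0) := by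
    simp only [bmp_rOut (p _)]
    exact tendsto_const_nhds.div_atTop (tendsto_pow_atTop_atTop_of_one_lt one_lt_two)
  have h2 : ∀ j : ℕ, (bmp n (s / 2 ^ j)).rOut ≤ 2 * (bmp n (s / 2 ^ j)).rIn := fun j => by
    rw [bmp_rIn (p j), bmp_rOut (p j)]
  obtain ⟨au, tu⟩ := moll_tendsto hn S.mu S.lu h0 h2
  obtain ⟨-, tG⟩ := moll_tendsto hn S.mG S.lG h0 h2
  refine ⟨fun j => mol_smooth hn S _, ae_restrict_of_ae au, ?_, ?_⟩
  · exact tendsto_of_tendsto_of_tendsto_of_le_of_le tendsto_const_nhds tu (fun _ => zero_le)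
      fun _ => setLIntegral_le_lintegral _ _
  · refine tendsto_of_tendsto_of_tendsto_of_le_of_le tendsto_const_nhds tG (fun _ => zero_le)
      fun k => le_trans (le_of_eq ?_) (setLIntegral_le_lintegral (closedBall x0 R) _)
    refine setLIntegral_congr_fun measurableSet_closedBall fun x h => ?_
    have hx' : closedBall x (bmp n (s / 2 ^ k)).rOut ⊆ Ω := by
      rw [bmp_rOut (p k)]
      refine (closedBall_subset_closedBall' ?_).trans hx
      linarith [mem_closedBall.1 h, div_le_self hs.le (one_le_pow₀ (one_le_two (α := ℝ)) (n := k))]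
    simp only [mol, moll_fderiv (S.liu hn) (S.liG hn) S.wk _ hx']

end Pool.Agent.Lib.MP_a785f2_an.NH
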