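import Mathlib

/-!
One step of the finite recursion
`W' = W + <W> (U' - U) - a(U)(b U' - b U) W`, `<W> = sqrt (1 + |W|^2)`,
its derivative, and the growth of the defect `S = DW - <W> DU + a(U)(Db(U) DU) W`.
-/

open scoped RealInnerProductSpace

namespace Pool.Agent.Lib.MP_a785f2_an.NH

variable {X F H : Type*} [NormedAddCommGroup X] [NormedSpace ℝ X]
  [NormedAddCommGroup F] [InnerProductSpace ℝ F] [NormedAddCommGroup H] [NormedSpace ℝ H]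

omit [InnerProductSpace ℝ F] in
theorem sq1_sq (W : F) : √(1 + ‖W‖ ^ 2) ^ 2 = 1 + ‖W‖ ^ 2 := Real.sq_sqrt (by positivity)

omit [InnerProductSpace ℝ F] in
theorem one_le_sq1 (W : F) : 1 ≤ √(1 + ‖W‖ ^ 2) :=
  Real.le_sqrt_of_sq_le (by nlinarith [sq_nonneg ‖W‖])

omit [InnerProductSpace ℝ F] in
theorem sq1_pos (W : F) : 0 < √(1 + ‖W‖ ^ 2) := one_pos.trans_le (one_le_sq1 W)

omit [InnerProductSpace ℝ F] in
theorem norm_le_sq1 (W : F) : ‖W‖ ≤ √(1 + ‖W‖ ^ 2) :=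
  Real.le_sqrt_of_sq_le (by nlinarith)

omit [InnerProductSpace ℝ F] in
theorem sq1_le (W : F) : √(1 + ‖W‖ ^ 2) ≤ 1 + ‖W‖ :=
  Real.sqrt_le_iff.2 ⟨by positivity, by nlinarith [norm_nonneg W]⟩

omit [InnerProductSpace ℝ F] in
theorem sq1_le_add (W W' : F) : √(1 + ‖W'‖ ^ 2) ≤ √(1 + ‖W‖ ^ 2) + ‖W' - W‖ := by
  have h1 : ‖W'‖ ≤ ‖W‖ + ‖W' - W‖ := by
    have := norm_add_le W (W' - W); simpa using this
  have h2 := norm_le_sq1 W
  have h3 := sq1_sq W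
  have h4 := norm_nonneg W
  have h5 := norm_nonneg W'
  have h6 := norm_nonneg (W' - W)
  refine Real.sqrt_le_iff.2 ⟨by positivity, ?_⟩
  have h7 : ‖W'‖ ^ 2 ≤ (‖W‖ + ‖W' - W‖) ^ 2 := pow_le_pow_left₀ h5 h1 2
  nlinarith [mul_le_mul_of_nonneg_right h2 h6]

omit [InnerProductSpace ℝ F] in
theorem abs_sq1_sub (W W' : F) : |√(1 + ‖W‖ ^ 2) - √(1 + ‖W'‖ ^ 2)| ≤ ‖W' - W‖ := by
  have h1 := sq1_le_add W W'
  have h2 := sq1_le_add W' W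
  rw [norm_sub_rev] at h2
  exact abs_le.2 ⟨by linarith, by linarith⟩

theorem hasFDerivAt_sq1 (W : F) :
    HasFDerivAt (fun y : F => √(1 + ‖y‖ ^ 2)) ((√(1 + ‖W‖ ^ 2))⁻¹ • innerSL ℝ W) W := by
  have h1 : HasFDerivAt (fun y : F => 1 + ‖y‖ ^ 2) (2 • innerSL ℝ W) W :=
    (hasStrictFDerivAt_norm_sq W).hasFDerivAt.const_add _
  have h2 := h1.sqrt (by positivity)
  have hp := sq1_pos W
  refine h2.congr_fderiv ?_
  ext v
  simp only [smul_apply, innerSL_apply_apply, smul_eq_mul, nsmul_eq_mul]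
  push_cast
  field_simp

theorem contDiff_sq1 {k : WithTop ℕ∞} : ContDiff ℝ k (fun y : F => √(1 + ‖y‖ ^ 2)) :=
  (contDiff_const.add (contDiff_norm_sq ℝ)).sqrt fun y => by positivity

/-- The step keeps the class `C^k`. -/
theorem rec_contDiff {k : WithTop ℕ∞} {a : F → H →L[ℝ] F →L[ℝ] F} {b : F → H} {U U' W : X → F}
    (ha : ContDiff ℝ k a) (hb : ContDiff ℝ k b) (hU : ContDiff ℝ k U) (hU' : ContDiff ℝ k U')
    (hW : ContDiff ℝ k W) :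
    ContDiff ℝ k fun y =>
      W y + √(1 + ‖W y‖ ^ 2) • (U' y - U y) - a (U y) (b (U' y) - b (U y)) (W y) :=
  (hW.add ((contDiff_sq1.comp hW).smul (hU'.sub hU))).sub
    (((ha.comp hU).clm_apply ((hb.comp hU').sub (hb.comp hU))).clm_apply hW)

/-- The derivative of the step, applied to a vector. -/
theorem rec_fderiv {a : F → H →L[ℝ] F →L[ℝ] F} {b : F → H} {U U' W : X → F} {x : X}
    (ha : DifferentiableAt ℝ a (U x)) (hb : DifferentiableAt ℝ b (U x))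
    (hb' : DifferentiableAt ℝ b (U' x)) (hU : DifferentiableAt ℝ U x)
    (hU' : DifferentiableAt ℝ U' x) (hW : DifferentiableAt ℝ W x) (v : X) :
    fderiv ℝ (fun y =>
      W y + √(1 + ‖W y‖ ^ 2) • (U' y - U y) - a (U y) (b (U' y) - b (U y)) (W y)) x v =
    fderiv ℝ W x v + (√(1 + ‖W x‖ ^ 2) • (fderiv ℝ U' x v - fderiv ℝ U x v)
        + ((√(1 + ‖W x‖ ^ 2))⁻¹ * ⟪W x, fderiv ℝ W x v⟫) • (U' x - U x))
      - (fderiv ℝ a (U x) (fderiv ℝ U x v) (b (U' x) - b (U x)) (W x)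
        + a (U x) (fderiv ℝ b (U' x) (fderiv ℝ U' x v) - fderiv ℝ b (U x) (fderiv ℝ U x v)) (W x)
        + a (U x) (b (U' x) - b (U x)) (fderiv ℝ W x v)) := by
  have h1 := (hasFDerivAt_sq1 (W x)).comp x hW.hasFDerivAt
  have h2 := h1.smul (hU'.hasFDerivAt.sub hU.hasFDerivAt)
  have h3 := HasFDerivAt.comp (G := H →L[ℝ] F →L[ℝ] F) x ha.hasFDerivAt hU.hasFDerivAt
  have h4 := (hb'.hasFDerivAt.comp x hU'.hasFDerivAt).sub (hb.hasFDerivAt.comp x hU.hasFDerivAt)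
  have h5 := (h3.clm_apply h4).clm_apply hW.hasFDerivAt
  have h6 := (hW.hasFDerivAt.add h2).sub h5
  have h7 : HasFDerivAt (fun y =>
      W y + √(1 + ‖W y‖ ^ 2) • (U' y - U y) - a (U y) (b (U' y) - b (U y)) (W y)) _ x := h6
  rw [h7.fderiv]
  simp
  abel

/-- Size of the step. -/
theorem rec_step_le {A : H →L[ℝ] F →L[ℝ] F} {p : H} {Δ W : F} {L : ℝ} (hA : ‖A‖ ≤ L)
    (hp : ‖p‖ ≤ L * ‖Δ‖) :
    ‖(W + √(1 + ‖W‖ ^ 2) • Δ - A p W) - W‖ ≤ (1 + L ^ 2) * ‖Δ‖ * √(1 + ‖W‖ ^ 2) := by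
  have hL : 0 ≤ L := (norm_nonneg A).trans hA
  have e : (W + √(1 + ‖W‖ ^ 2) • Δ - A p W) - W = √(1 + ‖W‖ ^ 2) • Δ - A p W := by abel
  have h1 : ‖A p W‖ ≤ L * (L * ‖Δ‖) * √(1 + ‖W‖ ^ 2) :=
    (A.le_opNorm₂ p W).trans (by gcongr; exact norm_le_sq1 W)
  rw [e]
  refine (norm_sub_le _ _).trans ?_
  rw [norm_smul, Real.norm_of_nonneg (sq1_pos W).le]
  nlinarith

/-- Pure algebra of the defect: everything is a vector or a linear map. -/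
theorem rec_alg {A A' Da : H →L[ℝ] F →L[ℝ] F} {p q q' : H} {Δ W W' u u' w w' : F} {L d α α' : ℝ}
    (hA : ‖A‖ ≤ L) (hAA : ‖A' - A‖ ≤ L * d) (hDa : ‖Da‖ ≤ L * α) (hp : ‖p‖ ≤ L * ‖Δ‖)
    (hq : ‖q‖ ≤ L * α) (hq' : ‖q'‖ ≤ L * α') (hu : ‖u‖ ≤ α) (hu' : ‖u'‖ ≤ α') (hd : ‖Δ‖ ≤ d)
    (hW' : W' = W + √(1 + ‖W‖ ^ 2) • Δ - A p W)
    (hw' : w' = w + (√(1 + ‖W‖ ^ 2) • (u' - u) + ((√(1 + ‖W‖ ^ 2))⁻¹ * ⟪W, w⟫) • Δ)
      - (Da p W + A (q' - q) W + A p w)) :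
    ‖w' - √(1 + ‖W'‖ ^ 2) • u' + A' q' W'‖ ≤
      (1 + (1 + L ^ 2) * d) * ‖w - √(1 + ‖W‖ ^ 2) • u + A q W‖
        + d * (((1 + L ^ 2) ^ 2 + L ^ 2) * α + (1 + L ^ 2) ^ 2 * α') * √(1 + ‖W‖ ^ 2)
        + L ^ 2 * d * α' * √(1 + ‖W'‖ ^ 2) := by
  have hL : 0 ≤ L := (norm_nonneg A).trans hA
  have hd0 : 0 ≤ d := (norm_nonneg _).trans hd
  have ha0 : 0 ≤ α := (norm_nonneg _).trans hu
  have ha0' : 0 ≤ α' := (norm_nonneg _).trans hu'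
  have hstep : ‖W' - W‖ ≤ (1 + L ^ 2) * d * √(1 + ‖W‖ ^ 2) := by
    rw [hW']; exact (rec_step_le hA hp).trans (by gcongr)
  have hb := abs_sq1_sub W W'
  have hn := norm_le_sq1 W
  have hpos := sq1_pos W
  have hp' : ‖p‖ ≤ L * d := hp.trans (by gcongr)
  set β := √(1 + ‖W‖ ^ 2) with hβ
  set β' := √(1 + ‖W'‖ ^ 2) with hβ'
  set S := w - β • u + A q W with hS
  have hW'n : ‖W'‖ ≤ β' := norm_le_sq1 W'
  have hw : ‖w‖ ≤ ‖S‖ + (1 + L ^ 2) * α * β := by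
    have e : w = S + β • u - A q W := by rw [hS]; abel
    have h1 : ‖A q W‖ ≤ L * (L * α) * β := (A.le_opNorm₂ q W).trans (by gcongr)
    have h2 : ‖β • u‖ ≤ β * α := by
      rw [norm_smul, Real.norm_of_nonneg hpos.le]; gcongr
    have h3 : ‖S + β • u - A q W‖ ≤ ‖S‖ + ‖β • u‖ + ‖A q W‖ :=
      (norm_sub_le _ _).trans (by gcongr; exact norm_add_le _ _)
    rw [← e] at h3
    nlinarith
  have e : w' - β' • u' + A' q' W' = S + (β - β') • u' + (β⁻¹ * ⟪W, w⟫) • Δ - Da p W - A p w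
      + (A' - A) q' W' + A q' (W' - W) := by
    rw [hw', hS]
    simp only [map_sub, sub_apply, sub_smul, smul_sub]
    abel
  have t1 : ‖(β - β') • u'‖ ≤ (1 + L ^ 2) * d * β * α' := by
    rw [norm_smul, Real.norm_eq_abs]
    exact mul_le_mul (hb.trans hstep) hu' (norm_nonneg _) (by positivity)
  have t2 : ‖(β⁻¹ * ⟪W, w⟫) • Δ‖ ≤ ‖w‖ * d := by
    rw [norm_smul, Real.norm_eq_abs, abs_mul, abs_of_pos (inv_pos.2 hpos)]
    refine mul_le_mul ?_ hd (norm_nonneg _) (norm_nonneg _)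
    rw [inv_mul_le_iff₀ hpos]
    exact (abs_real_inner_le_norm _ _).trans (by gcongr)
  have t3 : ‖Da p W‖ ≤ L * α * (L * d) * β := (Da.le_opNorm₂ p W).trans (by gcongr)
  have t4 : ‖A p w‖ ≤ L * (L * d) * ‖w‖ := (A.le_opNorm₂ p w).trans (by gcongr)
  have t5 : ‖(A' - A) q' W'‖ ≤ L * d * (L * α') * β' :=
    ((A' - A).le_opNorm₂ q' W').trans (by gcongr)
  have t6 : ‖A q' (W' - W)‖ ≤ L * (L * α') * ((1 + L ^ 2) * d * β) :=
    (A.le_opNorm₂ q' _).trans (by gcongr)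
  have tot : ‖S + (β - β') • u' + (β⁻¹ * ⟪W, w⟫) • Δ - Da p W - A p w
      + (A' - A) q' W' + A q' (W' - W)‖ ≤ ‖S‖ + ‖(β - β') • u'‖ + ‖(β⁻¹ * ⟪W, w⟫) • Δ‖
      + ‖Da p W‖ + ‖A p w‖ + ‖(A' - A) q' W'‖ + ‖A q' (W' - W)‖ := by
    refine (norm_add_le _ _).trans (add_le_add_left ?_ _)
    refine (norm_add_le _ _).trans (add_le_add_left ?_ _)
    refine (norm_sub_le _ _).trans (add_le_add_left ?_ _)
    refine (norm_sub_le _ _).trans (add_le_add_left ?_ _)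
    refine (norm_add_le _ _).trans (add_le_add_left ?_ _)
    exact norm_add_le _ _
  rw [e]
  have t24 : ‖w‖ * d + L * (L * d) * ‖w‖ ≤
      (1 + L ^ 2) * d * (‖S‖ + (1 + L ^ 2) * α * β) := by
    have : ‖w‖ * d + L * (L * d) * ‖w‖ = (1 + L ^ 2) * d * ‖w‖ := by ring
    rw [this]; gcongr
  linarith

/-- The quotient form of `rec_alg`. -/
theorem rec_quot {c d α γ σ s s' β β' : ℝ} (hc : 0 ≤ c) (hd : 0 ≤ d) (hα : 0 ≤ α) (hσ : 0 ≤ σ)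
    (hβ : 0 < β) (hs : c * d ≤ 1 / 2) (hb : β - β' ≤ c * d * β) (h0 : s ≤ σ * β)
    (h : s' ≤ (1 + c * d) * s + d * α * β + γ * β') :
    s' ≤ ((1 + 4 * c * d) * σ + 2 * d * α + γ) * β' := by
  have hcd : 0 ≤ c * d := by positivity
  have h1 : s' ≤ ((1 + c * d) * σ + d * α) * β + γ * β' := by
    have : (1 + c * d) * s ≤ (1 + c * d) * (σ * β) := by gcongr
    linarith
  have hb1 : (1 - c * d) * β ≤ β' := by linarith
  have h2 : (1 + c * d) * σ + d * α ≤ ((1 + 4 * c * d) * σ + 2 * d * α) * (1 - c * d) := by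
    have k1 : 1 + c * d ≤ (1 + 4 * c * d) * (1 - c * d) := by nlinarith
    have k2 : d ≤ 2 * d * (1 - c * d) := by nlinarith
    nlinarith [mul_le_mul_of_nonneg_right k1 hσ, mul_le_mul_of_nonneg_right k2 hα]
  have h3 : 0 ≤ (1 + 4 * c * d) * σ + 2 * d * α := by positivity
  have h4 : ((1 + c * d) * σ + d * α) * β ≤ ((1 + 4 * c * d) * σ + 2 * d * α) * β' :=
    calc ((1 + c * d) * σ + d * α) * β
        ≤ ((1 + 4 * c * d) * σ + 2 * d * α) * (1 - c * d) * β := by gcongr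
      _ = ((1 + 4 * c * d) * σ + 2 * d * α) * ((1 - c * d) * β) := by ring
      _ ≤ _ := by gcongr
  linarith

omit [NormedAddCommGroup X] [NormedSpace ℝ X] in
/-- Size of one step, for maps `a`, `b` with bounded data. -/
theorem rec_size {a : F → H →L[ℝ] F →L[ℝ] F} {b : F → H} {L : ℝ} (hb : Differentiable ℝ b)
    (hL : ∀ q, ‖a q‖ ≤ L ∧ (∀ v, ‖fderiv ℝ a q v‖ ≤ L * ‖v‖) ∧ ‖fderiv ℝ b q‖ ≤ L) (U U' W : F) :
    ‖(W + √(1 + ‖W‖ ^ 2) • (U' - U) - a U (b U' - b U) W) - W‖ ≤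
      (1 + L ^ 2) * ‖U' - U‖ * √(1 + ‖W‖ ^ 2) :=
  rec_step_le (hL U).1 (convex_univ.norm_image_sub_le_of_norm_fderiv_le (𝕜 := ℝ)
    (fun q _ => hb q) (fun q _ => (hL q).2.2) (Set.mem_univ U) (Set.mem_univ U'))

/-- Growth of the defect in one step, in the direction `v`. -/
theorem rec_defect {a : F → H →L[ℝ] F →L[ℝ] F} {b : F → H} {L : ℝ} (ha : Differentiable ℝ a)
    (hb : Differentiable ℝ b)
    (hL : ∀ q, ‖a q‖ ≤ L ∧ (∀ v, ‖fderiv ℝ a q v‖ ≤ L * ‖v‖) ∧ ‖fderiv ℝ b q‖ ≤ L)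
    {U U' W W' : X → F} {x : X} (hU : DifferentiableAt ℝ U x) (hU' : DifferentiableAt ℝ U' x)
    (hW : DifferentiableAt ℝ W x)
    (hW' : W' = fun y =>
      W y + √(1 + ‖W y‖ ^ 2) • (U' y - U y) - a (U y) (b (U' y) - b (U y)) (W y))
    (v : X) {d α α' σ : ℝ} (hd : ‖U' x - U x‖ ≤ d) (hs : (1 + L ^ 2) * d ≤ 1 / 2)
    (hα : ‖fderiv ℝ U x v‖ ≤ α) (hα' : ‖fderiv ℝ U' x v‖ ≤ α')
    (hσ : ‖fderiv ℝ W x v - √(1 + ‖W x‖ ^ 2) • fderiv ℝ U x v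
      + a (U x) (fderiv ℝ b (U x) (fderiv ℝ U x v)) (W x)‖ ≤ σ * √(1 + ‖W x‖ ^ 2)) :
    ‖fderiv ℝ W' x v - √(1 + ‖W' x‖ ^ 2) • fderiv ℝ U' x v
      + a (U' x) (fderiv ℝ b (U' x) (fderiv ℝ U' x v)) (W' x)‖ ≤
      ((1 + 4 * (1 + L ^ 2) * d) * σ
        + 2 * d * (((1 + L ^ 2) ^ 2 + L ^ 2) * α + (1 + L ^ 2) ^ 2 * α') + L ^ 2 * d * α')
        * √(1 + ‖W' x‖ ^ 2) := by
  have hL0 : 0 ≤ L := (norm_nonneg (a (U x))).trans (hL _).1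
  have hd0 : 0 ≤ d := (norm_nonneg _).trans hd
  have ha0 : 0 ≤ α := (norm_nonneg _).trans hα
  have ha0' : 0 ≤ α' := (norm_nonneg _).trans hα'
  have hpos := sq1_pos (W x)
  have hσ0 : 0 ≤ σ := nonneg_of_mul_nonneg_left ((norm_nonneg _).trans hσ) hpos
  have hp : ‖b (U' x) - b (U x)‖ ≤ L * ‖U' x - U x‖ :=
    convex_univ.norm_image_sub_le_of_norm_fderiv_le (𝕜 := ℝ)
      (fun q _ => hb q) (fun q _ => (hL q).2.2) (Set.mem_univ _) (Set.mem_univ _)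
  have hAA : ‖a (U' x) - a (U x)‖ ≤ L * d :=
    (Convex.norm_image_sub_le_of_norm_fderiv_le (𝕜 := ℝ) (G := H →L[ℝ] F →L[ℝ] F)
      (fun q _ => ha q)
      (fun q _ => ContinuousLinearMap.opNorm_le_bound _ hL0 (hL q).2.1) convex_univ (Set.mem_univ _)
      (Set.mem_univ _)).trans (by gcongr)
  have hDa : ‖fderiv ℝ a (U x) (fderiv ℝ U x v)‖ ≤ L * α :=
    ((hL _).2.1 _).trans (mul_le_mul_of_nonneg_left hα hL0)
  have hq : ‖fderiv ℝ b (U x) (fderiv ℝ U x v)‖ ≤ L * α :=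
    ((fderiv ℝ b (U x)).le_opNorm _).trans (mul_le_mul (hL _).2.2 hα (norm_nonneg _) hL0)
  have hq' : ‖fderiv ℝ b (U' x) (fderiv ℝ U' x v)‖ ≤ L * α' :=
    ((fderiv ℝ b (U' x)).le_opNorm _).trans (mul_le_mul (hL _).2.2 hα' (norm_nonneg _) hL0)
  have e1 : W' x = W x + √(1 + ‖W x‖ ^ 2) • (U' x - U x)
      - a (U x) (b (U' x) - b (U x)) (W x) := by rw [hW']
  have e2 := rec_fderiv (ha (U x)) (hb (U x)) (hb (U' x)) hU hU' hW v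
  rw [← hW'] at e2
  have key := rec_alg (hL (U x)).1 hAA hDa hp hq hq' hα hα' hd e1 e2
  refine rec_quot (by positivity) hd0 (by positivity) hσ0 hpos hs ?_ hσ key
  have h1 := (abs_le.1 (abs_sq1_sub (W x) (W' x))).2
  have h2 := rec_size hb hL (U x) (U' x) (W x)
  rw [← e1] at h2
  exact h1.trans (h2.trans (by gcongr))

end Pool.Agent.Lib.MP_a785f2_an.NH
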