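import Pool.Agent.Lib.MP_a785f2_an.NH.Defs
import Pool.Agent.Lib.MP_a785f2_an.NH.RecA

open MeasureTheory Metric Set Filter Topology
open scoped ContDiff RealInnerProductSpace ENNReal Convolution

namespace Pool.Agent.Lib.MP_a785f2_an.NH

open HS

variable {n m : ℕ} {H : Type} [NormedAddCommGroup H] [NormedSpace ℝ H]
  {a : V m → H →L[ℝ] V m →L[ℝ] V m} {b : V m → H} {L : ℝ}
  {Ω : Set (D n)} {u : D n → V m} {G : D n → D n →L[ℝ] V m}

theorem nxt_smooth (S : Str a b L) {U U' W : D n → V m} (hU : ContDiff ℝ 1 U)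
    (hU' : ContDiff ℝ 1 U') (hW : ContDiff ℝ 1 W) : ContDiff ℝ 1 (nxt a b U U' W) := by
  exact rec_contDiff S.ca S.cb hU hU' hW

theorem dev_smooth (S : Str a b L) {U : ℕ → D n → V m} (hU : ∀ j, ContDiff ℝ 1 (U j)) (c : V m)
    (j : ℕ) : ContDiff ℝ 1 (dev a b U c j) := by
  induction j with
  | zero => exact (hU 0).sub contDiff_const
  | succ j ih => exact nxt_smooth S (hU j) (hU (j + 1)) ih

theorem nxt_norm (S : Str a b L) (U U' W : D n → V m) (x : D n) {d : ℝ}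
    (hd : ‖U' x - U x‖ ≤ d) :
    1 + ‖nxt a b U U' W x‖ ≤ (1 + ‖W x‖) * (1 + 2 * L ^ 2 * d) := by
  have h1 : ‖nxt a b U U' W x - W x‖ ≤ (1 + L ^ 2) * ‖U' x - U x‖ * br (W x) :=
    rec_step_le (S.ba (U x)) (S.lb (U' x) (U x))
  have h2 : ‖nxt a b U U' W x‖ ≤ ‖W x‖ + ‖nxt a b U U' W x - W x‖ := by
    have := norm_add_le (W x) (nxt a b U U' W x - W x); simpa using this
  have h3 : 1 + L ^ 2 ≤ 2 * L ^ 2 := by nlinarith [S.L1]
  have hd0 : 0 ≤ d := (norm_nonneg _).trans hd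
  have h4 : (1 + L ^ 2) * ‖U' x - U x‖ * br (W x) ≤ 2 * L ^ 2 * d * (1 + ‖W x‖) :=
    mul_le_mul (mul_le_mul h3 hd (norm_nonneg _) (by positivity)) (br_le _) (br_pos _).le
      (by positivity)
  linarith

theorem om_norm (S : Str a b L) (q : V m) (A : D n →L[ℝ] V m) (w : V m) :
    ‖om a b q A w‖ ≤ L ^ 2 * ‖A‖ * ‖w‖ := by
  have hL : 0 ≤ L := zero_le_one.trans S.L1
  refine ContinuousLinearMap.opNorm_le_bound _ (by positivity) fun v => ?_
  rw [om_apply]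
  have h1 : ‖fderiv ℝ b q (A v)‖ ≤ L * (‖A‖ * ‖v‖) :=
    ((fderiv ℝ b q).le_opNorm _).trans
      (mul_le_mul (S.db q) (A.le_opNorm v) (norm_nonneg _) hL)
  calc ‖a q (fderiv ℝ b q (A v)) w‖ ≤ ‖a q‖ * ‖fderiv ℝ b q (A v)‖ * ‖w‖ := (a q).le_opNorm₂ _ _
    _ ≤ L * (L * (‖A‖ * ‖v‖)) * ‖w‖ :=
      mul_le_mul_of_nonneg_right (mul_le_mul (S.ba q) h1 (norm_nonneg _) hL) (norm_nonneg _)
    _ = _ := by ring

theorem sg_zero (S : Str a b L) {U : D n → V m} (c : V m) (x : D n) :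
    sg a b U (fun x => U x - c) x ≤ 2 * L ^ 2 * ‖U x - c‖ * ‖fderiv ℝ U x‖ := by
  have h0 : fderiv ℝ (fun x => U x - c) x = fderiv ℝ U x := fderiv_sub_const c
  have h1 := om_norm S (U x) (fderiv ℝ U x) (U x - c)
  have h2 := one_le_br (U x - c)
  have h3 := br_le (U x - c)
  have hL : 1 ≤ L ^ 2 := one_le_pow₀ S.L1
  have h4 : ‖fderiv ℝ U x - br (U x - c) • fderiv ℝ U x‖ ≤ ‖U x - c‖ * ‖fderiv ℝ U x‖ := by
    have e : fderiv ℝ U x - br (U x - c) • fderiv ℝ U x = (1 - br (U x - c)) • fderiv ℝ U x := by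
      ext1 v; simp [sub_smul]
    rw [e, norm_smul, Real.norm_eq_abs]
    exact mul_le_mul_of_nonneg_right (abs_le.2 ⟨by linarith, by linarith [norm_nonneg (U x - c)]⟩)
      (norm_nonneg _)
  have h5 : ‖dfc a b U (fun x => U x - c) x‖ ≤ 2 * L ^ 2 * ‖U x - c‖ * ‖fderiv ℝ U x‖ := by
    rw [dfc, h0]
    refine (norm_add_le _ _).trans ?_
    have k : 0 ≤ ‖U x - c‖ * ‖fderiv ℝ U x‖ := by positivity
    nlinarith [mul_le_mul_of_nonneg_right hL k]
  exact (div_le_self (norm_nonneg _) h2).trans h5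

theorem sg_step (S : Str a b L) {U U' W : D n → V m} (hU : ContDiff ℝ 1 U)
    (hU' : ContDiff ℝ 1 U') (hW : ContDiff ℝ 1 W) (x : D n) {d A : ℝ}
    (hd : ‖U' x - U x‖ ≤ d) (hs : 4 * L ^ 2 * d ≤ 1) (hA : ‖fderiv ℝ U x‖ ≤ A)
    (hA' : ‖fderiv ℝ U' x‖ ≤ A) :
    sg a b U' (nxt a b U U' W) x ≤ (1 + 20 * L ^ 4 * d) * sg a b U W x + 20 * L ^ 4 * d * A := by
  have hd0 : 0 ≤ d := (norm_nonneg _).trans hd
  have hA0 : 0 ≤ A := (norm_nonneg _).trans hA
  have hL : 1 ≤ L ^ 2 := one_le_pow₀ S.L1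
  have hσ := sg_nonneg a b U W x
  have hp := br_pos (nxt a b U U' W x)
  rw [sg, div_le_iff₀ hp]
  refine ContinuousLinearMap.opNorm_le_bound _ (by positivity) fun v => ?_
  have hv := norm_nonneg v
  have key := rec_defect (W' := nxt a b U U' W) (S.ca.differentiable one_ne_zero)
    (S.cb.differentiable one_ne_zero) (fun q => ⟨S.ba q, S.da q, S.db q⟩)
    (hU.differentiable one_ne_zero x) (hU'.differentiable one_ne_zero x)
    (hW.differentiable one_ne_zero x) rfl v (α := A * ‖v‖) (α' := A * ‖v‖)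
    (σ := sg a b U W x * ‖v‖) hd (by nlinarith)
    (((fderiv ℝ U x).le_opNorm v).trans (mul_le_mul_of_nonneg_right hA hv))
    (((fderiv ℝ U' x).le_opNorm v).trans (mul_le_mul_of_nonneg_right hA' hv))
    (((dfc a b U W x).le_opNorm v).trans (le_of_eq (by
      have := (br_pos (W x)).ne'
      change _ = ‖dfc a b U W x‖ / br (W x) * ‖v‖ * br (W x)
      field_simp)))
  refine le_trans key ?_
  change _ * br (nxt a b U U' W x) ≤ _
  rw [mul_right_comm _ (br (nxt a b U U' W x))]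
  refine mul_le_mul_of_nonneg_right ?_ hp.le
  have l4 : L ^ 2 ≤ L ^ 4 := by nlinarith
  have c1 : 4 * (1 + L ^ 2) ≤ 20 * L ^ 4 := by linarith
  have c2 : 2 * (((1 + L ^ 2) ^ 2 + L ^ 2) + (1 + L ^ 2) ^ 2) + L ^ 2 ≤ 20 * L ^ 4 := by nlinarith
  have k1 : 0 ≤ d * (sg a b U W x * ‖v‖) := by positivity
  have k2 : 0 ≤ d * (A * ‖v‖) := by positivity
  nlinarith [mul_le_mul_of_nonneg_right c1 k1, mul_le_mul_of_nonneg_right c2 k2]

theorem sg_cont (S : Str a b L) {U W : D n → V m} (hU : ContDiff ℝ 1 U) (hW : ContDiff ℝ 1 W) :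
    Continuous (sg a b U W) := by
  have cU := hU.continuous
  have cW := hW.continuous
  have dU := hU.continuous_fderiv one_ne_zero
  have dW := hW.continuous_fderiv one_ne_zero
  have cb := (S.cb.continuous_fderiv one_ne_zero).comp cU
  have ca := S.ca.continuous.comp cU
  have c1 : Continuous fun x => (a (U x)).flip (W x) :=
    ((ContinuousLinearMap.flipₗᵢ ℝ H (V m) (V m)).continuous.comp ca).clm_apply cW
  have c2 : Continuous fun x => om a b (U x) (fderiv ℝ U x) (W x) :=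
    c1.clm_comp (cb.clm_comp dU)
  have c3 : Continuous (dfc a b U W) :=
    (dW.sub ((continuous_br.comp cW).smul dU)).add c2
  exact c3.norm.div (continuous_br.comp cW) fun x => (br_pos _).ne'

end Pool.Agent.Lib.MP_a785f2_an.NH
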