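import Pool.Agent.Lib.MP_a785f2_an.HS.CaccA

/-! The bounded monotone field `Yf 0 h W = W / √(h² + ‖W‖²)` and the pointwise inequality. -/

open scoped RealInnerProductSpace

namespace Pool.Agent.Lib.MP_a785f2_an.NH

open HS

variable {F : Type*} [NormedAddCommGroup F] [InnerProductSpace ℝ F] {h : ℝ}

theorem psi_eq (h : ℝ) (W : F) : Yf 0 h W = (√(h ^ 2 + ‖W‖ ^ 2))⁻¹ • W := by
  simp only [Yf, sub_zero]

theorem psi_fderiv (hh : 0 < h) (W v : F) : fderiv ℝ (Yf 0 h) W v =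
    (√(h ^ 2 + ‖W‖ ^ 2))⁻¹ • v - (⟪W, v⟫ / √(h ^ 2 + ‖W‖ ^ 2) ^ 3) • W := by
  simpa only [sub_zero] using fderiv_Yf (c := 0) hh W v

theorem psi_norm (hh : 0 < h) (W : F) : ‖Yf 0 h W‖ = ‖W‖ / √(h ^ 2 + ‖W‖ ^ 2) := by
  rw [psi_eq, norm_smul, Real.norm_eq_abs, abs_of_pos (by positivity), inv_mul_eq_div]

/-- commutes with maps that are skew at `W` -/
theorem psi_skew (hh : 0 < h) (W : F) (O : F →L[ℝ] F) (hO : ⟪W, O W⟫ = 0) :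
    fderiv ℝ (Yf 0 h) W (O W) = O (Yf 0 h W) := by
  rw [psi_fderiv hh, hO, zero_div, zero_smul, sub_zero, psi_eq, map_smul]

theorem psi_inner (hh : 0 < h) (W v w : F) : ⟪v, fderiv ℝ (Yf 0 h) W w⟫ =
    ⟪v, w⟫ / √(h ^ 2 + ‖W‖ ^ 2) - ⟪W, v⟫ * ⟪W, w⟫ / √(h ^ 2 + ‖W‖ ^ 2) ^ 3 := by
  rw [psi_fderiv hh, inner_sub_right, inner_smul_right, inner_smul_right, real_inner_comm W v]
  ring

theorem psi_lower (hh : 0 < h) (W v : F) :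
    h ^ 2 / √(h ^ 2 + ‖W‖ ^ 2) ^ 3 * ‖v‖ ^ 2 ≤ ⟪v, fderiv ℝ (Yf 0 h) W v⟫ := by
  simpa only [sub_zero] using inner_fderiv_Yf (c := 0) hh W v

theorem psi_upper (hh : 0 < h) (W v : F) :
    ⟪v, fderiv ℝ (Yf 0 h) W v⟫ ≤ ‖v‖ ^ 2 / √(h ^ 2 + ‖W‖ ^ 2) := by
  rw [psi_inner hh, real_inner_self_eq_norm_sq]
  have : 0 ≤ ⟪W, v⟫ * ⟪W, v⟫ / √(h ^ 2 + ‖W‖ ^ 2) ^ 3 :=
    div_nonneg (mul_self_nonneg _) (by positivity)
  linarith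

/-- Young for the positive form `Dψ(W)` -/
theorem psi_young (hh : 0 < h) (W v w : F) :
    (h ^ 2 / √(h ^ 2 + ‖W‖ ^ 2) ^ 3 * ‖v‖ ^ 2 - ‖w‖ ^ 2 / √(h ^ 2 + ‖W‖ ^ 2)) / 2 ≤
      ⟪v, fderiv ℝ (Yf 0 h) W (v + w)⟫ := by
  have h1 := psi_lower hh W v
  have h2 := psi_upper hh W w
  have h3 : 0 ≤ ⟪v + w, fderiv ℝ (Yf 0 h) W (v + w)⟫ :=
    le_trans (by positivity) (psi_lower hh W (v + w))
  have h4 : ⟪w, fderiv ℝ (Yf 0 h) W v⟫ = ⟪v, fderiv ℝ (Yf 0 h) W w⟫ := by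
    rw [psi_inner hh, psi_inner hh, real_inner_comm v w, mul_comm]
  rw [map_add, inner_add_left, inner_add_right, inner_add_right] at h3
  rw [map_add, inner_add_right]
  linarith

theorem young3 {a b : ℝ} (ha : 0 ≤ a) (hb : 0 ≤ b) : 3 * (a * b ^ 2) ≤ a ^ 3 + 2 * b ^ 3 := by
  nlinarith [mul_nonneg (sq_nonneg (a - b)) (by positivity : 0 ≤ a + 2 * b)]

/-- the real inequality: `s² = h² + r²`, `1 ≤ k ≤ 1 + r` -/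
theorem star_real {h s r k g σ P χ T : ℝ} (hh : 0 < h) (hs : h ≤ s) (hr : 0 ≤ r) (hrs : r ≤ s)
    (k1 : 1 ≤ k) (k2 : k ≤ 1 + r) (hg : 0 ≤ g) (hσ : 0 ≤ σ) (hP : 0 ≤ P) (χ0 : 0 ≤ χ) (χ1 : χ ≤ 1)
    (hT : χ ^ 3 * (k * ((h ^ 2 / s ^ 3 * g ^ 2 - σ ^ 2 / s) / 2)) - 3 * χ ^ 2 * (P * g * (r / s))
      ≤ T) :
    χ ^ 3 * g ^ 3 * (h / s) ^ 3 / 4 ≤
      h * (g * T) + h * (g * σ ^ 2) + σ ^ 3 + 256 * (P ^ 3 * r ^ 3 * (s / h) ^ 3) := by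
  have s0 : 0 < s := hh.trans_le hs
  set x := χ * g * (h / s) with hx
  have x0 : 0 ≤ x := by positivity
  have c3 : χ ^ 3 ≤ χ := by nlinarith [mul_nonneg χ0 χ0, mul_le_one₀ χ1 χ0 χ1]
  have e1 : χ ^ 3 * g ^ 3 * (h / s) ^ 3 = x ^ 3 := by rw [hx]; ring
  have h1 := mul_le_mul_of_nonneg_left (mul_le_mul_of_nonneg_left hT hg) hh.le
  have e2 : h * (g * (χ ^ 3 * (k * ((h ^ 2 / s ^ 3 * g ^ 2 - σ ^ 2 / s) / 2)) -
      3 * χ ^ 2 * (P * g * (r / s)))) = k * x ^ 3 / 2 - χ ^ 3 * (k / s) * (h * (g * σ ^ 2)) / 2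
        - 3 * ((P * r * (s / h)) * x ^ 2) := by
    rw [hx]; field_simp
  have h2 : x ^ 3 ≤ k * x ^ 3 := le_mul_of_one_le_left (by positivity) k1
  have h3 : k / s ≤ 1 / s + 1 := by
    rw [div_add_one s0.ne']; exact div_le_div_of_nonneg_right (by linarith) s0.le
  have h4 : χ ^ 3 * (k / s) * (h * (g * σ ^ 2)) ≤ x * σ ^ 2 + h * (g * σ ^ 2) := by
    calc _ ≤ χ * (1 / s + 1) * (h * (g * σ ^ 2)) := by gcongr
      _ = x * σ ^ 2 + χ * (h * (g * σ ^ 2)) := by rw [hx]; ring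
      _ ≤ _ := by
        have : χ * (h * (g * σ ^ 2)) ≤ 1 * (h * (g * σ ^ 2)) := by gcongr
        linarith
  have h5 := young3 (a := x / 2) (b := σ) (by positivity) hσ
  have h6 := young3 (a := 25 / 4 * (P * r * (s / h))) (b := 2 / 5 * x) (by positivity) (by positivity)
  have h7 : 0 ≤ h * (g * σ ^ 2) := by positivity
  have h8 : 0 ≤ σ ^ 3 := by positivity
  have h9 : 0 ≤ x ^ 3 := by positivity
  have e3 : P ^ 3 * r ^ 3 * (s / h) ^ 3 = (P * r * (s / h)) ^ 3 := by ring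
  have h10 : 0 ≤ (P * r * (s / h)) ^ 3 := by positivity
  rw [e1, e3]
  rw [e2] at h1
  generalize P * r * (s / h) = y at *
  nlinarith

theorem cs_sum {ι : Type*} [Fintype ι] (p a : ι → ℝ) {P g : ℝ} (hP : 0 ≤ P) (hg : 0 ≤ g)
    (h1 : ∑ α, p α ^ 2 ≤ P ^ 2) (h2 : ∑ α, a α ^ 2 ≤ g ^ 2) : ∑ α, p α * a α ≤ P * g := by
  refine le_trans (le_abs_self _) (abs_le_of_sq_le_sq ?_ (mul_nonneg hP hg))
  calc _ ≤ (∑ α, p α ^ 2) * ∑ α, a α ^ 2 := Finset.sum_mul_sq_le_sq_mul_sq _ _ _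
    _ ≤ P ^ 2 * g ^ 2 := mul_le_mul h1 h2 (Finset.sum_nonneg fun _ _ => sq_nonneg _) (sq_nonneg _)
    _ = _ := by ring

/-- the pointwise inequality behind the Caccioppoli estimate; `G α`, `S α` are the columns of the
gradient and of the normalised defect, `p α` the derivatives of the cut-off -/
theorem star_pt {ι : Type*} [Fintype ι] (hh : 0 < h) (W : F) (G S : ι → F) (p : ι → ℝ)
    {g σ P χ : ℝ} (hg : 0 ≤ g) (hσ : 0 ≤ σ) (hP : 0 ≤ P) (χ0 : 0 ≤ χ) (χ1 : χ ≤ 1)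
    (eg : g ^ 2 = ∑ α, ‖G α‖ ^ 2) (eσ : ∑ α, ‖S α‖ ^ 2 ≤ σ ^ 2) (eP : ∑ α, p α ^ 2 ≤ P ^ 2) :
    χ ^ 3 * g ^ 3 * (h / √(h ^ 2 + ‖W‖ ^ 2)) ^ 3 / 4 ≤
      h * (g * ∑ α, ⟪G α, (χ ^ 3 * √(1 + ‖W‖ ^ 2)) • fderiv ℝ (Yf 0 h) W (G α + S α) +
        (3 * χ ^ 2 * p α) • Yf 0 h W⟫) + h * (g * σ ^ 2) + σ ^ 3 +
      256 * (P ^ 3 * ‖W‖ ^ 3 * (√(h ^ 2 + ‖W‖ ^ 2) / h) ^ 3) := by
  have r0 := norm_nonneg W
  have hs : h ≤ √(h ^ 2 + ‖W‖ ^ 2) := Real.le_sqrt_of_sq_le (by nlinarith)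
  have hrs : ‖W‖ ≤ √(h ^ 2 + ‖W‖ ^ 2) := Real.le_sqrt_of_sq_le (by nlinarith)
  have k1 : 1 ≤ √(1 + ‖W‖ ^ 2) := Real.le_sqrt_of_sq_le (by nlinarith)
  have k2 : √(1 + ‖W‖ ^ 2) ≤ 1 + ‖W‖ := Real.sqrt_le_iff.2 ⟨by linarith, by nlinarith⟩
  refine star_real hh hs r0 hrs k1 k2 hg hσ hP χ0 χ1 ?_
  have hn := psi_norm hh W
  have hy := psi_young hh W
  set s := √(h ^ 2 + ‖W‖ ^ 2)
  set k := √(1 + ‖W‖ ^ 2)
  have s0 : 0 < s := hh.trans_le hs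
  have h1 : ∀ α, χ ^ 3 * k * ((h ^ 2 / s ^ 3 * ‖G α‖ ^ 2 - ‖S α‖ ^ 2 / s) / 2) -
      3 * χ ^ 2 * (‖W‖ / s) * (|p α| * ‖G α‖) ≤
      ⟪G α, (χ ^ 3 * k) • fderiv ℝ (Yf 0 h) W (G α + S α) + (3 * χ ^ 2 * p α) • Yf 0 h W⟫ := by
    intro α
    rw [inner_add_right, inner_smul_right, inner_smul_right]
    have h2 := mul_le_mul_of_nonneg_left (hy (G α) (S α)) (by positivity : 0 ≤ χ ^ 3 * k)
    have h3 : |p α * ⟪G α, Yf 0 h W⟫| ≤ |p α| * (‖G α‖ * (‖W‖ / s)) := by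
      rw [abs_mul, ← hn]
      exact mul_le_mul_of_nonneg_left (abs_real_inner_le_norm _ _) (abs_nonneg _)
    have h4 := mul_le_mul_of_nonneg_left (neg_le_of_abs_le h3) (by positivity : 0 ≤ 3 * χ ^ 2)
    linarith
  refine le_trans ?_ (Finset.sum_le_sum fun α _ => h1 α)
  have h5 := cs_sum (fun α => |p α|) (fun α => ‖G α‖) hP hg (by simpa only [sq_abs] using eP) eg.ge
  rw [Finset.sum_sub_distrib, ← Finset.mul_sum, ← Finset.mul_sum, ← Finset.sum_div,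
    Finset.sum_sub_distrib, ← Finset.mul_sum, ← Finset.sum_div, ← eg]
  have h6 := mul_le_mul_of_nonneg_left h5 (by positivity : 0 ≤ 3 * χ ^ 2 * (‖W‖ / s))
  have h7 := mul_le_mul_of_nonneg_left (div_le_div_of_nonneg_right eσ s0.le)
    (by positivity : 0 ≤ χ ^ 3 * k)
  linarith

end Pool.Agent.Lib.MP_a785f2_an.NH
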