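import Pool.Agent.Lib.MP_a785f2_an.NH.Defs
import Pool.Agent.Lib.MP_a785f2_an.HS.Moll
import Pool.Agent.Lib.MP_a785f2_an.NH.TestA

open MeasureTheory Metric Set Filter Topology
open scoped ContDiff RealInnerProductSpace ENNReal Convolution

namespace Pool.Agent.Lib.MP_a785f2_an.NH

open HS

variable {n m : ℕ} {H : Type} [NormedAddCommGroup H] [NormedSpace ℝ H]
  {a : V m → H →L[ℝ] V m →L[ℝ] V m} {b : V m → H} {L : ℝ}
  {Ω : Set (D n)} {u : D n → V m} {G : D n → D n →L[ℝ] V m}

theorem test_pr_add (A B C : D n →L[ℝ] V m) : pr A (B + C) = pr A B + pr A C := by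
  simp only [pr, col, _root_.add_apply, inner_add_right, Finset.sum_add_distrib,
    mul_add]

theorem test_pr_zero (A : D n →L[ℝ] V m) : pr A 0 = 0 := by
  simp [pr, col]

theorem test_pow_le (hn : 2 ≤ n) {t : ℝ} (ht : 0 ≤ t) : t ^ (n - 1) ≤ 1 + t ^ n := by
  rcases le_total t 1 with h | h
  · exact (pow_le_one₀ ht h).trans (le_add_of_nonneg_right (pow_nonneg ht _))
  · exact (pow_le_pow_right₀ h (by omega)).trans (le_add_of_nonneg_left zero_le_one)

/-- The power `n - 1` of the Frobenius norm is integrable on compact sets. -/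
theorem test_fro_int (hn : 2 ≤ n) (mG : StronglyMeasurable G) (lG : MemLp G n volume)
    {K : Set (D n)} (hK : IsCompact K) : IntegrableOn (fun x => fro (G x) ^ (n - 1)) K := by
  have h1 : Integrable (fun y => ‖G y‖ ^ n) volume := lG.integrable_norm_pow (by omega)
  have h2 : IntegrableOn (fun x => (n : ℝ) ^ (n - 1) * (1 + ‖G x‖ ^ n)) K :=
    ((integrableOn_const hK.measure_lt_top.ne).add h1.integrableOn).const_mul _
  refine h2.mono' ((continuous_fro.comp_stronglyMeasurable mG).pow _).aestronglyMeasurable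
    (ae_of_all _ fun x => ?_)
  rw [Real.norm_of_nonneg (pow_nonneg (fro_nonneg _) _)]
  calc fro (G x) ^ (n - 1) ≤ (n * ‖G x‖) ^ (n - 1) :=
        pow_le_pow_left₀ (fro_nonneg _) (fro_le_norm _) _
    _ = (n : ℝ) ^ (n - 1) * ‖G x‖ ^ (n - 1) := mul_pow _ _ _
    _ ≤ _ := mul_le_mul_of_nonneg_left (test_pow_le hn (norm_nonneg _)) (by positivity)

/-- The dominating function for the pairing with a bounded field supported in `K`. -/
theorem test_pr_le (hn : 2 ≤ n) {B : D n → D n →L[ℝ] V m} {K : Set (D n)} {C : ℝ}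
    (hB : ∀ x, ‖B x‖ ≤ C) (h0 : ∀ x, x ∉ K → B x = 0) (x : D n) :
    ‖pr (G x) (B x)‖ ≤ K.indicator (fun x => n * (fro (G x) ^ (n - 1) * C)) x := by
  by_cases hx : x ∈ K
  · rw [indicator_of_mem hx, Real.norm_eq_abs]
    refine (abs_pr_le hn _ _).trans (mul_le_mul_of_nonneg_left ?_ (Nat.cast_nonneg _))
    exact mul_le_mul_of_nonneg_left (hB x) (pow_nonneg (fro_nonneg _) _)
  · rw [indicator_of_notMem hx, h0 x hx, test_pr_zero, norm_zero]

theorem test_dom_int (hn : 2 ≤ n) (mG : StronglyMeasurable G) (lG : MemLp G n volume)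
    {K : Set (D n)} (hK : IsCompact K) (C : ℝ) :
    Integrable (K.indicator fun x => n * (fro (G x) ^ (n - 1) * C)) volume :=
  (integrable_indicator_iff hK.measurableSet).2
    (((test_fro_int hn mG lG hK).mul_const C).const_mul _)

theorem test_pr_meas (mG : StronglyMeasurable G) {B : D n → D n →L[ℝ] V m} (hB : Continuous B) :
    AEStronglyMeasurable (fun x => pr (G x) (B x)) volume :=
  (continuous_pr.comp_stronglyMeasurable (mG.prodMk hB.stronglyMeasurable)).aestronglyMeasurable

/-- The pairing with a continuous field of compact support is integrable. -/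
theorem test_pr_int (hn : 2 ≤ n) (mG : StronglyMeasurable G) (lG : MemLp G n volume)
    {B : D n → D n →L[ℝ] V m} (hB : Continuous B) (hc : HasCompactSupport B) :
    Integrable (fun x => pr (G x) (B x)) volume := by
  obtain ⟨C, hC⟩ := hc.exists_bound_of_continuous hB
  exact (test_dom_int hn mG lG hc C).mono' (test_pr_meas mG hB) (ae_of_all _
    (test_pr_le hn hC fun x hx => image_eq_zero_of_notMem_tsupport hx))

theorem test_inner_le {F φ : D n → V m} {C : ℝ} (hC : ∀ x, ‖φ x‖ ≤ C) (x : D n) :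
    ‖⟪F x, φ x⟫‖ ≤ ‖F x‖ * C :=
  (norm_inner_le_norm _ _).trans (mul_le_mul_of_nonneg_left (hC x) (norm_nonneg _))

theorem test_inner_int {F φ : D n → V m} (lF : Integrable F volume) (hφ : Continuous φ)
    (hc : HasCompactSupport φ) : Integrable (fun x => ⟪F x, φ x⟫) volume := by
  obtain ⟨C, hC⟩ := hc.exists_bound_of_continuous hφ
  exact (lF.norm.mul_const C).mono' (lF.1.inner hφ.aestronglyMeasurable)
    (ae_of_all _ (test_inner_le hC))

theorem Str.skew (T : Str a b L) (q : V m) (p : H) (v w : V m) :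
    ⟪v, a q p w⟫ = -⟪a q p v, w⟫ := by
  have h := T.anti q p (v + w)
  rw [map_add, inner_add_left, inner_add_right, inner_add_right, T.anti, T.anti,
    real_inner_comm v (a q p w)] at h
  linarith

/-- The weak equation holds for test fields of class one. -/
theorem GSol.eq1 (hn : 2 ≤ n) {F : D n → V m} (S : GSol Ω u G F) (φ : D n → V m)
    (h1 : ContDiff ℝ 1 φ) (h2 : HasCompactSupport φ) (h3 : tsupport φ ⊆ Ω) :
    ∫ x, pr (G x) (fderiv ℝ φ x) = ∫ x, ⟪F x, φ x⟫ :=
  S.eq1A hn h1 h2 h3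

theorem GSol.eqn (hn : 2 ≤ n) {F : D n → V m} (S : GSol Ω u G F) (T : Str a b L)
    (hF : ∀ᵐ x, x ∈ Ω → F x = fro (G x) ^ (n - 2) •
      ∑ α, a (u x) (fderiv ℝ b (u x) (col (G x) α)) (col (G x) α)) : Eqn a b Ω u G := by
  intro φ h1 h2 h3
  have i1 := test_pr_int hn S.mG S.lG (h1.continuous_fderiv one_ne_zero) (h2.fderiv ℝ)
  have i2 := test_inner_int S.lF h1.continuous h2
  have e : ∀ᵐ x, pr (G x) (fderiv ℝ φ x + om a b (u x) (G x) (φ x)) =
      pr (G x) (fderiv ℝ φ x) - ⟪F x, φ x⟫ := by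
    filter_upwards [hF] with x hx
    rw [test_pr_add, sub_eq_add_neg]
    congr 1
    by_cases hΩ : x ∈ Ω
    · rw [hx hΩ, real_inner_smul_left, sum_inner, pr, ← mul_neg, ← Finset.sum_neg_distrib]
      congr 1
      exact Finset.sum_congr rfl fun α _ => T.skew _ _ _ _
    · have h0 : φ x = 0 := image_eq_zero_of_notMem_tsupport fun h => hΩ (h3 h)
      have h4 : om a b (u x) (G x) (φ x) = 0 := by
        ext1 v
        rw [om_apply, h0, map_zero, _root_.zero_apply]
      rw [h4, test_pr_zero, h0, inner_zero_right, neg_zero]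
  rw [integral_congr_ae e, integral_sub i1 i2, S.eq1 hn φ h1 h2 h3, sub_self]

end Pool.Agent.Lib.MP_a785f2_an.NH
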