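import Pool.Agent.Lib.MP_a785f2_an.NH.Defs
import Pool.Agent.Lib.MP_a785f2_an.HS.LimT

open MeasureTheory Metric Set Filter Topology
open scoped ContDiff RealInnerProductSpace ENNReal Convolution

namespace Pool.Agent.Lib.MP_a785f2_an.NH

open HS

variable {n m : ℕ} {H : Type} [NormedAddCommGroup H] [NormedSpace ℝ H]
  {a : V m → H →L[ℝ] V m →L[ℝ] V m} {b : V m → H} {L : ℝ}
  {Ω : Set (D n)} {u : D n → V m} {G : D n → D n →L[ℝ] V m}

theorem err_grad (hn : 2 ≤ n) (S : Sob Ω u G) {x0 : D n} {R : ℝ} {U : ℕ → D n → V m}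
    (hU : Apx (closedBall x0 R) u G U) :
    (∀ k, IntegrableOn (fun x => ‖G x‖ ^ (n - 1) * ‖fderiv ℝ (U k) x - G x‖) (closedBall x0 R)) ∧
    Tendsto (fun k => ∫ x in closedBall x0 R, ‖G x‖ ^ (n - 1) * ‖fderiv ℝ (U k) x - G x‖)
      atTop (𝓝 0) := by
  have iG := S.powG (by omega)
  obtain ⟨k, rfl⟩ : ∃ k, n = k + 1 := ⟨n - 1, by omega⟩
  simp only [Nat.add_sub_cancel]
  have dU : ∀ j, Continuous fun x => fderiv ℝ (U j) x := fun j =>
    (hU.sm j).continuous_fderiv (by simp)
  have ms : ∀ j, StronglyMeasurable fun x => ‖G x‖ ^ k * ‖fderiv ℝ (U j) x - G x‖ := fun j =>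
    ((continuous_pow k).comp_stronglyMeasurable S.mG.norm).mul ((dU j).stronglyMeasurable.sub S.mG).norm
  refine ⟨fun j => ?_, ?_⟩
  · have i1 : IntegrableOn (fun x => ‖fderiv ℝ (U j) x‖ ^ (k + 1)) (closedBall x0 R) :=
      ((dU j).norm.pow _).continuousOn.integrableOn_compact (isCompact_closedBall x0 R)
    refine ((iG.integrableOn.const_mul 2).add i1).mono' (ms j).aestronglyMeasurable
      (ae_of_all _ fun x => ?_)
    have h1 := limT_young k (norm_nonneg (G x)) (norm_nonneg (fderiv ℝ (U j) x)) one_pos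
    have h2 : ‖G x‖ ^ k * ‖fderiv ℝ (U j) x - G x‖ ≤
        ‖G x‖ ^ k * (‖fderiv ℝ (U j) x‖ + ‖G x‖) :=
      mul_le_mul_of_nonneg_left (norm_sub_le _ _) (by positivity)
    rw [Real.norm_of_nonneg (by positivity)]
    simp only [inv_one, one_pow, one_mul] at h1
    simp only [Pi.add_apply]
    rw [mul_add, ← pow_succ] at h2
    linarith
  · have h1 := limT_small (μ := volume.restrict (closedBall x0 R)) k
      (g := fun x => ‖G x‖) (fun x => norm_nonneg _) iG.integrableOn hU.lG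
    have h2 := (ENNReal.tendsto_toReal ENNReal.zero_ne_top).comp h1
    rw [ENNReal.toReal_zero] at h2
    refine h2.congr fun j => ?_
    exact (integral_eq_lintegral_of_nonneg_ae (ae_of_all _ fun x => by positivity)
      (ms j).aestronglyMeasurable).symm

theorem err_con_cont (T : Str a b L) : Continuous (con a b) :=
  T.ca.continuous.clm_comp (T.cb.continuous_fderiv one_ne_zero)

theorem err_con_le (T : Str a b L) (q : V m) : ‖con a b q‖ ≤ L * L :=
  ((a q).opNorm_comp_le _).trans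
    (mul_le_mul (T.ba q) (T.db q) (norm_nonneg _) (zero_le_one.trans T.L1))

theorem err_abs {W : Type} [NormedAddCommGroup W] {c : V m → W} {B : ℝ} (cc : Continuous c)
    (cb : ∀ q, ‖c q‖ ≤ B) (hn : 2 ≤ n) (S : Sob Ω u G) {x0 : D n} {R : ℝ}
    {U : ℕ → D n → V m} (hU : Apx (closedBall x0 R) u G U) :
    (∀ k, IntegrableOn (fun x => ‖G x‖ ^ n * ‖c (U k x) - c (u x)‖) (closedBall x0 R)) ∧
    Tendsto (fun k => ∫ x in closedBall x0 R, ‖G x‖ ^ n * ‖c (U k x) - c (u x)‖)
      atTop (𝓝 0) := by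
  have iG := (S.powG (by omega)).mul_const (B + B)
  have ms : ∀ j, StronglyMeasurable fun x => ‖G x‖ ^ n * ‖c (U j x) - c (u x)‖ := fun j =>
    ((continuous_pow n).comp_stronglyMeasurable S.mG.norm).mul
      ((cc.comp (hU.sm j).continuous).stronglyMeasurable.sub
        (cc.comp_stronglyMeasurable S.mu)).norm
  have bd : ∀ j x, ‖‖G x‖ ^ n * ‖c (U j x) - c (u x)‖‖ ≤ ‖G x‖ ^ n * (B + B) := fun j x => by
    rw [Real.norm_of_nonneg (by positivity)]
    exact mul_le_mul_of_nonneg_left ((norm_sub_le _ _).trans (add_le_add (cb _) (cb _)))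
      (by positivity)
  refine ⟨fun j => iG.integrableOn.mono' (ms j).aestronglyMeasurable (ae_of_all _ (bd j)), ?_⟩
  have h1 := tendsto_integral_of_dominated_convergence
    (μ := volume.restrict (closedBall x0 R)) (f := fun _ => (0 : ℝ)) _
    (fun j => (ms j).aestronglyMeasurable) iG.integrableOn (fun j => ae_of_all _ (bd j))
    (hU.ae.mono fun x hx => by
      have h2 := (((cc.tendsto _).comp hx).sub_const (c (u x))).norm.const_mul (‖G x‖ ^ n)
      simpa using h2)
  simpa using h1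

theorem err_con (hn : 2 ≤ n) (T : Str a b L) (S : Sob Ω u G) {x0 : D n} {R : ℝ}
    {U : ℕ → D n → V m} (hU : Apx (closedBall x0 R) u G U) :
    (∀ k, IntegrableOn (fun x => ‖G x‖ ^ n * ‖con a b (U k x) - con a b (u x)‖)
      (closedBall x0 R)) ∧
    Tendsto (fun k => ∫ x in closedBall x0 R, ‖G x‖ ^ n * ‖con a b (U k x) - con a b (u x)‖)
      atTop (𝓝 0) := by
  exact @err_abs n m Ω u G (V m →L[ℝ] V m →L[ℝ] V m) ContinuousLinearMap.toNormedAddCommGroup
    (con a b) (L * L) (err_con_cont T) (err_con_le T) hn S x0 R U hU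

end Pool.Agent.Lib.MP_a785f2_an.NH
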