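import Mathlib

/-! Two lemmas on real sequences indexed by dyadic scales. -/

open Finset

namespace Pool.Agent.Lib.MP_a785f2_an.NH

theorem r1_step {C δ M p d B σ σ' : ℝ} (hC : 0 ≤ C) (hδ : 0 < δ) (hs : 6 * C * δ ≤ 1) (hM : 0 ≤ M)
    (hp : 0 ≤ p) (d0 : 0 ≤ d) (d1 : d ≤ C * δ) (d2 : d ≤ C * p) (B0 : 0 ≤ B) (B1 : B ≤ 2 * M)
    (B2 : p * B ≤ 3 * δ * M) (h : σ ≤ 40 * C * δ ^ 2 * M / (p + δ))
    (h' : σ' ≤ (1 + d) * σ + d * B) : σ' ≤ 40 * C * δ ^ 2 * M / (p / 2 + δ) := by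
  have q : 0 < p + δ := by positivity
  set τ := 40 * C * δ ^ 2 * M / (p + δ) with hτ
  have τ0 : 0 ≤ τ := by positivity
  have e : 40 * C * δ ^ 2 * M = τ * (p + δ) := by rw [hτ]; field_simp
  have a1 : d * (p / 2 + δ) ≤ p / 4 := by
    nlinarith [mul_le_mul_of_nonneg_right d1 hp, mul_le_mul_of_nonneg_right d2 hδ.le,
      mul_le_mul_of_nonneg_right hs hp]
  have a2 : d * (p * B) * p ≤ C * δ * (3 * δ * M) * p := by gcongr
  have a3 : d * B * δ ^ 2 ≤ C * p * (2 * M) * δ ^ 2 := by gcongr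
  have a4 : d * B * (p + δ) * (p + δ) ≤ τ * p / 4 * (p + δ) := by
    have : τ * p / 4 * (p + δ) = 10 * C * δ ^ 2 * M * p := by
      rw [show τ * p / 4 * (p + δ) = τ * (p + δ) * p / 4 by ring, ← e]; ring
    rw [this]
    nlinarith [mul_nonneg (mul_nonneg d0 B0) (sq_nonneg (p - δ))]
  have a5 := le_of_mul_le_mul_right a4 q
  rw [le_div_iff₀ (by positivity), e]
  have a6 : σ' ≤ (1 + d) * τ + d * B := h'.trans (by gcongr)
  nlinarith [mul_le_mul_of_nonneg_right a6 (by positivity : 0 ≤ p / 2 + δ),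
    mul_le_mul_of_nonneg_left a1 τ0, mul_nonneg (mul_nonneg d0 B0) hp]

/-- The defect of the recursion stays below `δ M`. -/
theorem r1 {C δ M s : ℝ} (hC : 0 ≤ C) (hδ : 0 < δ) (hs : 6 * C * δ ≤ 1) (s0 : 0 ≤ s)
    {A d σ : ℕ → ℝ} {J : ℕ} (hA : ∀ j ≤ J, 0 ≤ A j ∧ A j ≤ M ∧ s / 2 ^ j * A j ≤ δ)
    (hd : ∀ j < J, 0 ≤ d j ∧ d j ≤ C * (s / 2 ^ j * A j))
    (h0 : σ 0 ≤ C * δ * A 0)
    (h : ∀ j < J, σ (j + 1) ≤ (1 + d j) * σ j + d j * (A j + A (j + 1))) :
    σ J ≤ 40 * C * δ * M := by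
  have hM : 0 ≤ M := (hA 0 J.zero_le).1.trans (hA 0 J.zero_le).2.1
  have key : ∀ j ≤ J, σ j ≤ 40 * C * δ ^ 2 * M / (s / 2 ^ j * M + δ) := fun j => by
    induction j with
    | zero =>
      intro _
      obtain ⟨a0, a1, a2⟩ := hA 0 J.zero_le
      rw [le_div_iff₀ (by positivity)]
      have b1 := mul_le_mul_of_nonneg_right a2 hM
      have b2 := mul_le_mul_of_nonneg_right a1 hδ.le
      have b3 : A 0 * (s / 2 ^ 0 * M + δ) ≤ 2 * (δ * M) := by linarith
      have b4 := mul_le_mul_of_nonneg_left b3 (mul_nonneg hC hδ.le)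
      have b5 := mul_le_mul_of_nonneg_right h0 (by positivity : 0 ≤ s / 2 ^ 0 * M + δ)
      have b6 : 0 ≤ C * δ ^ 2 * M := by positivity
      nlinarith
    | succ j ih =>
      intro hj
      obtain ⟨a0, a1, a2⟩ := hA j (Nat.le_of_succ_le hj)
      obtain ⟨c0, c1, c2⟩ := hA (j + 1) hj
      obtain ⟨d0, d1⟩ := hd j hj
      have t0 : 0 ≤ s / 2 ^ j := by positivity
      have e : s / 2 ^ (j + 1) = s / 2 ^ j / 2 := by rw [pow_succ, div_div]
      rw [e] at c2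
      rw [e, div_mul_eq_mul_div (s / 2 ^ j) 2 M]
      refine r1_step hC hδ hs hM (mul_nonneg t0 hM) d0 (d1.trans (by gcongr))
        (d1.trans (by gcongr)) (add_nonneg a0 c0) (by linarith) ?_ (ih (Nat.le_of_succ_le hj))
        (h j hj)
      nlinarith [mul_le_mul_of_nonneg_right a2 hM, mul_le_mul_of_nonneg_right c2 hM]
  refine (key J le_rfl).trans ?_
  rw [div_le_iff₀ (by positivity)]
  have : 0 ≤ 40 * C * δ * M * (s / 2 ^ J * M) := by positivity
  nlinarith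

theorem exp_small {y : ℝ} (h0 : 0 ≤ y) (h : y ≤ 1 / 5) :
    Real.exp y ≤ 5 / 4 ∧ Real.exp y ≤ 1 + 5 / 4 * y := by
  have a : Real.exp y * (1 - y) ≤ 1 := by
    have := Real.add_one_le_exp (-y)
    have b := mul_le_mul_of_nonneg_left this (Real.exp_pos y).le
    rw [← Real.exp_add, add_neg_cancel, Real.exp_zero] at b
    linarith
  have b : Real.exp y ≤ 5 / 4 := by nlinarith [Real.exp_pos y]
  exact ⟨b, by nlinarith⟩

/-- An exponential of a sum of small terms is bounded by a weighted linear sum. -/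
theorem exp_sum_le {y : ℕ → ℝ} (J : ℕ) (h : ∀ k < J, 0 ≤ y k ∧ y k ≤ 1 / 5) :
    Real.exp (∑ k ∈ range J, y k) ≤ (5 / 4) ^ J ∧
      Real.exp (∑ k ∈ range J, y k) ≤ 1 + ∑ k ∈ range J, (5 / 4) ^ (k + 1) * y k := by
  induction J with
  | zero => simp
  | succ J ih =>
    obtain ⟨a, b⟩ := ih fun k hk => h k (hk.trans J.lt_succ_self)
    obtain ⟨c0, c1⟩ := h J J.lt_succ_self
    obtain ⟨c, d⟩ := exp_small c0 c1
    rw [sum_range_succ, sum_range_succ, Real.exp_add, pow_succ]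
    have p := (Real.exp_pos (∑ k ∈ range J, y k)).le
    refine ⟨by gcongr, ?_⟩
    nlinarith [mul_le_mul_of_nonneg_left d p, mul_le_mul_of_nonneg_right a c0]

theorem prod_le_exp {y : ℕ → ℝ} (J : ℕ) (h : ∀ k < J, 0 ≤ y k) :
    ∏ k ∈ range J, (1 + y k) ≤ Real.exp (∑ k ∈ range J, y k) := by
  rw [Real.exp_sum]
  exact prod_le_prod (fun k hk => add_nonneg zero_le_one (h k (mem_range.1 hk))) fun k _ => by
    linarith [Real.add_one_le_exp (y k)]

theorem exp_sub_one_le (x : ℝ) : Real.exp x - 1 ≤ x * Real.exp x := by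
  have b := mul_le_mul_of_nonneg_left (Real.add_one_le_exp (-x)) (Real.exp_pos x).le
  rw [← Real.exp_add, add_neg_cancel, Real.exp_zero] at b
  linarith

theorem pow_mul_exp_le {x : ℝ} (h : 0 ≤ x) (k : ℕ) :
    x ^ (k + 1) * Real.exp x ≤ (k + 1).factorial * (Real.exp (2 * x) - 1) := by
  have a := Real.sum_le_exp_of_nonneg h (k + 2)
  rw [sum_range_succ, sum_range_succ'] at a
  have b : 0 ≤ ∑ i ∈ range k, x ^ (i + 1) / ((i + 1).factorial : ℝ) :=
    sum_nonneg fun i _ => by positivity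
  have f : (0 : ℝ) < (k + 1).factorial := by positivity
  have c : x ^ (k + 1) ≤ (k + 1).factorial * (Real.exp x - 1) := by
    rw [← div_le_iff₀' f]
    simp only [pow_zero, Nat.factorial_zero, Nat.cast_one, div_one] at a
    linarith
  have e := Real.one_le_exp h
  rw [two_mul, Real.exp_add]
  nlinarith [mul_le_mul_of_nonneg_right c (Real.exp_pos x).le]

/-- Powers of the sum times a small exponential are bounded by a weighted linear sum. -/
theorem r2_sum {C κ : ℝ} (hC : 0 < C) (hκ : 10 * κ * C ≤ 1) {z : ℕ → ℝ} (J : ℕ)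
    (h : ∀ k < J, 0 ≤ z k ∧ z k ≤ C) (i : ℕ) :
    (∑ k ∈ range J, z k) ^ (i + 1) * Real.exp (κ * ∑ k ∈ range J, z k) ≤
      (10 * C) ^ (i + 1) * (i + 1).factorial / (4 * C) * ∑ k ∈ range J, (3 / 2) ^ k * z k := by
  have S0 : 0 ≤ ∑ k ∈ range J, z k := sum_nonneg fun k hk => (h k (mem_range.1 hk)).1
  have a := (exp_sum_le (y := fun k => z k / (5 * C)) J fun k hk =>
    ⟨div_nonneg (h k hk).1 (by positivity), by
      rw [div_le_iff₀ (by positivity)]; linarith [(h k hk).2]⟩).2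
  rw [← sum_div] at a
  have b : ∑ k ∈ range J, (5 / 4) ^ (k + 1) * (z k / (5 * C)) ≤
      (∑ k ∈ range J, (3 / 2) ^ k * z k) / (4 * C) := by
    rw [sum_div]
    refine sum_le_sum fun k hk => ?_
    have := (h k (mem_range.1 hk)).1
    calc _ = (5 / 4) ^ k * z k / (4 * C) := by field_simp; ring
      _ ≤ _ := div_le_div_of_nonneg_right (mul_le_mul_of_nonneg_right
          (pow_le_pow_left₀ (by norm_num) (by norm_num) k) this) (by positivity)
  set S := ∑ k ∈ range J, z k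
  have c := pow_mul_exp_le (x := S / (10 * C)) (by positivity) i
  rw [show 2 * (S / (10 * C)) = S / (5 * C) by field_simp; ring] at c
  have d : Real.exp (κ * S) ≤ Real.exp (S / (10 * C)) := Real.exp_le_exp.2 (by
    rw [le_div_iff₀ (by positivity)]; nlinarith [mul_le_mul_of_nonneg_right hκ S0])
  calc S ^ (i + 1) * Real.exp (κ * S)
      ≤ (10 * C) ^ (i + 1) * ((S / (10 * C)) ^ (i + 1) * Real.exp (S / (10 * C))) := by
        rw [← mul_assoc, ← mul_pow, mul_div_cancel₀ _ (by positivity)]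
        gcongr
    _ ≤ (10 * C) ^ (i + 1) * ((i + 1).factorial *
          ((∑ k ∈ range J, (3 / 2) ^ k * z k) / (4 * C))) := by
        refine mul_le_mul_of_nonneg_left (c.trans ?_) (by positivity)
        gcongr
        linarith
    _ = _ := by ring

/-- The product form. -/
theorem r2 {C : ℝ} (hC : 0 < C) : ∃ K : ℝ, 0 < K ∧ ∀ κ : ℝ, 0 < κ → 60 * κ * C ≤ 1 →
    ∀ (z : ℕ → ℝ) (J : ℕ), (∀ k < J, 0 ≤ z k ∧ z k ≤ C) →
      ∀ T : ℝ, 0 ≤ T → 1 + κ * T ≤ ∏ k ∈ range J, (1 + κ * z k) →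
        T ^ 2 ≤ K * ∑ k ∈ range J, (3 / 2) ^ k * z k ∧
        T ^ 3 ≤ K * ∑ k ∈ range J, (3 / 2) ^ k * z k ∧
        T ^ 6 ≤ K * ∑ k ∈ range J, (3 / 2) ^ k * z k := by
  refine ⟨∑ i ∈ range 6, (10 * C) ^ (i + 1) * (i + 1).factorial / (4 * C),
    sum_pos (fun i _ => by positivity) (by simp), fun κ k0 hκ z J h T T0 hT => ?_⟩
  have S0 : 0 ≤ ∑ k ∈ range J, z k := sum_nonneg fun k hk => (h k (mem_range.1 hk)).1
  have L0 : 0 ≤ ∑ k ∈ range J, (3 / 2) ^ k * z k :=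
    sum_nonneg fun k hk => mul_nonneg (by positivity) (h k (mem_range.1 hk)).1
  have a := prod_le_exp (y := fun k => κ * z k) J fun k hk => mul_nonneg k0.le (h k hk).1
  rw [← mul_sum] at a
  have b : T ≤ (∑ k ∈ range J, z k) * Real.exp (κ * ∑ k ∈ range J, z k) :=
    le_of_mul_le_mul_left (by linarith [exp_sub_one_le (κ * ∑ k ∈ range J, z k)]) k0
  have key : ∀ i < 6, T ^ (i + 1) ≤ (∑ i ∈ range 6, (10 * C) ^ (i + 1) * (i + 1).factorial /
      (4 * C)) * ∑ k ∈ range J, (3 / 2) ^ k * z k := fun i hi => by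
    have i6 : ((i + 1 : ℕ) : ℝ) ≤ 6 := by exact_mod_cast hi
    have c := r2_sum (κ := (i + 1 : ℕ) * κ) hC
      (by nlinarith [mul_le_mul_of_nonneg_right i6 (mul_pos k0 hC).le]) J h i
    refine (pow_le_pow_left₀ T0 b _).trans ?_
    rw [mul_pow, ← Real.exp_nat_mul, ← mul_assoc]
    refine c.trans (mul_le_mul_of_nonneg_right ?_ L0)
    exact single_le_sum (f := fun i => (10 * C) ^ (i + 1) * ((i + 1).factorial : ℝ) / (4 * C))
      (fun i _ => by positivity) (mem_range.2 hi)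
  exact ⟨key 1 (by norm_num), key 2 (by norm_num), key 5 (by norm_num)⟩

end Pool.Agent.Lib.MP_a785f2_an.NH
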