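import Pool.Agent.Lib.MP_a785f2_an.NH.Chain
import Pool.Agent.Lib.MP_a785f2_an.NH.Real

open MeasureTheory Metric Set Filter Topology
open scoped ContDiff RealInnerProductSpace ENNReal Convolution

namespace Pool.Agent.Lib.MP_a785f2_an.NH

open HS

variable {m : ℕ} {H : Type} [NormedAddCommGroup H] [NormedSpace ℝ H]
  {a : V m → H →L[ℝ] V m →L[ℝ] V m} {b : V m → H} {L : ℝ}
  {Ω : Set (D 3)} {u : D 3 → V m} {G : D 3 → D 3 →L[ℝ] V m} {x0 : D 3} {t δ : ℝ}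

theorem rad_prod {r y : ℕ → ℝ} (hy : ∀ j, 0 ≤ y j)
    (h : ∀ j, 1 + r (j + 1) ≤ (1 + r j) * (1 + y j)) (J : ℕ) :
    1 + r J ≤ (1 + r 0) * ∏ j ∈ Finset.range J, (1 + y j) := by
  induction J with
  | zero => simp
  | succ J ih =>
    rw [Finset.prod_range_succ, ← mul_assoc]
    exact (h J).trans (mul_le_mul_of_nonneg_right ih (by linarith [hy J]))

theorem rad_one {y : ℕ → ℝ} (hy : ∀ j, 0 ≤ y j) (J : ℕ) :
    1 ≤ ∏ j ∈ Finset.range J, (1 + y j) := by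
  induction J with
  | zero => simp
  | succ J ih =>
    rw [Finset.prod_range_succ]
    exact one_le_mul_of_one_le_of_one_le ih (by linarith [hy J])

theorem rad_fin {r r0 A B P Q : ℝ} (h0 : 0 ≤ r0) (h1 : r0 ≤ 1) (A0 : 0 ≤ A) (A1 : A ≤ 1)
    (B0 : 0 ≤ B) (hP : P ≤ 1 + A) (hQ : Q = 1 + B) (h : 1 + r ≤ (1 + r0) * (P * Q)) :
    r ≤ r0 + 2 * A + 4 * B := by
  subst hQ
  have a : P * (1 + B) ≤ 1 + (A + 2 * B) := by
    nlinarith [mul_le_mul_of_nonneg_right hP (by linarith : 0 ≤ 1 + B),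
      mul_le_mul_of_nonneg_right A1 B0]
  have c := mul_le_mul_of_nonneg_left a (by linarith : 0 ≤ 1 + r0)
  nlinarith [mul_le_mul_of_nonneg_right h1 (by linarith : 0 ≤ A + 2 * B)]

theorem geo_four (N : ℕ) : ∑ k ∈ Finset.range N, (3 / 4 : ℝ) ^ k ≤ 4 := by
  have : ∑ k ∈ Finset.range N, (3 / 4 : ℝ) ^ k = 4 - 4 * (3 / 4) ^ N := by
    induction N with
    | zero => simp
    | succ N ih => rw [Finset.sum_range_succ, ih]; ring
  rw [this]
  have : (0 : ℝ) ≤ (3 / 4) ^ N := by positivity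
  linarith

/-- Pointwise bound for the development. -/
theorem rad_bd (T : Str a b L) : ∃ C : ℝ, 1 ≤ C ∧ ∀ (Ω : Set (D 3)) (u : D 3 → V m)
    (G : D 3 → D 3 →L[ℝ] V m) (x0 : D 3) (t δ : ℝ), Ctx Ω u G x0 t δ → 100 * kap L * δ ≤ 1 →
    ∀ x ∈ closedBall x0 (13 * t / 16), ∀ i J : ℕ, i ≤ J → 100 * kap L * δ * i ≤ 1 →
      ∃ τ : ℝ, 0 ≤ τ ∧ ‖WW a b u x0 t J x‖ ≤ ‖WW a b u x0 t 0 x‖ + C * δ * (i + τ) ∧
        τ ^ 2 ≤ C * lam G t δ i J x ∧ τ ^ 3 ≤ C * lam G t δ i J x ∧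
        τ ^ 6 ≤ C * lam G t δ i J x := by
  obtain ⟨K, K0, hK⟩ := r2 (C := 1) one_pos
  have L1 := T.L1
  have L2 : 1 ≤ L ^ 2 := one_le_pow₀ L1
  have L4 : L ^ 2 ≤ L ^ 4 := pow_le_pow_right₀ L1 (by norm_num)
  refine ⟨320 * L ^ 2 + K, by linarith, fun Ω u G x0 t δ X hδ x hx i J hi hδi => ?_⟩
  have d0 := X.dp
  unfold kap at hδ hδi
  have i0 : (0 : ℝ) ≤ i := Nat.cast_nonneg i
  have e1 : L ^ 2 * δ ≤ L ^ 4 * δ := mul_le_mul_of_nonneg_right L4 d0.le
  have e2 : L ^ 2 * δ * i ≤ L ^ 4 * δ * i := mul_le_mul_of_nonneg_right e1 i0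
  have e3 : δ ≤ L ^ 2 * δ := le_mul_of_one_le_left d0.le L2
  have e4 : 0 ≤ L ^ 2 * δ * i := by positivity
  have z0 : ∀ j, 0 ≤ zz G t j x := fun j => zz_nonneg G t j x
  have z1 : ∀ j, zz G t j x ≤ δ := fun j => (X.chain hx j).1
  have y0 : ∀ j, 0 ≤ 80 * L ^ 2 * zz G t j x := fun j => mul_nonneg (by positivity) (z0 j)
  have hp := rad_prod (r := fun j => ‖WW a b u x0 t j x‖)
    (y := fun j => 80 * L ^ 2 * zz G t j x) y0 (fun j => by
      have := nxt_norm T (UU u t j) (UU u t (j + 1)) (WW a b u x0 t j) x (X.chain hx j).2.1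
      rw [show 2 * L ^ 2 * (40 * zz G t j x) = 80 * L ^ 2 * zz G t j x by ring] at this
      exact this) J
  obtain ⟨N, rfl⟩ := Nat.exists_eq_add_of_le hi
  rw [Finset.prod_range_add] at hp
  have k0 : 0 < 80 * L ^ 2 * δ := by positivity
  have hq : ∏ k ∈ Finset.range N, (1 + 80 * L ^ 2 * zz G t (i + k) x) =
      ∏ k ∈ Finset.range N, (1 + 80 * L ^ 2 * δ * (zz G t (i + k) x / δ)) :=
    Finset.prod_congr rfl fun k _ => by field_simp
  have q1 : 1 ≤ ∏ k ∈ Finset.range N, (1 + 80 * L ^ 2 * zz G t (i + k) x) :=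
    rad_one (y := fun k => 80 * L ^ 2 * zz G t (i + k) x) (fun k => y0 (i + k)) N
  set Q := ∏ k ∈ Finset.range N, (1 + 80 * L ^ 2 * zz G t (i + k) x) with hQ
  have τ0 : 0 ≤ (Q - 1) / (80 * L ^ 2 * δ) := div_nonneg (by linarith) k0.le
  have eQ : Q = 1 + 80 * L ^ 2 * δ * ((Q - 1) / (80 * L ^ 2 * δ)) := by
    rw [mul_div_cancel₀ _ k0.ne']; ring
  have hT := hK _ k0 (by linarith) (fun k => zz G t (i + k) x / δ) N
    (fun k _ => ⟨div_nonneg (z0 _) d0.le, (div_le_one d0).2 (z1 _)⟩) _ τ0 (by rw [← hq, ← eQ])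
  have el : lam G t δ i (i + N) x =
      ∑ k ∈ Finset.range N, (3 / 2) ^ k * (zz G t (i + k) x / δ) := by
    unfold lam
    rw [Nat.add_sub_cancel_left]
    exact Finset.sum_congr rfl fun k _ => mul_div_assoc _ _ _
  have l0 : 0 ≤ lam G t δ i (i + N) x := by
    rw [el]
    exact Finset.sum_nonneg fun k _ => mul_nonneg (by positivity) (div_nonneg (z0 _) d0.le)
  rw [← el] at hT
  have hc : K * lam G t δ i (i + N) x ≤ (320 * L ^ 2 + K) * lam G t δ i (i + N) x :=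
    mul_le_mul_of_nonneg_right (by linarith) l0
  refine ⟨_, τ0, ?_, hT.1.trans hc, hT.2.1.trans hc, hT.2.2.trans hc⟩
  generalize (Q - 1) / (80 * L ^ 2 * δ) = τ at *
  have hs : ∑ j ∈ Finset.range i, 80 * L ^ 2 * zz G t j x ≤ 80 * (L ^ 2 * δ * i) := by
    calc _ ≤ ∑ _j ∈ Finset.range i, 80 * L ^ 2 * δ :=
          Finset.sum_le_sum fun j _ => mul_le_mul_of_nonneg_left (z1 j) (by positivity)
      _ = _ := by rw [Finset.sum_const, Finset.card_range, nsmul_eq_mul]; ring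
  have hP : ∏ j ∈ Finset.range i, (1 + 80 * L ^ 2 * zz G t j x) ≤ 1 + 100 * (L ^ 2 * δ * i) := by
    refine (prod_le_exp i fun j _ => y0 j).trans ((Real.exp_le_exp.2 hs).trans ?_)
    have := (exp_small (y := 80 * (L ^ 2 * δ * i)) (by positivity) (by linarith)).2
    linarith
  have w0 := X.w0_in (a := a) (b := b) hx
  have := rad_fin (norm_nonneg _) (by linarith) (by positivity) (by linarith)
    (mul_nonneg k0.le τ0) hP eQ hp
  have f1 : 0 ≤ K * δ * (i + τ) := by positivity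
  linarith

/-- The first moment of `lam`. -/
theorem Ctx.lam_int (X : Ctx Ω u G x0 t δ) (i J : ℕ) {A A' : Set (D 3)} (mA : MeasurableSet A)
    (mA' : MeasurableSet A') (h2 : A' ⊆ closedBall x0 t)
    (h1 : ∀ x ∈ A, closedBall x (t / 8 / 2 ^ i) ⊆ A') :
    IntegrableOn (lam G t δ i J) A ∧
      ∫ x in A, lam G t δ i J x ≤ 4 * (t / 2 ^ i) * (∫ y in A', ‖G y‖) / δ := by
  have t0 := X.tp
  have d0 := X.dp
  have I0 : 0 ≤ ∫ y in A', ‖G y‖ := integral_nonneg fun _ => norm_nonneg _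
  have key : ∀ k : ℕ, IntegrableOn (fun x => (3 / 2) ^ k * zz G t (i + k) x / δ) A ∧
      ∫ x in A, (3 / 2) ^ k * zz G t (i + k) x / δ ≤
        (3 / 4) ^ k * ((t / 2 ^ i) * (∫ y in A', ‖G y‖) / δ) := fun k => by
    have s0 := sc_pos t0 (i + k)
    have hρ : 2 * sc t (i + k) ≤ t / 8 / 2 ^ i := by
      have : 2 * sc t (i + k) = t / 8 / 2 ^ i / 2 ^ k := by
        unfold sc; rw [pow_add]; field_simp; norm_num
      rw [this]
      exact div_le_self (by positivity) (one_le_pow₀ one_le_two)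
    obtain ⟨f1, f2⟩ := mass_fub (n := 3) (by norm_num) X.sob (ρ := 2 * sc t (i + k))
      (by positivity) mA mA' h2 fun x hx => (closedBall_subset_closedBall hρ).trans (h1 x hx)
    have e : (fun x => (3 / 2 : ℝ) ^ k * zz G t (i + k) x / δ) = fun x =>
        (3 / 2) ^ k / (2 * sc t (i + k)) ^ 2 / δ * mass G x (2 * sc t (i + k)) := by
      funext x; unfold zz; ring
    rw [e]
    refine ⟨f1.const_mul _, ?_⟩
    rw [integral_const_mul]
    refine (mul_le_mul_of_nonneg_left f2 (by positivity)).trans (le_of_eq ?_)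
    have e2 : (3 / 2 : ℝ) ^ k = (3 / 4) ^ k * 2 ^ k := by rw [← mul_pow]; norm_num
    have e3 : sc t (i + k) = t / 16 / (2 ^ i * 2 ^ k) := by unfold sc; rw [pow_add]
    rw [e2, e3]
    field_simp
    ring
  unfold lam
  refine ⟨integrable_finsetSum _ fun k _ => (key k).1, ?_⟩
  rw [integral_finsetSum _ fun k _ => (key k).1]
  refine (Finset.sum_le_sum fun k _ => (key k).2).trans ?_
  rw [← Finset.sum_mul, mul_assoc, mul_div_assoc 4]
  exact mul_le_mul_of_nonneg_right (geo_four _) (by positivity)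

end Pool.Agent.Lib.MP_a785f2_an.NH
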