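import Pool.Agent.Lib.MP_a785f2_an.NH.Rad

open MeasureTheory Metric Set Filter Topology
open scoped ContDiff RealInnerProductSpace ENNReal Convolution

namespace Pool.Agent.Lib.MP_a785f2_an.NH

open HS

variable {m : ℕ} {H : Type} [NormedAddCommGroup H] [NormedSpace ℝ H]
  {a : V m → H →L[ℝ] V m →L[ℝ] V m} {b : V m → H} {L : ℝ}
  {Ω : Set (D 3)} {u : D 3 → V m} {G : D 3 → D 3 →L[ℝ] V m} {x0 : D 3} {t δ : ℝ}

theorem bdry_real {r w h δ η τ l C : ℝ} (hδ : 0 < δ) (hh : δ ≤ h) (hr : 0 ≤ r) (hw0 : 0 ≤ w)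
    (hw : w ^ 2 = 1 + r ^ 2 / h ^ 2) (η0 : 0 < η) (η1 : η ≤ 1) (hC : 1 ≤ C) (τ0 : 0 ≤ τ)
    (hb : r ≤ 16384 * η * δ + C * δ * τ) (t3 : τ ^ 3 ≤ C * l) (t6 : τ ^ 6 ≤ C * l) :
    r ^ 3 * w ^ 3 ≤
      δ ^ 3 * ((16 * 16384 ^ 3 + 128 * 16384 ^ 6) * η + (16 * C ^ 4 + 128 * C ^ 7) * l) := by
  obtain ⟨ρ, rfl⟩ : ∃ ρ, r = δ * ρ := ⟨r / δ, by field_simp⟩
  have ρ0 : 0 ≤ ρ := nonneg_of_mul_nonneg_right hr hδ
  have C0 : 0 ≤ C := le_trans zero_le_one hC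
  have hρ : ρ ≤ 16384 * η + C * τ := by
    refine le_of_mul_le_mul_left ?_ hδ
    linarith
  have h1 : (δ * ρ) ^ 2 / h ^ 2 ≤ ρ ^ 2 := by
    rw [div_le_iff₀ (pow_pos (lt_of_lt_of_le hδ hh) 2), mul_pow, mul_comm]
    exact mul_le_mul_of_nonneg_left (pow_le_pow_left₀ hδ.le hh 2) (sq_nonneg _)
  have h2 : w ≤ 1 + ρ := by
    refine (pow_le_pow_iff_left₀ hw0 (by positivity) two_ne_zero).1 ?_
    nlinarith
  have h3 : w ^ 3 ≤ 4 * (1 + ρ ^ 3) := by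
    have := add_pow_le zero_le_one ρ0 3
    calc w ^ 3 ≤ (1 + ρ) ^ 3 := pow_le_pow_left₀ hw0 h2 3
      _ ≤ 4 * (1 + ρ ^ 3) := by norm_num at this ⊢; linarith
  have a0 : 0 ≤ 16384 * η := by positivity
  have b0 : 0 ≤ C * τ := by positivity
  have e3 : η ^ 3 ≤ η := pow_le_of_le_one η0.le η1 (by norm_num)
  have e6 : η ^ 6 ≤ η := pow_le_of_le_one η0.le η1 (by norm_num)
  have h4 : ρ ^ 3 ≤ 4 * (16384 ^ 3 * η + C ^ 4 * l) := by
    have k1 := add_pow_le a0 b0 3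
    have k2 : (C * τ) ^ 3 ≤ C ^ 4 * l := by
      calc (C * τ) ^ 3 = C ^ 3 * τ ^ 3 := mul_pow _ _ _
        _ ≤ C ^ 3 * (C * l) := mul_le_mul_of_nonneg_left t3 (by positivity)
        _ = C ^ 4 * l := by ring
    have k3 : (16384 * η) ^ 3 ≤ 16384 ^ 3 * η := by
      rw [mul_pow]; exact mul_le_mul_of_nonneg_left e3 (by positivity)
    calc ρ ^ 3 ≤ (16384 * η + C * τ) ^ 3 := pow_le_pow_left₀ ρ0 hρ 3
      _ ≤ 2 ^ (3 - 1) * ((16384 * η) ^ 3 + (C * τ) ^ 3) := k1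
      _ ≤ 2 ^ (3 - 1) * (16384 ^ 3 * η + C ^ 4 * l) := by gcongr
      _ = _ := by norm_num
  have h5 : ρ ^ 6 ≤ 32 * (16384 ^ 6 * η + C ^ 7 * l) := by
    have k1 := add_pow_le a0 b0 6
    have k2 : (C * τ) ^ 6 ≤ C ^ 7 * l := by
      calc (C * τ) ^ 6 = C ^ 6 * τ ^ 6 := mul_pow _ _ _
        _ ≤ C ^ 6 * (C * l) := mul_le_mul_of_nonneg_left t6 (by positivity)
        _ = C ^ 7 * l := by ring
    have k3 : (16384 * η) ^ 6 ≤ 16384 ^ 6 * η := by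
      rw [mul_pow]; exact mul_le_mul_of_nonneg_left e6 (by positivity)
    calc ρ ^ 6 ≤ (16384 * η + C * τ) ^ 6 := pow_le_pow_left₀ ρ0 hρ 6
      _ ≤ 2 ^ (6 - 1) * ((16384 * η) ^ 6 + (C * τ) ^ 6) := k1
      _ ≤ 2 ^ (6 - 1) * (16384 ^ 6 * η + C ^ 7 * l) := by gcongr
      _ = _ := by norm_num
  calc (δ * ρ) ^ 3 * w ^ 3 ≤ (δ * ρ) ^ 3 * (4 * (1 + ρ ^ 3)) :=
        mul_le_mul_of_nonneg_left h3 (by positivity)
    _ = δ ^ 3 * (4 * ρ ^ 3 + 4 * ρ ^ 6) := by ring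
    _ ≤ _ := by
        refine mul_le_mul_of_nonneg_left ?_ (by positivity)
        linarith

theorem sh_meas (x0 : D 3) (t : ℝ) : MeasurableSet (Sh x0 t) :=
  measurableSet_closedBall.diff measurableSet_ball

theorem sh_vol (x0 : D 3) {t : ℝ} (ht : 0 < t) :
    volume (Sh x0 t) ≠ ⊤ ∧ volume.real (Sh x0 t) ≤ 8 * t ^ 3 := by
  have h1 : volume (Sh x0 t) ≤ ENNReal.ofReal (8 * t ^ 3) := by
    calc volume (Sh x0 t) ≤ volume (closedBall x0 t) :=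
          measure_mono (sdiff_subset.trans (closedBall_subset_closedBall (by linarith)))
      _ = ENNReal.ofReal ((2 * t) ^ 3) := by
          rw [Real.volume_pi_closedBall x0 ht.le, Fintype.card_fin]
      _ = ENNReal.ofReal (8 * t ^ 3) := by rw [mul_pow]; norm_num
  exact ⟨ne_top_of_le_ne_top ENNReal.ofReal_ne_top h1,
    ENNReal.toReal_le_of_le_ofReal (by positivity) h1⟩

/-- The boundary term. -/
theorem bdry (T : Str a b L) {B : ℝ} (hB : 1 ≤ B) : ∃ C : ℝ, 1 ≤ C ∧ ∀ (Ω : Set (D 3))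
    (u : D 3 → V m) (G : D 3 → D 3 →L[ℝ] V m) (x0 : D 3) (t δ : ℝ), Ctx Ω u G x0 t δ →
    100 * kap L * δ ≤ 1 → ∀ η : ℝ, 0 < η → η ≤ 1 →
    ∫ y in closedBall x0 t \ closedBall x0 (t / 2), ‖G y‖ ≤ η * δ * t ^ 2 →
    ∀ χ : D 3 → ℝ, Cut χ x0 t B → ∀ h : ℝ, δ ≤ h → ∀ J : ℕ,
      ∫ x in closedBall x0 (13 * t / 16), ‖fderiv ℝ χ x‖ ^ 3 *
        (‖WW a b u x0 t J x‖ ^ 3 * wt h (WW a b u x0 t J x) ^ 3) ≤ C * η * δ ^ 3 := by
  obtain ⟨C, hC, hrad⟩ := rad_bd (a := a) (b := b) T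
  set K1 : ℝ := 16 * 16384 ^ 3 + 128 * 16384 ^ 6 with hK1
  set K2 : ℝ := 16 * C ^ 4 + 128 * C ^ 7 with hK2
  have C0 : 0 < C := lt_of_lt_of_le one_pos hC
  have K11 : 1 ≤ K1 := by rw [hK1]; norm_num
  have K20 : 0 ≤ K2 := by rw [hK2]; positivity
  have B0 : 0 < B := lt_of_lt_of_le one_pos hB
  refine ⟨B ^ 3 * (8 * K1 + 4 * K2), one_le_mul_of_one_le_of_one_le (one_le_pow₀ hB) (by linarith),
    fun Ω u G x0 t δ X hk η η0 η1 hη χ hχ h hh J => ?_⟩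
  have ht := X.tp
  have hδ := X.dp
  obtain ⟨vf, vl⟩ := sh_vol x0 ht
  have mA' : MeasurableSet (closedBall x0 t \ closedBall x0 (t / 2)) :=
    measurableSet_closedBall.diff measurableSet_closedBall
  obtain ⟨li, lb⟩ := X.lam_int 0 J (sh_meas x0 t) mA' sdiff_subset (fun x hx y hy => by
    have h1 : dist x x0 ≤ 13 * t / 16 := hx.1
    have h2 : 11 * t / 16 ≤ dist x x0 := not_lt.1 hx.2
    have h3 : dist y x ≤ t / 8 := by simpa using hy
    have h4 := dist_triangle y x x0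
    have h5 := dist_triangle x y x0
    rw [dist_comm x y] at h5
    refine ⟨?_, fun h6 => ?_⟩
    · show dist y x0 ≤ t
      linarith
    · have h7 : dist y x0 ≤ t / 2 := h6
      linarith)
  have lb' : ∫ x in Sh x0 t, lam G t δ 0 J x ≤ 4 * η * t ^ 3 := by
    refine lb.trans ?_
    rw [div_le_iff₀ hδ, pow_zero, div_one]
    calc 4 * t * ∫ y in closedBall x0 t \ closedBall x0 (t / 2), ‖G y‖
        ≤ 4 * t * (η * δ * t ^ 2) := mul_le_mul_of_nonneg_left hη (by positivity)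
      _ = 4 * η * t ^ 3 * δ := by ring
  have ci : IntegrableOn (fun _ : D 3 => K1 * η) (Sh x0 t) := integrableOn_const vf
  have gi : IntegrableOn (fun x => K1 * η + K2 * lam G t δ 0 J x) (Sh x0 t) :=
    ci.add (li.const_mul K2)
  have e1 : ∫ x in closedBall x0 (13 * t / 16), ‖fderiv ℝ χ x‖ ^ 3 *
        (‖WW a b u x0 t J x‖ ^ 3 * wt h (WW a b u x0 t J x) ^ 3) =
      ∫ x in Sh x0 t, ‖fderiv ℝ χ x‖ ^ 3 *
        (‖WW a b u x0 t J x‖ ^ 3 * wt h (WW a b u x0 t J x) ^ 3) := by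
    refine setIntegral_eq_of_subset_of_forall_sdiff_eq_zero measurableSet_closedBall sdiff_subset
      fun x hx => ?_
    have h1 : x ∈ ball x0 (11 * t / 16) := by
      by_contra h2
      exact hx.2 ⟨hx.1, h2⟩
    rw [hχ.zero x h1]; simp
  rw [e1]
  calc ∫ x in Sh x0 t, ‖fderiv ℝ χ x‖ ^ 3 *
        (‖WW a b u x0 t J x‖ ^ 3 * wt h (WW a b u x0 t J x) ^ 3)
      ≤ ∫ x in Sh x0 t, (B / t) ^ 3 * δ ^ 3 * (K1 * η + K2 * lam G t δ 0 J x) := by
        refine integral_mono_of_nonneg (Eventually.of_forall fun x => ?_) (gi.const_mul _) ?_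
        · have := one_le_wt h (WW a b u x0 t J x)
          positivity
        · refine ae_restrict_of_forall_mem (sh_meas x0 t) fun x hx => ?_
          obtain ⟨τ, τ0, hb, -, t3, t6⟩ :=
            hrad Ω u G x0 t δ X hk x hx.1 0 J (Nat.zero_le _) (by simp)
          have w0 := X.w0_sh (a := a) (b := b) hη hx
          have w1 := one_le_wt h (WW a b u x0 t J x)
          have k := bdry_real hδ hh (norm_nonneg (WW a b u x0 t J x)) (by linarith)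
            (wt_sq h (WW a b u x0 t J x)) η0 η1 hC τ0
            (by simp only [Nat.cast_zero, zero_add] at hb; linarith) t3 t6
          show _ ≤ (B / t) ^ 3 * δ ^ 3 * (K1 * η + K2 * lam G t δ 0 J x)
          rw [mul_assoc ((B / t) ^ 3)]
          exact mul_le_mul (pow_le_pow_left₀ (norm_nonneg _) (hχ.der x) 3) k (by positivity)
            (by positivity)
    _ = (B / t) ^ 3 * δ ^ 3 * (volume.real (Sh x0 t) * (K1 * η) +
          K2 * ∫ x in Sh x0 t, lam G t δ 0 J x) := by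
        rw [integral_const_mul, integral_add ci (li.const_mul K2), setIntegral_const,
          integral_const_mul, smul_eq_mul]
    _ ≤ (B / t) ^ 3 * δ ^ 3 * (8 * t ^ 3 * (K1 * η) + K2 * (4 * η * t ^ 3)) := by
        have K10 : 0 ≤ K1 * η := by positivity
        gcongr
    _ = B ^ 3 * (8 * K1 + 4 * K2) * η * δ ^ 3 := by field_simp

end Pool.Agent.Lib.MP_a785f2_an.NH
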