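import Pool.Agent.Lib.MP_a785f2_an.NH.Moll
import Pool.Agent.Lib.MP_a785f2_an.NH.Mass
import Pool.Agent.Lib.MP_a785f2_an.NH.Rec
import Pool.Agent.Lib.MP_a785f2_an.NH.Cut

open MeasureTheory Metric Set Filter Topology
open scoped ContDiff RealInnerProductSpace ENNReal Convolution

namespace Pool.Agent.Lib.MP_a785f2_an.NH

open HS

variable {m : ℕ} {H : Type} [NormedAddCommGroup H] [NormedSpace ℝ H]
  {a : V m → H →L[ℝ] V m →L[ℝ] V m} {b : V m → H} {L : ℝ}
  {Ω : Set (D 3)} {u : D 3 → V m} {G : D 3 → D 3 →L[ℝ] V m} {x0 : D 3} {t δ : ℝ}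

theorem Ctx.smU (X : Ctx Ω u G x0 t δ) (j : ℕ) : ContDiff ℝ 1 (UU u t j) := by
  exact (mol_smooth (by norm_num) X.sob (sc t j)).of_le (by exact_mod_cast le_top)

theorem Ctx.smW (X : Ctx Ω u G x0 t δ) (T : Str a b L) (j : ℕ) :
    ContDiff ℝ 1 (WW a b u x0 t j) := by
  exact dev_smooth T X.smU _ j

theorem Ctx.apx (X : Ctx Ω u G x0 t δ) : Apx (closedBall x0 (13 * t / 16)) u G (UU u t) := by
  have ht := X.tp
  exact mol_apx (by norm_num) X.sob (s := t / 16) (by positivity)
    ((closedBall_subset_closedBall (by linarith)).trans X.sub)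

theorem Ctx.chain (X : Ctx Ω u G x0 t δ) {x : D 3} (hx : x ∈ closedBall x0 (13 * t / 16))
    (j : ℕ) : zz G t j x ≤ δ ∧ ‖UU u t (j + 1) x - UU u t j x‖ ≤ 40 * zz G t j x ∧
      ‖fderiv ℝ (UU u t j) x‖ ≤ 40 * (zz G t j x / sc t j) ∧
      ‖fderiv ℝ (UU u t (j + 1)) x‖ ≤ 40 * (zz G t j x / sc t j) := by
  have ht := X.tp
  have hs := sc_pos ht j
  have hs' := sc_le ht j
  have hd : dist x x0 ≤ 13 * t / 16 := hx
  have hsub : ∀ r, r ≤ 2 * sc t j → closedBall x r ⊆ Ω := fun r hr =>
    (closedBall_subset_closedBall' (by linarith)).trans X.sub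
  have hmono : ∀ r, r ≤ 2 * sc t j → mass G x r ≤ mass G x (2 * sc t j) := fun r hr =>
    mass_mono (by norm_num) X.sob (closedBall_subset_closedBall hr) subset_rfl
  have hz : mass G x (2 * sc t j) = 4 * sc t j ^ 2 * zz G t j x := by
    unfold zz; field_simp; ring
  have hz0 := zz_nonneg G t j x
  have hq : 0 ≤ zz G t j x / sc t j := div_nonneg hz0 hs.le
  refine ⟨?_, ?_, ?_, ?_⟩
  · unfold zz
    rw [div_le_iff₀ (by positivity)]
    exact X.mor x _ (by positivity) (by linarith)
  · have h := mol_diff (by norm_num) X.sob hs (hsub _ le_rfl)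
    have e : ((2 : ℝ) ^ 3 + 1) * mass G x (2 * sc t j) / sc t j ^ (3 - 1) = 36 * zz G t j x := by
      rw [hz]; field_simp; ring
    rw [e] at h
    unfold UU
    rw [sc_succ]
    linarith
  · have h := mol_grad (by norm_num) X.sob hs (hsub _ (by linarith))
    have h2 : mass G x (sc t j) / sc t j ^ 3 ≤ mass G x (2 * sc t j) / sc t j ^ 3 :=
      div_le_div_of_nonneg_right (hmono _ (by linarith)) (by positivity)
    have e : mass G x (2 * sc t j) / sc t j ^ 3 = 4 * (zz G t j x / sc t j) := by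
      rw [hz]; field_simp
    unfold UU
    linarith
  · have h := mol_grad (by norm_num) X.sob (half_pos hs) (hsub _ (by linarith))
    have h2 : mass G x (sc t j / 2) / (sc t j / 2) ^ 3 ≤
        mass G x (2 * sc t j) / (sc t j / 2) ^ 3 :=
      div_le_div_of_nonneg_right (hmono _ (by linarith)) (by positivity)
    have e : mass G x (2 * sc t j) / (sc t j / 2) ^ 3 = 32 * (zz G t j x / sc t j) := by
      rw [hz]; field_simp; ring
    unfold UU
    rw [sc_succ]
    linarith

theorem Ctx.w0_in (X : Ctx Ω u G x0 t δ) {x : D 3} (hx : x ∈ closedBall x0 (13 * t / 16)) :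
    ‖WW a b u x0 t 0 x‖ ≤ 26 * δ := by
  have ht := X.tp
  have hδ := X.dp
  have hs : sc t 0 = t / 16 := by unfold sc; simp
  have hc : (fun i => x0 i + 13 * t / 16 : D 3) ∈ closedBall x0 (13 * t / 16) := by
    rw [mem_closedBall, dist_pi_le_iff (by positivity)]
    intro i
    rw [Real.dist_eq, add_sub_cancel_left, abs_of_nonneg (by positivity)]
  have hg : ∀ y ∈ closedBall x0 (13 * t / 16), ‖fderiv ℝ (UU u t 0) y‖ ≤ 16 * δ / t := by
    intro y hy
    have hd : dist y x0 ≤ 13 * t / 16 := hy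
    have h := mol_grad (by norm_num) X.sob (s := t / 16) (by positivity) (x := y)
      ((closedBall_subset_closedBall' (by linarith)).trans X.sub)
    have h2 := X.mor y (t / 16) (by positivity) (by linarith)
    have h3 : mass G y (t / 16) / (t / 16) ^ 3 ≤ δ * (t / 16) ^ 2 / (t / 16) ^ 3 :=
      div_le_div_of_nonneg_right h2 (by positivity)
    have e : δ * (t / 16) ^ 2 / (t / 16) ^ 3 = 16 * δ / t := by field_simp
    unfold UU
    rw [hs]
    linarith
  have h := (convex_closedBall x0 (13 * t / 16)).norm_image_sub_le_of_norm_fderiv_le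
    (fun y _ => (X.smU 0).differentiable one_ne_zero y) hg hc hx
  have hd : ‖x - fun i => x0 i + 13 * t / 16‖ ≤ 26 * t / 16 := by
    rw [← dist_eq_norm]
    have h1 : dist x x0 ≤ 13 * t / 16 := hx
    have h2 : dist (fun i => x0 i + 13 * t / 16 : D 3) x0 ≤ 13 * t / 16 := hc
    have h3 := dist_triangle_right x (fun i => x0 i + 13 * t / 16 : D 3) x0
    linarith
  have h4 : 16 * δ / t * ‖x - fun i => x0 i + 13 * t / 16‖ ≤ 16 * δ / t * (26 * t / 16) :=
    mul_le_mul_of_nonneg_left hd (by positivity)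
  have e : 16 * δ / t * (26 * t / 16) = 26 * δ := by field_simp
  exact h.trans (h4.trans e.le)

theorem Ctx.w0_sh (X : Ctx Ω u G x0 t δ) {η : ℝ}
    (hη : ∫ y in closedBall x0 t \ closedBall x0 (t / 2), ‖G y‖ ≤ η * δ * t ^ 2)
    {x : D 3} (hx : x ∈ Sh x0 t) : ‖WW a b u x0 t 0 x‖ ≤ 16384 * η * δ := by
  have ht := X.tp
  have hs : sc t 0 = t / 16 := by unfold sc; simp
  have hg : ∀ y ∈ Sh x0 t, ‖fderiv ℝ (UU u t 0) y‖ ≤ 4096 * η * δ / t := by
    intro y hy
    have hd : dist y x0 ≤ 13 * t / 16 := hy.1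
    have hd' : 11 * t / 16 ≤ dist y x0 := not_lt.1 hy.2
    have h := mol_grad (by norm_num) X.sob (s := t / 16) (by positivity) (x := y)
      ((closedBall_subset_closedBall' (by linarith)).trans X.sub)
    have h1 : closedBall y (t / 16) ⊆ closedBall x0 t \ closedBall x0 (t / 2) := by
      intro z hz
      have hz' : dist z y ≤ t / 16 := hz
      have h5 := dist_triangle z y x0
      have h6 := dist_triangle_left y x0 z
      refine ⟨?_, fun h7 => ?_⟩
      · rw [mem_closedBall]; linarith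
      · have h8 : dist z x0 ≤ t / 2 := h7
        linarith
    have h2 := (mass_mono (by norm_num) X.sob h1 sdiff_subset).trans hη
    have h3 : mass G y (t / 16) / (t / 16) ^ 3 ≤ η * δ * t ^ 2 / (t / 16) ^ 3 :=
      div_le_div_of_nonneg_right h2 (by positivity)
    have e : η * δ * t ^ 2 / (t / 16) ^ 3 = 4096 * η * δ / t := by field_simp; ring
    unfold UU
    rw [hs]
    linarith
  have h := shell_osc (X.smU 0) ht hg hx
  have e : 4 * t * (4096 * η * δ / t) = 16384 * η * δ := by field_simp; ring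
  exact h.trans e.le

end Pool.Agent.Lib.MP_a785f2_an.NH
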