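import Pool.Agent.Lib.MP_a785f2_an.NH.Defs

open MeasureTheory Metric Set Filter Topology
open scoped ContDiff RealInnerProductSpace ENNReal Convolution

namespace Pool.Agent.Lib.MP_a785f2_an.NH

open HS

variable {m : ℕ} {H : Type} [NormedAddCommGroup H] [NormedSpace ℝ H]
  {a : V m → H →L[ℝ] V m →L[ℝ] V m} {b : V m → H} {L : ℝ}
  {Ω : Set (D 3)} {u : D 3 → V m} {G : D 3 → D 3 →L[ℝ] V m} {x0 : D 3} {t δ : ℝ}

theorem young_pt {g w θ : ℝ} (g0 : 0 ≤ g) (h1 : 1 ≤ w) (hθ : 0 < θ) :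
    g ≤ g ^ 3 / w ^ 3 / θ ^ 2 + θ * w ^ 2 := by
  have w0 : 0 < w := lt_of_lt_of_le one_pos h1
  rcases le_total g (θ * w ^ 2) with h | h
  · exact h.trans (le_add_of_nonneg_left (by positivity))
  · refine le_trans ?_ (le_add_of_nonneg_right (by positivity))
    rw [div_div, le_div_iff₀ (by positivity)]
    have h2 : (θ * w ^ 2) ^ 2 ≤ g ^ 2 := pow_le_pow_left₀ (by positivity) h 2
    have h3 : w ^ 3 ≤ w ^ 4 := pow_le_pow_right₀ h1 (by norm_num)
    have h4 : w ^ 3 * θ ^ 2 ≤ g ^ 2 :=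
      calc w ^ 3 * θ ^ 2 ≤ w ^ 4 * θ ^ 2 := mul_le_mul_of_nonneg_right h3 (sq_nonneg _)
        _ = (θ * w ^ 2) ^ 2 := by ring
        _ ≤ _ := h2
    calc g * (w ^ 3 * θ ^ 2) ≤ g * g ^ 2 := mul_le_mul_of_nonneg_left h4 g0
      _ = g ^ 3 := by ring

/-- `g ≤ (g / w) ^ 3 / θ ^ 2 + θ w ^ 2`, integrated. -/
theorem mass_young (S : Sob Ω u G) {w : D 3 → ℝ} (hw : Continuous w) (h1 : ∀ x, 1 ≤ w x)
    {A : Set (D 3)} (mA : MeasurableSet A) {R : ℝ} (hA : A ⊆ closedBall x0 R) {θ : ℝ}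
    (hθ : 0 < θ) :
    ∫ x in A, ‖G x‖ ≤ (∫ x in A, ‖G x‖ ^ 3 / w x ^ 3) / θ ^ 2 +
      θ * ∫ x in closedBall x0 R, w x ^ 2 := by
  have i1 : IntegrableOn (fun y => ‖G y‖) A := (S.locG (by norm_num) x0 R).mono_set hA
  have i3 : Integrable (fun y => ‖G y‖ ^ 3) volume := S.powG (by norm_num)
  have i2 : IntegrableOn (fun x => w x ^ 2) (closedBall x0 R) :=
    (hw.pow 2).continuousOn.integrableOn_compact (isCompact_closedBall x0 R)
  have i4 : Integrable (fun y => ‖G y‖ ^ 3 / w y ^ 3) volume := by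
    refine i3.mono' ((S.mG.norm.measurable.pow_const 3).div
      (hw.measurable.pow_const 3)).aestronglyMeasurable (ae_of_all _ fun y => ?_)
    have h2 : 1 ≤ w y ^ 3 := one_le_pow₀ (h1 y)
    rw [Real.norm_of_nonneg (div_nonneg (by positivity) (zero_le_one.trans h2))]
    exact div_le_self (by positivity) h2
  calc ∫ x in A, ‖G x‖ ≤ ∫ x in A, (‖G x‖ ^ 3 / w x ^ 3 / θ ^ 2 + θ * w x ^ 2) :=
        setIntegral_mono_on i1 (Integrable.fun_add (i4.integrableOn.div_const (θ ^ 2))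
          ((i2.mono_set hA).const_mul θ)) mA fun x _ => young_pt (norm_nonneg _) (h1 x) hθ
    _ = (∫ x in A, ‖G x‖ ^ 3 / w x ^ 3) / θ ^ 2 + θ * ∫ x in A, w x ^ 2 := by
        rw [integral_add (i4.integrableOn.div_const _) ((i2.mono_set hA).const_mul θ),
          integral_div, integral_const_mul]
    _ ≤ _ := add_le_add le_rfl (mul_le_mul_of_nonneg_left
        (setIntegral_mono_set i2 (ae_of_all _ fun x => sq_nonneg _) hA.eventuallyLE) hθ.le)

/-- Pigeonhole over dyadic shells. -/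
theorem shell_pick {f : D 3 → ℝ} (f0 : ∀ x, 0 ≤ f x) (ht : 0 < t)
    (hf : IntegrableOn f (closedBall x0 (t / 2))) {K : ℕ} (hK : 1 ≤ K) :
    ∃ i : ℕ, 1 ≤ i ∧ i ≤ K ∧
      K * ∫ x in closedBall x0 (t / 2 ^ i) \ closedBall x0 (t / 2 ^ i / 2), f x ≤
        ∫ x in closedBall x0 (t / 2), f x := by
  set I : ℕ → ℝ := fun i => ∫ x in closedBall x0 (t / 2 ^ (i + 1)), f x with hI
  have hs : ∀ i : ℕ, closedBall x0 (t / 2 ^ (i + 1)) ⊆ closedBall x0 (t / 2) := fun i =>
    closedBall_subset_closedBall (div_le_div_of_nonneg_left ht.le two_pos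
      (le_self_pow₀ one_le_two (Nat.succ_ne_zero i)))
  have hd : ∀ i : ℕ, ∫ x in closedBall x0 (t / 2 ^ (i + 1)) \ closedBall x0 (t / 2 ^ (i + 1) / 2),
      f x = I i - I (i + 1) := fun i => by
    rw [setIntegral_sdiff measurableSet_closedBall (hf.mono_set (hs i))
      (closedBall_subset_closedBall (half_le_self (by positivity))), div_div, ← pow_succ]
  have I0 : I 0 = ∫ x in closedBall x0 (t / 2), f x := by simp only [hI, zero_add, pow_one]
  have IK : 0 ≤ I K := integral_nonneg f0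
  have K0 : (0 : ℝ) ≤ K := Nat.cast_nonneg K
  obtain ⟨i, hi, h⟩ := Finset.exists_le_of_sum_le (s := Finset.range K)
    (f := fun i => (K : ℝ) * (I i - I (i + 1))) (g := fun _ => I 0)
    ⟨0, Finset.mem_range.2 hK⟩ (by
      rw [← Finset.mul_sum, Finset.sum_range_sub', Finset.sum_const, Finset.card_range,
        nsmul_eq_mul]
      exact mul_le_mul_of_nonneg_left (sub_le_self _ IK) K0)
  exact ⟨i + 1, Nat.le_add_left 1 i, Finset.mem_range.1 hi, by rw [hd, ← I0]; exact h⟩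

theorem mor_start (S : Sob Ω u G) {R : ℝ} (hδ : 0 < δ) (hE : En G x0 R ≤ δ ^ 3 / 512) :
    Mor G x0 R δ := by
  intro y s hs hy
  have h := mass_young (x0 := y) S (w := fun _ => 1) continuous_const (fun _ => le_rfl)
    measurableSet_closedBall (Subset.refl (closedBall y s)) (θ := δ / (16 * s)) (by positivity)
  have h2 : ∫ x in closedBall y s, ‖G x‖ ^ 3 ≤ δ ^ 3 / 512 :=
    (setIntegral_mono_set (S.powG (by norm_num)).integrableOn
      (ae_of_all _ fun x => by positivity)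
      (closedBall_subset_closedBall' (by linarith)).eventuallyLE).trans hE
  have h3 : ∫ _x in closedBall y s, (1 : ℝ) = (2 * s) ^ 3 := by
    rw [setIntegral_const, smul_eq_mul, mul_one, Measure.real, Real.volume_pi_closedBall _ hs.le,
      ENNReal.toReal_ofReal (by positivity), Fintype.card_fin]
  simp only [one_pow, div_one] at h
  rw [h3] at h
  refine h.trans ?_
  calc _ ≤ δ ^ 3 / 512 / (δ / (16 * s)) ^ 2 + δ / (16 * s) * (2 * s) ^ 3 :=
        add_le_add (div_le_div_of_nonneg_right h2 (sq_nonneg _)) le_rfl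
    _ = δ * s ^ 2 := by field_simp; ring

end Pool.Agent.Lib.MP_a785f2_an.NH
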