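import Pool.Agent.Lib.MP_a785f2_an.NH.Moll
import Pool.Agent.Lib.MP_a785f2_an.NH.Mass
import Pool.Agent.Lib.MP_a785f2_an.NH.Young
import Pool.Agent.Lib.MP_a785f2_an.HS.Rep

open MeasureTheory Metric Set Filter Topology
open scoped ContDiff RealInnerProductSpace ENNReal Convolution

namespace Pool.Agent.Lib.MP_a785f2_an.NH

open HS

variable {m : ℕ} {H : Type} [NormedAddCommGroup H] [NormedSpace ℝ H]
  {a : V m → H →L[ℝ] V m →L[ℝ] V m} {b : V m → H} {L : ℝ}
  {Ω : Set (D 3)} {u : D 3 → V m} {G : D 3 → D 3 →L[ℝ] V m} {x0 : D 3} {t δ : ℝ}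

theorem En_mono (S : Sob Ω u G) {y : D 3} {s : ℝ} (h : dist y x0 + s ≤ t) :
    En G y s ≤ En G x0 t :=
  setIntegral_mono_set (S.powG (by norm_num)).integrableOn (ae_of_all _ fun x => by positivity)
    (closedBall_subset_closedBall' (by linarith)).eventuallyLE

theorem Ctx.move (X : Ctx Ω u G x0 t δ) {y : D 3} {s R η : ℝ} (hs : 0 < s) (hη : 0 < η)
    (hM : Mor G x0 R η) (h : dist y x0 + s ≤ R) (hR : R ≤ t) : Ctx Ω u G y s η :=
  ⟨X.sob, hs, (closedBall_subset_closedBall' (by linarith)).trans X.sub,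
    fun z r hr hz => hM z r hr (by linarith [dist_triangle z y x0]), hη⟩

theorem En_small (S : Sob Ω u G) (x0 : D 3) {ε : ℝ} (hε : 0 < ε) :
    ∀ᶠ r in 𝓝[>] (0 : ℝ), En G x0 r < ε := by
  have hv : Tendsto (fun r : ℝ => volume (closedBall x0 r)) (𝓝[>] 0) (𝓝 0) := by
    have c1 : Continuous fun r : ℝ => ENNReal.ofReal ((2 * r) ^ 3) :=
      ENNReal.continuous_ofReal.comp (by fun_prop)
    have c2 := c1.tendsto 0
    rw [show ENNReal.ofReal ((2 * (0 : ℝ)) ^ 3) = 0 by simp] at c2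
    refine (c2.mono_left nhdsWithin_le_nhds).congr' ?_
    filter_upwards [self_mem_nhdsWithin] with r hr
    rw [Real.volume_pi_closedBall _ (le_of_lt hr), Fintype.card_fin]
  exact ((S.powG (by norm_num)).tendsto_setIntegral_nhds_zero hv).eventually (gt_mem_nhds hε)

theorem tele_le {f : ℕ → V m} {N : ℕ} {c : ℝ} (hc : 0 ≤ c)
    (h : ∀ K j, N * K ≤ j → ‖f (j + 1) - f j‖ ≤ c / 2 ^ K) (K : ℕ) :
    ‖f (N * K) - f 0‖ ≤ 2 * N * c := by
  have a : ∀ K i : ℕ, ‖f (N * K + i) - f (N * K)‖ ≤ i * (c / 2 ^ K) := fun K i => by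
    induction i with
    | zero => simp
    | succ i ih =>
      have := norm_sub_le_norm_sub_add_norm_sub (f (N * K + i + 1)) (f (N * K + i)) (f (N * K))
      have := h K (N * K + i) (Nat.le_add_right _ _)
      rw [← add_assoc, Nat.cast_succ]
      linarith
  have b : ∀ K : ℕ, ‖f (N * K) - f 0‖ ≤ 2 * N * c - 2 * N * (c / 2 ^ K) := fun K => by
    induction K with
    | zero => simp
    | succ K ih =>
      have := norm_sub_le_norm_sub_add_norm_sub (f (N * K + N)) (f (N * K)) (f 0)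
      have := a K N
      rw [Nat.mul_succ, pow_succ, ← div_div]
      linarith
  exact (b K).trans (sub_le_self _ (by positivity))

/-- Iteration of the decay. -/
theorem mor_iter (S : Sob Ω u G) {δ0 ε0 : ℝ} {N : ℕ}
    (dec : ∀ (x0 : D 3) (t δ : ℝ), Ctx Ω u G x0 t δ → δ ≤ δ0 → En G x0 t ≤ ε0 →
      mass G x0 (t / 2 ^ N) ≤ δ / 2 * (t / 2 ^ N) ^ 2)
    (X : Ctx Ω u G x0 t δ) (h1 : δ ≤ δ0) (h2 : En G x0 t ≤ ε0) (k : ℕ) :
    Mor G x0 (t / (2 ^ N) ^ k) (δ / 2 ^ k) := by
  induction k with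
  | zero => simpa using X.mor
  | succ k ih =>
    intro y s hs hy
    have q1 : (1 : ℝ) ≤ 2 ^ N := one_le_pow₀ one_le_two
    have q0 : (0 : ℝ) < 2 ^ N := by positivity
    have dp := X.dp
    have hR : t / (2 ^ N) ^ k ≤ t := div_le_self X.tp.le (one_le_pow₀ q1)
    have hy' : dist y x0 + s * 2 ^ N ≤ t / (2 ^ N) ^ k := by
      rw [pow_succ, ← div_div, le_div_iff₀ q0] at hy
      nlinarith [le_mul_of_one_le_right (dist_nonneg (x := y) (y := x0)) q1]
    have := dec y (s * 2 ^ N) (δ / 2 ^ k) (X.move (by positivity) (by positivity) ih hy' hR)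
      ((div_le_self dp.le (one_le_pow₀ one_le_two)).trans h1)
      ((En_mono S (hy'.trans hR)).trans h2)
    rwa [mul_div_cancel_right₀ _ q0.ne', div_div, ← pow_succ] at this

/-- From the decay to a continuous representative. -/
theorem rep_of_decay (S : Sob Ω u G) {δ0 ε0 : ℝ} {N : ℕ} (h1 : 0 < δ0) (h2 : 0 < ε0)
    (hN : 1 ≤ N)
    (dec : ∀ (x0 : D 3) (t δ : ℝ), Ctx Ω u G x0 t δ → δ ≤ δ0 → En G x0 t ≤ ε0 →
      mass G x0 (t / 2 ^ N) ≤ δ / 2 * (t / 2 ^ N) ^ 2) : Rep Ω u := by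
  refine HS.rep S.op fun x0 hx γ hγ => ?_
  obtain ⟨ρ, hρ, hρΩ⟩ := Metric.nhds_basis_closedBall.mem_iff.1 (S.op.mem_nhds hx)
  have N0 : (0 : ℝ) < N := by exact_mod_cast hN
  set δ := min δ0 (γ / (144 * N)) with hδ
  have dp : 0 < δ := lt_min h1 (by positivity)
  have d2 : 2 * N * (36 * δ) ≤ γ / 2 := by
    have := (le_div_iff₀ (by positivity)).1 (min_le_right δ0 (γ / (144 * N)))
    linarith
  have e1 := En_small S x0 h2
  have e2 := En_small S x0 (ε := δ ^ 3 / 512) (by positivity)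
  have e3 : ∀ᶠ r in 𝓝[>] (0 : ℝ), r < ρ := nhdsWithin_le_nhds (gt_mem_nhds hρ)
  obtain ⟨R, ⟨⟨k1, k2⟩, k3⟩, hR⟩ := (((e1.and e2).and e3).and self_mem_nhdsWithin).exists
  have R0 : 0 < R := hR
  have X : Ctx Ω u G x0 R δ :=
    ⟨S, R0, (closedBall_subset_closedBall k3.le).trans hρΩ, mor_start S dp k2.le, dp⟩
  set s := R / 4 with hs
  have s0 : 0 < s := by positivity
  obtain ⟨r, r0, hr⟩ := Metric.continuousAt_iff.1
    ((mol_smooth (by norm_num) S s).continuous.continuousAt (x := x0)) (γ / 2) (half_pos hγ)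
  refine ⟨min r s, lt_min r0 s0, mol s u x0, ?_⟩
  have A := (mol_apx (by norm_num) S s0 (x0 := x0) (R := s)
    ((closedBall_subset_closedBall (by linarith)).trans X.sub)).ae
  have sub : ball x0 (min r s) ⊆ closedBall x0 s :=
    ball_subset_closedBall.trans (closedBall_subset_closedBall (min_le_right _ _))
  filter_upwards [ae_restrict_of_ae_restrict_of_subset sub A, ae_restrict_mem measurableSet_ball]
    with x lim hxb
  have xs : dist x x0 ≤ s := sub hxb
  have hin : dist x x0 + 2 * s ≤ R := by linarith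
  have Y : Ctx Ω u G x (2 * s) δ := X.move (by positivity) dp X.mor hin le_rfl
  have step : ∀ K j, N * K ≤ j →
      ‖mol (s / 2 ^ (j + 1)) u x - mol (s / 2 ^ j) u x‖ ≤ 36 * δ / 2 ^ K := fun K j hj => by
    have p : 0 < s / 2 ^ j := by positivity
    have le1 : 2 * (s / 2 ^ j) ≤ 2 * s / (2 ^ N) ^ K := by
      rw [← pow_mul, mul_div_assoc]
      exact mul_le_mul_of_nonneg_left (div_le_div_of_nonneg_left s0.le (by positivity)
        (pow_le_pow_right₀ one_le_two hj)) zero_le_two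
    have le2 : 2 * (s / 2 ^ j) ≤ 2 * s :=
      mul_le_mul_of_nonneg_left (div_le_self s0.le (one_le_pow₀ one_le_two)) zero_le_two
    have m1 := mor_iter S dec Y (min_le_left _ _) ((En_mono S hin).trans k1.le) K x
      (2 * (s / 2 ^ j)) (by positivity) (by rwa [dist_self, zero_add])
    have m2 := mol_diff (by norm_num) S p ((closedBall_subset_closedBall le2).trans Y.sub)
    rw [div_div, ← pow_succ] at m2
    refine m2.trans ?_
    rw [div_le_iff₀ (by positivity)]
    refine (mul_le_mul_of_nonneg_left m1 (by positivity)).trans (le_of_eq ?_)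
    norm_num
    ring
  have t1 : Tendsto (fun K : ℕ => N * K) atTop atTop :=
    tendsto_atTop_mono (fun K => Nat.le_mul_of_pos_left K hN) tendsto_id
  have t2 := le_of_tendsto' ((lim.comp t1).sub_const (mol (s / 2 ^ 0) u x)).norm
    (tele_le (f := fun j => mol (s / 2 ^ j) u x) (by positivity) step)
  rw [pow_zero, div_one] at t2
  have t3 := hr (lt_of_lt_of_le (mem_ball.1 hxb) (min_le_left _ _))
  rw [dist_eq_norm] at t3
  linarith [norm_sub_le_norm_sub_add_norm_sub (u x) (mol s u x) (mol s u x0)]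

end Pool.Agent.Lib.MP_a785f2_an.NH
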