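import Pool.Agent.Lib.MP_a785f2_an.NH.Pass
import Pool.Agent.Lib.MP_a785f2_an.NH.Young

open MeasureTheory Metric Set Filter Topology
open scoped ContDiff RealInnerProductSpace ENNReal Convolution

namespace Pool.Agent.Lib.MP_a785f2_an.NH

open HS

variable {m : ℕ} {H : Type} [NormedAddCommGroup H] [NormedSpace ℝ H]
  {a : V m → H →L[ℝ] V m →L[ℝ] V m} {b : V m → H} {L : ℝ}
  {Ω : Set (D 3)} {u : D 3 → V m} {G : D 3 → D 3 →L[ℝ] V m} {x0 : D 3} {t δ : ℝ}

theorem dec_int (S : Sob Ω u G) {w : D 3 → ℝ} (hw : Continuous w) (h1 : ∀ x, 1 ≤ w x) :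
    Integrable (fun x => ‖G x‖ ^ 3 / w x ^ 3) volume := by
  refine (S.powG (by norm_num)).mono' ((S.mG.norm.measurable.pow_const 3).div
    (hw.measurable.pow_const 3)).aestronglyMeasurable (ae_of_all _ fun x => ?_)
  have h2 : 1 ≤ w x ^ 3 := one_le_pow₀ (h1 x)
  rw [Real.norm_of_nonneg (by positivity)]
  exact div_le_self (by positivity) h2

theorem dec_ctx (X : Ctx Ω u G x0 t δ) {s : ℝ} (hs : 0 < s) (h : s ≤ t) :
    Ctx Ω u G x0 s δ ∧ En G x0 s ≤ En G x0 t :=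
  ⟨⟨X.sob, hs, (closedBall_subset_closedBall h).trans X.sub,
    fun y r h1 h2 => X.mor y r h1 (h2.trans h), X.dp⟩,
   setIntegral_mono_set (X.sob.powG (by norm_num)).integrableOn
    (ae_of_all _ fun x => by positivity) (closedBall_subset_closedBall h).eventuallyLE⟩

theorem dec_alg {Z C γ δ s P η : ℝ} (hγ : 0 < γ) (hδ : 0 < δ) (hs : 0 < s)
    (hZ : Z ≤ γ ^ 2 * (η / 2) * δ ^ 3) (hP : P ≤ C * s ^ 3) (hC : C * γ ≤ η / 2) :
    Z / (γ * δ / s) ^ 2 + γ * δ / s * P ≤ η * δ * s ^ 2 := by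
  have h1 : Z / (γ * δ / s) ^ 2 ≤ η / 2 * δ * s ^ 2 := by
    rw [div_le_iff₀ (by positivity)]
    refine hZ.trans (le_of_eq ?_)
    field_simp
  have h2 : γ * δ / s * P ≤ η / 2 * δ * s ^ 2 := by
    calc γ * δ / s * P ≤ γ * δ / s * (C * s ^ 3) :=
          mul_le_mul_of_nonneg_left hP (by positivity)
      _ = C * γ * (δ * s ^ 2) := by field_simp
      _ ≤ η / 2 * (δ * s ^ 2) := mul_le_mul_of_nonneg_right hC (by positivity)
      _ = _ := by ring
  linarith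

/-- Decay of the Morrey quotient at the centre. -/
theorem decay (T : Str a b L) : ∃ δ0 ε0 : ℝ, ∃ N : ℕ, 0 < δ0 ∧ 0 < ε0 ∧ 1 ≤ N ∧
    ∀ (Ω : Set (D 3)) (u : D 3 → V m) (G : D 3 → D 3 →L[ℝ] V m) (x0 : D 3) (t δ : ℝ),
      Ctx Ω u G x0 t δ → Eqn a b Ω u G → δ ≤ δ0 → En G x0 t ≤ ε0 →
        mass G x0 (t / 2 ^ N) ≤ δ / 2 * (t / 2 ^ N) ^ 2 := by
  obtain ⟨C, hC, P⟩ := pass T
  have C0 : 0 < C := lt_of_lt_of_le one_pos hC
  have k0 : 0 < kap L := by
    have := T.L1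
    unfold kap
    positivity
  set η : ℝ := 1 / (128 * C ^ 3) with hη
  have η0 : 0 < η := by positivity
  have η1 : η ≤ 1 := by
    rw [hη, div_le_one (by positivity)]
    nlinarith [one_le_pow₀ hC (n := 3)]
  set γ : ℝ := η / (2 * C) with hγ
  have γ0 : 0 < γ := by positivity
  obtain ⟨K, hK⟩ := exists_nat_ge (4 * C / (γ ^ 2 * η))
  have K0 : (0 : ℝ) < K := lt_of_lt_of_le (by positivity) hK
  have K1 : 1 ≤ K := by exact_mod_cast K0
  refine ⟨1 / (100 * kap L * K), η / K, K + 1, by positivity, by positivity, by omega,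
    fun Ω u G x0 t δ X hE h1 h2 => ?_⟩
  have δ0 := X.dp
  have t0 := X.tp
  have hs : 100 * kap L * δ * K ≤ 1 := by
    rw [le_div_iff₀ (by positivity)] at h1
    linarith
  have hKE : K * En G x0 t ≤ η := by
    rw [le_div_iff₀ K0] at h2
    linarith
  have m1 : ∫ y in closedBall x0 t \ closedBall x0 (t / 2), ‖G y‖ ≤ 1 * δ * t ^ 2 := by
    have h3 := X.mor x0 t t0 (by simp)
    rw [one_mul]
    exact (setIntegral_mono_set (X.sob.locG (by norm_num) x0 t)
      (ae_of_all _ fun _ => norm_nonneg _) sdiff_subset.eventuallyLE).trans h3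
  obtain ⟨w, wc, w1, Z1, M1⟩ := P Ω u G x0 t δ X hE K K1 hs 1 one_pos le_rfl m1
  have f0 : ∀ x, 0 ≤ ‖G x‖ ^ 3 / w x ^ 3 := fun x =>
    div_nonneg (by positivity) (pow_nonneg (zero_le_one.trans (w1 x)) 3)
  obtain ⟨i, i1, iK, hi⟩ := shell_pick (x0 := x0) f0 t0 (dec_int X.sob wc w1).integrableOn K1
  have s0 : 0 < t / 2 ^ i := by positivity
  obtain ⟨X2, E2⟩ := dec_ctx X s0 (div_le_self t0.le (one_le_pow₀ one_le_two))
  have m2 : ∫ y in closedBall x0 (t / 2 ^ i) \ closedBall x0 (t / 2 ^ i / 2), ‖G y‖ ≤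
      η * δ * (t / 2 ^ i) ^ 2 := by
    refine (mass_young X.sob wc w1 (measurableSet_closedBall.diff measurableSet_closedBall)
      sdiff_subset (θ := γ * δ / (t / 2 ^ i)) (by positivity)).trans
      (dec_alg γ0 δ0 s0 ?_ (M1 i i1 iK) (le_of_eq (by rw [hγ]; field_simp)))
    refine le_of_mul_le_mul_left (hi.trans (Z1.trans ?_)) K0
    rw [div_le_iff₀ (by positivity)] at hK
    have h4 : C * (1 + K * En G x0 t) ≤ K * (γ ^ 2 * (η / 2)) := by nlinarith
    calc C * (1 + K * En G x0 t) * δ ^ 3 ≤ K * (γ ^ 2 * (η / 2)) * δ ^ 3 :=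
          mul_le_mul_of_nonneg_right h4 (by positivity)
      _ = _ := by ring
  obtain ⟨v, vc, v1, Z2, M2⟩ := P Ω u G x0 (t / 2 ^ i) δ X2 hE K K1 hs η η0 η1 m2
  have e1 : t / 2 ^ i / 2 ^ (K + 1 - i) = t / 2 ^ (K + 1) := by
    rw [div_div, ← pow_add]
    congr 2
    omega
  have M3 := M2 (K + 1 - i) (by omega) (by omega)
  rw [e1] at M3
  have s1 : 0 < t / 2 ^ (K + 1) := by positivity
  have sub : closedBall x0 (t / 2 ^ (K + 1)) ⊆ closedBall x0 (t / 2 ^ i / 2) := by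
    refine closedBall_subset_closedBall ?_
    rw [div_div, ← pow_succ]
    exact div_le_div_of_nonneg_left t0.le (by positivity)
      (pow_le_pow_right₀ one_le_two (by omega))
  have Z3 : ∫ x in closedBall x0 (t / 2 ^ (K + 1)), ‖G x‖ ^ 3 / v x ^ 3 ≤
      (1 / (4 * C)) ^ 2 * (1 / 2 / 2) * δ ^ 3 := by
    refine (setIntegral_mono_set (dec_int X.sob vc v1).integrableOn
      (ae_of_all _ fun x => div_nonneg (by positivity)
        (pow_nonneg (zero_le_one.trans (v1 x)) 3)) sub.eventuallyLE).trans (Z2.trans ?_)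
    refine mul_le_mul_of_nonneg_right ?_ (by positivity)
    have h5 : K * En G x0 (t / 2 ^ i) ≤ η := (mul_le_mul_of_nonneg_left E2 K0.le).trans hKE
    calc C * (η + K * En G x0 (t / 2 ^ i)) ≤ C * (η + η) :=
          mul_le_mul_of_nonneg_left (by linarith) C0.le
      _ = _ := by rw [hη]; field_simp; ring
  have h6 := (mass_young X.sob vc v1 measurableSet_closedBall Subset.rfl
    (θ := 1 / (4 * C) * δ / (t / 2 ^ (K + 1))) (by positivity)).trans
    (dec_alg (η := 1 / 2) (by positivity) δ0 s1 Z3 M3 (le_of_eq (by field_simp; ring)))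
  refine h6.trans (le_of_eq ?_)
  ring

end Pool.Agent.Lib.MP_a785f2_an.NH
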