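import Pool.Agent.Lib.MP_a785f2_an.NH.Sob

/-!
Vocabulary for the continuity theorem for potentials of the form `a(u) (Db(u) ∇u)`.
-/

open MeasureTheory Metric Set Filter Topology
open scoped ContDiff RealInnerProductSpace ENNReal Convolution

namespace Pool.Agent.Lib.MP_a785f2_an.NH

open HS

variable {n m : ℕ} {H : Type} [NormedAddCommGroup H] [NormedSpace ℝ H]

/-- The structure functions of the potential. -/
structure Str (a : V m → H →L[ℝ] V m →L[ℝ] V m) (b : V m → H) (L : ℝ) : Prop where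
  L1 : 1 ≤ L
  ca : ContDiff ℝ 1 a
  cb : ContDiff ℝ 1 b
  ba : ∀ q, ‖a q‖ ≤ L
  da : ∀ q v, ‖fderiv ℝ a q v‖ ≤ L * ‖v‖
  db : ∀ q, ‖fderiv ℝ b q‖ ≤ L
  anti : ∀ q p v, ⟪a q p v, v⟫ = 0

/-- The linear map `v ↦ a q (Db q (A v)) w`. -/
noncomputable def om (a : V m → H →L[ℝ] V m →L[ℝ] V m) (b : V m → H) (q : V m)
    (A : D n →L[ℝ] V m) (w : V m) : D n →L[ℝ] V m :=
  ((a q).flip w).comp ((fderiv ℝ b q).comp A)

/-- The connection form at the point `q`. -/
noncomputable def con (a : V m → H →L[ℝ] V m →L[ℝ] V m) (b : V m → H) (q : V m) :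
    V m →L[ℝ] V m →L[ℝ] V m := (a q).comp (fderiv ℝ b q)

/-- Sobolev map on the open set `Ω`, data measurable and extended to the whole space. -/
structure Sob (Ω : Set (D n)) (u : D n → V m) (G : D n → D n →L[ℝ] V m) : Prop where
  op : IsOpen Ω
  mu : StronglyMeasurable u
  mG : StronglyMeasurable G
  lu : MemLp u n volume
  lG : MemLp G n volume
  wk : ∀ φ : D n → ℝ, ContDiff ℝ ∞ φ → HasCompactSupport φ → tsupport φ ⊆ Ω → ∀ v : D n,
    ∫ x, fderiv ℝ φ x v • u x = -∫ x, φ x • G x v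

/-- The weak equation, tested with compactly supported fields of class one. -/
def Eqn (a : V m → H →L[ℝ] V m →L[ℝ] V m) (b : V m → H) (Ω : Set (D n)) (u : D n → V m)
    (G : D n → D n →L[ℝ] V m) : Prop :=
  ∀ φ : D n → V m, ContDiff ℝ 1 φ → HasCompactSupport φ → tsupport φ ⊆ Ω →
    ∫ x, pr (G x) (fderiv ℝ φ x + om a b (u x) (G x) (φ x)) = 0

/-- The bump of outer radius `s`. -/
noncomputable def bmp (n : ℕ) (s : ℝ) : ContDiffBump (0 : D n) :=
  if h : 0 < s then ⟨s / 2, s, half_pos h, half_lt_self h⟩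
  else ⟨1 / 2, 1, one_half_pos, one_half_lt_one⟩

/-- Mollification at scale `s`. -/
noncomputable def mol (s : ℝ) (u : D n → V m) : D n → V m :=
  (bmp n s).normed volume ⋆[ContinuousLinearMap.lsmul ℝ ℝ, volume] u

/-- Integral of the norm of the gradient over a cube. -/
noncomputable def mass (G : D n → D n →L[ℝ] V m) (x : D n) (t : ℝ) : ℝ :=
  ∫ y in closedBall x t, ‖G y‖

/-- The bracket. -/
noncomputable def br (w : V m) : ℝ := √(1 + ‖w‖ ^ 2)

/-- One step of the development. -/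
noncomputable def nxt (a : V m → H →L[ℝ] V m →L[ℝ] V m) (b : V m → H) (U U' W : D n → V m)
    (x : D n) : V m :=
  W x + br (W x) • (U' x - U x) - a (U x) (b (U' x) - b (U x)) (W x)

/-- The discrete development of the chain `U 0 x, U 1 x, ...`. -/
noncomputable def dev (a : V m → H →L[ℝ] V m →L[ℝ] V m) (b : V m → H) (U : ℕ → D n → V m)
    (c : V m) : ℕ → D n → V m
  | 0 => fun x => U 0 x - c
  | j + 1 => nxt a b (U j) (U (j + 1)) (dev a b U c j)

/-- The defect of `W` along `U`. -/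
noncomputable def dfc (a : V m → H →L[ℝ] V m →L[ℝ] V m) (b : V m → H) (U W : D n → V m)
    (x : D n) : D n →L[ℝ] V m :=
  fderiv ℝ W x - br (W x) • fderiv ℝ U x + om a b (U x) (fderiv ℝ U x) (W x)

/-- The relative size of the defect. -/
noncomputable def sg (a : V m → H →L[ℝ] V m →L[ℝ] V m) (b : V m → H) (U W : D n → V m)
    (x : D n) : ℝ := ‖dfc a b U W x‖ / br (W x)

/-- The weight. -/
noncomputable def wt (h : ℝ) (w : V m) : ℝ := √(1 + ‖w‖ ^ 2 / h ^ 2)

/-- Morrey bound on all cubes inside the cube of radius `R`. -/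
def Mor (G : D 3 → D 3 →L[ℝ] V m) (x0 : D 3) (R δ : ℝ) : Prop :=
  ∀ y t, 0 < t → dist y x0 + t ≤ R → mass G y t ≤ δ * t ^ 2

/-- Energy in a cube. -/
noncomputable def En (G : D 3 → D 3 →L[ℝ] V m) (x0 : D 3) (R : ℝ) : ℝ :=
  ∫ x in closedBall x0 R, ‖G x‖ ^ 3

/-- The data of one pass. -/
structure Ctx (Ω : Set (D 3)) (u : D 3 → V m) (G : D 3 → D 3 →L[ℝ] V m) (x0 : D 3) (t δ : ℝ) :
    Prop where
  sob : Sob Ω u G
  tp : 0 < t
  sub : closedBall x0 t ⊆ Ω
  mor : Mor G x0 t δ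
  dp : 0 < δ

/-- The scales of a pass of radius `t`. -/
noncomputable def sc (t : ℝ) (j : ℕ) : ℝ := t / 16 / 2 ^ j

/-- The chain of mollifications of a pass. -/
noncomputable def UU (u : D 3 → V m) (t : ℝ) (j : ℕ) : D 3 → V m := mol (sc t j) u

/-- The development of a pass, started at a corner of the shell. -/
noncomputable def WW (a : V m → H →L[ℝ] V m →L[ℝ] V m) (b : V m → H) (u : D 3 → V m)
    (x0 : D 3) (t : ℝ) : ℕ → D 3 → V m :=
  dev a b (UU u t) (UU u t 0 fun i => x0 i + 13 * t / 16)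

/-- The scale invariant local mass. -/
noncomputable def zz (G : D 3 → D 3 →L[ℝ] V m) (t : ℝ) (j : ℕ) (x : D 3) : ℝ :=
  mass G x (2 * sc t j) / (2 * sc t j) ^ 2

/-- The weighted sum of the local masses from scale `i` on. -/
noncomputable def lam (G : D 3 → D 3 →L[ℝ] V m) (t δ : ℝ) (i J : ℕ) (x : D 3) : ℝ :=
  ∑ k ∈ Finset.range (J - i), (3 / 2) ^ k * zz G t (i + k) x / δ

/-- The constant of the recursion. -/
noncomputable def kap (L : ℝ) : ℝ := 32000 * L ^ 4

/-- The shell that carries the gradient of the cut-off. -/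
def Sh (x0 : D 3) (t : ℝ) : Set (D 3) := closedBall x0 (13 * t / 16) \ ball x0 (11 * t / 16)

/-- A cut-off function for a pass of radius `t`. -/
structure Cut (χ : D 3 → ℝ) (x0 : D 3) (t B : ℝ) : Prop where
  sm : ContDiff ℝ 1 χ
  supp : tsupport χ ⊆ closedBall x0 (13 * t / 16)
  lo : ∀ x, 0 ≤ χ x
  hi : ∀ x, χ x ≤ 1
  one : ∀ x ∈ closedBall x0 (t / 2), χ x = 1
  der : ∀ x, ‖fderiv ℝ χ x‖ ≤ B / t
  zero : ∀ x ∈ ball x0 (11 * t / 16), fderiv ℝ χ x = 0

theorem Str.lb {a : V m → H →L[ℝ] V m →L[ℝ] V m} {b : V m → H} {L : ℝ} (S : Str a b L)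
    (q q' : V m) : ‖b q - b q'‖ ≤ L * ‖q - q'‖ :=
  convex_univ.norm_image_sub_le_of_norm_fderiv_le
    (fun x _ => S.cb.differentiable one_ne_zero x) (fun x _ => S.db x) (mem_univ q') (mem_univ q)

theorem Str.la {a : V m → H →L[ℝ] V m →L[ℝ] V m} {b : V m → H} {L : ℝ} (S : Str a b L)
    (q q' : V m) : ‖a q - a q'‖ ≤ L * ‖q - q'‖ := by
  have h1 : ∀ t : ℝ, HasDerivAt (fun t : ℝ => a (q' + t • (q - q')))
      (fderiv ℝ a (q' + t • (q - q')) (q - q')) t := fun t => by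
    have h2 : HasDerivAt (fun t : ℝ => q' + t • (q - q')) (q - q') t := by
      simpa using ((hasDerivAt_id t).smul_const (q - q')).const_add q'
    exact (S.ca.differentiable one_ne_zero _).hasFDerivAt.comp_hasDerivAt t h2
  have h3 := norm_image_sub_le_of_norm_deriv_le_segment_01' (C := L * ‖q - q'‖)
    (f' := fun t => fderiv ℝ a (q' + t • (q - q')) (q - q'))
    (fun t _ => (h1 t).hasDerivWithinAt) (fun t _ => S.da (q' + t • (q - q')) (q - q'))
  simpa using h3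

theorem om_apply (a : V m → H →L[ℝ] V m →L[ℝ] V m) (b : V m → H) (q : V m)
    (A : D n →L[ℝ] V m) (w : V m) (v : D n) :
    om a b q A w v = a q (fderiv ℝ b q (A v)) w := rfl

theorem con_apply (a : V m → H →L[ℝ] V m →L[ℝ] V m) (b : V m → H) (q v w : V m) :
    con a b q v w = a q (fderiv ℝ b q v) w := rfl

theorem one_le_br (w : V m) : 1 ≤ br w :=
  Real.one_le_sqrt.2 (le_add_of_nonneg_right (sq_nonneg _))

theorem br_pos (w : V m) : 0 < br w := lt_of_lt_of_le one_pos (one_le_br w)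

theorem norm_le_br (w : V m) : ‖w‖ ≤ br w :=
  Real.le_sqrt_of_sq_le (le_add_of_nonneg_left zero_le_one)

theorem br_le (w : V m) : br w ≤ 1 + ‖w‖ :=
  Real.sqrt_le_iff.2 ⟨by positivity, by nlinarith [norm_nonneg w]⟩

theorem one_le_wt (h : ℝ) (w : V m) : 1 ≤ wt h w :=
  Real.one_le_sqrt.2 (le_add_of_nonneg_right (by positivity))

theorem wt_sq (h : ℝ) (w : V m) : wt h w ^ 2 = 1 + ‖w‖ ^ 2 / h ^ 2 :=
  Real.sq_sqrt (by positivity)

theorem continuous_wt (h : ℝ) : Continuous (wt h : V m → ℝ) := by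
  unfold wt; fun_prop

theorem continuous_br : Continuous (br : V m → ℝ) := by
  unfold br; fun_prop

theorem sg_nonneg (a : V m → H →L[ℝ] V m →L[ℝ] V m) (b : V m → H) (U W : D n → V m)
    (x : D n) : 0 ≤ sg a b U W x := div_nonneg (norm_nonneg _) (br_pos _).le

theorem mass_nonneg (G : D n → D n →L[ℝ] V m) (x : D n) (t : ℝ) : 0 ≤ mass G x t :=
  integral_nonneg fun _ => norm_nonneg _

theorem zz_nonneg (G : D 3 → D 3 →L[ℝ] V m) (t : ℝ) (j : ℕ) (x : D 3) : 0 ≤ zz G t j x :=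
  div_nonneg (mass_nonneg _ _ _) (sq_nonneg _)

theorem sc_pos {t : ℝ} (ht : 0 < t) (j : ℕ) : 0 < sc t j := by
  unfold sc; positivity

theorem sc_le {t : ℝ} (ht : 0 < t) (j : ℕ) : sc t j ≤ t / 16 :=
  div_le_self (by positivity) (one_le_pow₀ one_le_two)

theorem sc_succ (t : ℝ) (j : ℕ) : sc t (j + 1) = sc t j / 2 := by
  unfold sc; rw [pow_succ]; ring

theorem GSol.sob {Ω : Set (D n)} {u : D n → V m} {G : D n → D n →L[ℝ] V m} {F : D n → V m}
    (S : GSol Ω u G F) : Sob Ω u G := ⟨S.op, S.mu, S.mG, S.lu, S.lG, S.wk⟩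

theorem Sob.locG (hn : 1 ≤ n) {Ω : Set (D n)} {u : D n → V m} {G : D n → D n →L[ℝ] V m}
    (S : Sob Ω u G) (x : D n) (t : ℝ) : IntegrableOn (fun y => ‖G y‖) (closedBall x t) := by
  have h1 : (1 : ℝ≥0∞) ≤ n := by exact_mod_cast hn
  exact ((S.lG.locallyIntegrable h1).integrableOn_isCompact (isCompact_closedBall x t)).norm

theorem Sob.powG (hn : 1 ≤ n) {Ω : Set (D n)} {u : D n → V m} {G : D n → D n →L[ℝ] V m}
    (S : Sob Ω u G) : Integrable (fun y => ‖G y‖ ^ n) volume :=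
  S.lG.integrable_norm_pow (by omega)

end Pool.Agent.Lib.MP_a785f2_an.NH
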