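import Mathlib

/-! The orthogonal projection onto the kernel of a surjection, and a global field of such maps. -/

open Metric Set Filter Topology
open scoped ContDiff RealInnerProductSpace Manifold

namespace Pool.Agent.Lib.MP_a785f2_an.NH

section

variable {X Y : Type} [NormedAddCommGroup X] [InnerProductSpace ℝ X] [FiniteDimensional ℝ X]
  [CompleteSpace X] [NormedAddCommGroup Y] [InnerProductSpace ℝ Y] [FiniteDimensional ℝ Y]
  [CompleteSpace Y]

/-- The Gram map of `A`. -/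
noncomputable def gram (A : X →L[ℝ] Y) : Y →L[ℝ] Y := A.comp (ContinuousLinearMap.adjoint A)

/-- The orthogonal projection onto the kernel of a surjection. -/
noncomputable def kproj (A : X →L[ℝ] Y) : X →L[ℝ] X :=
  ContinuousLinearMap.id ℝ X -
    (ContinuousLinearMap.adjoint A).comp ((Ring.inverse (gram A)).comp A)

omit [FiniteDimensional ℝ X] [FiniteDimensional ℝ Y] in
theorem gram_symm (A : X →L[ℝ] Y) (y z : Y) : ⟪gram A y, z⟫ = ⟪y, gram A z⟫ := by
  unfold gram
  simp only [ContinuousLinearMap.comp_apply]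
  rw [← ContinuousLinearMap.adjoint_inner_right A, ← ContinuousLinearMap.adjoint_inner_left A]

omit [FiniteDimensional ℝ X] in
theorem gram_isUnit {A : X →L[ℝ] Y} (hA : Function.Surjective A) : IsUnit (gram A) := by
  rw [ContinuousLinearMap.isUnit_iff_bijective]
  have hi : Function.Injective (gram A) := by
    refine (injective_iff_map_eq_zero (gram A)).2 fun y hy => ?_
    have h1 : ⟪ContinuousLinearMap.adjoint A y, ContinuousLinearMap.adjoint A y⟫ = 0 := by
      rw [ContinuousLinearMap.adjoint_inner_left A]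
      have : A (ContinuousLinearMap.adjoint A y) = 0 := hy
      rw [this, inner_zero_right]
    have h2 : ContinuousLinearMap.adjoint A y = 0 := inner_self_eq_zero.1 h1
    obtain ⟨x, rfl⟩ := hA y
    have h3 : ⟪A x, A x⟫ = 0 := by
      rw [← ContinuousLinearMap.adjoint_inner_left A, h2, inner_zero_left]
    exact inner_self_eq_zero.1 h3
  exact ⟨hi, (LinearMap.injective_iff_surjective (f := (gram A).toLinearMap)).1 hi⟩

omit [FiniteDimensional ℝ X] in
theorem gram_inv {A : X →L[ℝ] Y} (hA : Function.Surjective A) (y : Y) :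
    gram A (Ring.inverse (gram A) y) = y := by
  have h := Ring.mul_inverse_cancel _ (gram_isUnit hA)
  have h2 : (gram A * Ring.inverse (gram A)) y = y := by rw [h]; rfl
  exact h2

omit [FiniteDimensional ℝ X] in
theorem inv_symm {A : X →L[ℝ] Y} (hA : Function.Surjective A) (y z : Y) :
    ⟪Ring.inverse (gram A) y, z⟫ = ⟪y, Ring.inverse (gram A) z⟫ := by
  have h := gram_symm A (Ring.inverse (gram A) y) (Ring.inverse (gram A) z)
  rw [gram_inv hA, gram_inv hA] at h
  exact h.symm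

omit [FiniteDimensional ℝ X] [FiniteDimensional ℝ Y] in
theorem kproj_apply (A : X →L[ℝ] Y) (a : X) :
    kproj A a = a - ContinuousLinearMap.adjoint A (Ring.inverse (gram A) (A a)) := rfl

omit [FiniteDimensional ℝ X] in
theorem kproj_symm {A : X →L[ℝ] Y} (hA : Function.Surjective A) (a b : X) :
    ⟪kproj A a, b⟫ = ⟪a, kproj A b⟫ := by
  rw [kproj_apply, kproj_apply, inner_sub_left, inner_sub_right,
    ContinuousLinearMap.adjoint_inner_left, ContinuousLinearMap.adjoint_inner_right, inv_symm hA]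

omit [FiniteDimensional ℝ X] in
theorem kproj_ker {A : X →L[ℝ] Y} (hA : Function.Surjective A) (a : X) :
    A (kproj A a) = 0 := by
  rw [kproj_apply, map_sub]
  have h : A (ContinuousLinearMap.adjoint A (Ring.inverse (gram A) (A a))) = A a :=
    gram_inv hA (A a)
  rw [h, sub_self]

omit [FiniteDimensional ℝ X] [FiniteDimensional ℝ Y] in
theorem kproj_of_ker {A : X →L[ℝ] Y} {a : X} (ha : A a = 0) : kproj A a = a := by
  rw [kproj_apply, ha, map_zero, map_zero, sub_zero]

theorem contDiff_adj :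
    ContDiff ℝ 1 (fun A : X →L[ℝ] Y => (ContinuousLinearMap.adjoint A : Y →L[ℝ] X)) := by
  let L : (X →L[ℝ] Y) →ₗ[ℝ] (Y →L[ℝ] X) :=
    { toFun := fun A => ContinuousLinearMap.adjoint A
      map_add' := fun A B => map_add _ A B
      map_smul' := fun c A => by
        rw [map_smulₛₗ]
        rfl }
  exact (LinearMap.toContinuousLinearMap L).contDiff

theorem contDiffAt_kproj {A : X →L[ℝ] Y} (hA : Function.Surjective A) :
    ContDiffAt ℝ 1 (fun B : X →L[ℝ] Y => kproj B) A := by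
  have h1 : ContDiff ℝ 1 (fun B : X →L[ℝ] Y => gram B) :=
    contDiff_id.clm_comp contDiff_adj
  obtain ⟨u, hu⟩ := gram_isUnit hA
  have h2 : ContDiffAt ℝ 1 (Ring.inverse : (Y →L[ℝ] Y) → (Y →L[ℝ] Y)) (gram A) := by
    rw [← hu]
    exact contDiffAt_ringInverse ℝ u
  have h3 : ContDiffAt ℝ 1 (fun B : X →L[ℝ] Y => Ring.inverse (gram B)) A :=
    h2.comp A h1.contDiffAt
  exact contDiffAt_const.sub
    (contDiff_adj.contDiffAt.clm_comp (h3.clm_comp contDiffAt_id))

end

/-- A global field of symmetric maps that is the projection onto `T q` along `N`, when `T q` is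
locally the kernel of the derivative of a `C^2` submersion. -/
theorem exists_proj_of_local {m : ℕ} {N : Set (EuclideanSpace ℝ (Fin m))} (hc : IsCompact N)
    (T : EuclideanSpace ℝ (Fin m) → Set (EuclideanSpace ℝ (Fin m)))
    (hT : ∀ p ∈ N, ∃ (k : ℕ) (U : Set (EuclideanSpace ℝ (Fin m)))
      (Φ : EuclideanSpace ℝ (Fin m) → EuclideanSpace ℝ (Fin k)), IsOpen U ∧ p ∈ U ∧
      ContDiffOn ℝ 2 Φ U ∧ (∀ q ∈ U, Function.Surjective (fderiv ℝ Φ q)) ∧
      ∀ q ∈ U, q ∈ N → ∀ v, v ∈ T q ↔ fderiv ℝ Φ q v = 0) :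
    ∃ P : EuclideanSpace ℝ (Fin m) → EuclideanSpace ℝ (Fin m) →L[ℝ] EuclideanSpace ℝ (Fin m),
      ContDiff ℝ 1 P ∧ HasCompactSupport P ∧ (∀ q a b, ⟪P q a, b⟫ = ⟪a, P q b⟫) ∧
      ∀ q ∈ N, (∀ a, P q a ∈ T q) ∧ ∀ a ∈ T q, P q a = a := by
  obtain ⟨R, hR⟩ := hc.isBounded.subset_ball (0 : EuclideanSpace ℝ (Fin m))
  let t : EuclideanSpace ℝ (Fin m) →
      Set (EuclideanSpace ℝ (Fin m) →L[ℝ] EuclideanSpace ℝ (Fin m)) := fun q =>
    {L | (∀ a b, ⟪L a, b⟫ = ⟪a, L b⟫) ∧ (q ∈ N → (∀ a, L a ∈ T q) ∧ ∀ a ∈ T q, L a = a) ∧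
      (q ∉ ball (0 : EuclideanSpace ℝ (Fin m)) R → L = 0)}
  have ht : ∀ q, Convex ℝ (t q) := by
    intro q L hL K hK c d _ _ hcd
    refine ⟨fun a b => ?_, fun hq => ⟨fun a => ?_, fun a ha => ?_⟩, fun hq => ?_⟩
    · simp only [add_apply, smul_apply, inner_add_left,
        inner_add_right, real_inner_smul_left, real_inner_smul_right, hL.1 a b, hK.1 a b]
    · obtain ⟨k, U, Φ, -, hqU, -, -, h⟩ := hT q hq
      rw [h q hqU hq]
      simp only [add_apply, smul_apply, map_add, map_smul,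
        (h q hqU hq _).1 ((hL.2.1 hq).1 a), (h q hqU hq _).1 ((hK.2.1 hq).1 a), smul_zero,
        add_zero]
    · simp only [add_apply, smul_apply,
        (hL.2.1 hq).2 a ha, (hK.2.1 hq).2 a ha]
      rw [← add_smul, hcd, one_smul]
    · refine ContinuousLinearMap.ext fun a => ?_
      simp only [hL.2.2 hq, hK.2.2 hq, add_apply, smul_apply, zero_apply, smul_zero, add_zero]
  have hloc : ∀ x : EuclideanSpace ℝ (Fin m), ∃ U ∈ 𝓝 x,
      ∃ g : EuclideanSpace ℝ (Fin m) → EuclideanSpace ℝ (Fin m) →L[ℝ] EuclideanSpace ℝ (Fin m),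
      ContMDiffOn 𝓘(ℝ, EuclideanSpace ℝ (Fin m))
        𝓘(ℝ, EuclideanSpace ℝ (Fin m) →L[ℝ] EuclideanSpace ℝ (Fin m)) (1 : ℕ∞) g U ∧
      ∀ y ∈ U, g y ∈ t y := by
    intro x
    by_cases hx : x ∈ N
    · obtain ⟨k, U, Φ, hU, hxU, hΦ, hs, h⟩ := hT x hx
      refine ⟨U ∩ ball 0 R, (hU.inter isOpen_ball).mem_nhds ⟨hxU, hR hx⟩,
        fun y => kproj (fderiv ℝ Φ y), ?_, fun y hy => ⟨kproj_symm (hs y hy.1), fun hyN =>
          ⟨fun a => (h y hy.1 hyN _).2 (kproj_ker (hs y hy.1) a),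
            fun a ha => kproj_of_ker ((h y hy.1 hyN _).1 ha)⟩, fun hb => absurd hy.2 hb⟩⟩
      rw [contMDiffOn_iff_contDiffOn]
      intro y hy
      have h1 : ContDiffAt ℝ 1 (fderiv ℝ Φ) y :=
        (hΦ.contDiffAt (hU.mem_nhds hy.1)).fderiv_right (by norm_num)
      exact ((contDiffAt_kproj (hs y hy.1)).comp y h1).contDiffWithinAt
    · refine ⟨Nᶜ, hc.isClosed.isOpen_compl.mem_nhds hx, fun _ => 0, contMDiffOn_const,
        fun y hy => ⟨fun a b => ?_, fun hyN => absurd hyN hy, fun _ => rfl⟩⟩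
      simp only [zero_apply, inner_zero_left, inner_zero_right]
  obtain ⟨g, hg⟩ := exists_contMDiffMap_forall_mem_convex_of_local
    𝓘(ℝ, EuclideanSpace ℝ (Fin m)) ht hloc
  refine ⟨g, contMDiff_iff_contDiff.1 g.contMDiff, ?_, fun q => (hg q).1, fun q => (hg q).2.1⟩
  exact HasCompactSupport.intro (isCompact_closedBall 0 R) fun q hq =>
    (hg q).2.2 fun hb => hq (ball_subset_closedBall hb)

end Pool.Agent.Lib.MP_a785f2_an.NH
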