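import Pool.Agent.Lib.MP_a785f2_an.NH.Stmt
import Pool.Agent.Lib.MP_a785f2_an.NH.Sob
import Pool.Agent.Lib.MP_a785f2_an.NH.ManP

/-! The field of tangent projections of a compact `C^2` submanifold. -/

open MeasureTheory Metric Set Filter Topology
open scoped ContDiff RealInnerProductSpace ENNReal

namespace Pool.Agent.Lib.MP_a785f2_an.NH

open HS

variable {n m : ℕ}

/-- The kernel of the derivative of a submersion is the tangent cone of its zero set. -/
theorem cone_eq {k : ℕ} {N U : Set (V m)} {Φ : V m → V k} (hU : IsOpen U)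
    (hΦ : ContDiffOn ℝ 2 Φ U) (hs : ∀ q ∈ U, Function.Surjective (fderiv ℝ Φ q))
    (hN : ∀ q ∈ U, q ∈ N ↔ Φ q = 0) {q : V m} (hq : q ∈ U) (hqN : q ∈ N) (v : V m) :
    v ∈ tangentConeAt ℝ N q ↔ fderiv ℝ Φ q v = 0 := by
  have hUq : U ∈ 𝓝 q := hU.mem_nhds hq
  have hat : ContDiffAt ℝ 2 Φ q := hΦ.contDiffAt hUq
  have hst : HasStrictFDerivAt Φ (fderiv ℝ Φ q) q := hat.hasStrictFDerivAt (by norm_num)
  have hq0 : Φ q = 0 := (hN q hq).1 hqN
  constructor
  · intro hv
    rw [← tangentConeAt_inter_nhds hUq] at hv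
    have h1 : HasFDerivWithinAt Φ (fderiv ℝ Φ q) (N ∩ U) q := hst.hasFDerivAt.hasFDerivWithinAt
    have h2 : HasFDerivWithinAt Φ (0 : V m →L[ℝ] V k) (N ∩ U) q := by
      refine (hasFDerivWithinAt_const (0 : V k) q (N ∩ U)).congr ?_ hq0
      intro x hx
      exact (hN x hx.2).1 hx.1
    simpa using h1.unique_on h2 hv
  · intro hv
    have hr : (fderiv ℝ Φ q).range = ⊤ := LinearMap.range_eq_top.2 (hs q hq)
    set g := hst.implicitFunction Φ (fderiv ℝ Φ q) hr (Φ q) with hg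
    have hg0 : g 0 = q := hst.implicitFunction_apply_image hr
    have hgd : HasStrictFDerivAt g (fderiv ℝ Φ q).ker.subtypeL 0 := hst.to_implicitFunction hr
    have hS : g ⁻¹' N ∈ 𝓝 (0 : (fderiv ℝ Φ q).ker) := by
      have e1 : ∀ᶠ y in 𝓝 (0 : (fderiv ℝ Φ q).ker), g y ∈ U := by
        apply hgd.continuousAt.preimage_mem_nhds
        rw [hg0]; exact hUq
      have t1 : Tendsto (fun y : (fderiv ℝ Φ q).ker => (Φ q, y)) (𝓝 0) (𝓝 (Φ q, 0)) :=
        tendsto_const_nhds.prodMk_nhds tendsto_id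
      have e2 := t1.eventually (hst.map_implicitFunction_eq hr)
      filter_upwards [e1, e2] with y h1 h2
      exact (hN _ h1).2 (h2.trans hq0)
    have hm := (hgd.hasFDerivAt.hasFDerivWithinAt (s := g ⁻¹' N)).mapsTo_tangent_cone
    have hv' : (⟨v, hv⟩ : (fderiv ℝ Φ q).ker) ∈ tangentConeAt ℝ (g ⁻¹' N) 0 := by
      rw [← univ_inter (g ⁻¹' N), tangentConeAt_inter_nhds hS, tangentConeAt_univ]
      trivial
    have h3 := hm hv'
    rw [hg0] at h3
    exact tangentConeAt_mono (image_preimage_subset g N) h3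

/-- A global `C^1` field of symmetric maps that is the tangent projection along `N`. -/
theorem exists_proj {N : Set (V m)} (hc : IsCompact N) (hN : IsC2Submanifold N) :
    ∃ P : V m → V m →L[ℝ] V m, ContDiff ℝ 1 P ∧ HasCompactSupport P ∧
      (∀ q a b, ⟪P q a, b⟫ = ⟪a, P q b⟫) ∧
      ∀ q ∈ N, (∀ a, P q a ∈ tangentConeAt ℝ N q) ∧ ∀ a ∈ tangentConeAt ℝ N q, P q a = a := by
  refine exists_proj_of_local hc (fun q => tangentConeAt ℝ N q) fun p hp => ?_
  obtain ⟨k, U, Φ, hU, hpU, hΦ, hs, h⟩ := hN p hp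
  exact ⟨k, U, Φ, hU, hpU, hΦ, hs, fun q hq hqN v => cone_eq hU hΦ hs h hq hqN v⟩

/-- Finitely many global functions that vanish on `N` and cut out the tangent spaces. -/
theorem exists_eqs {N : Set (V m)} (hc : IsCompact N) (hN : IsC2Submanifold N) :
    ∃ (ι : Type) (_ : Finite ι) (k : ι → ℕ) (Φ : ∀ i, V m → V (k i)),
      (∀ i, ContDiff ℝ 1 (Φ i) ∧ HasCompactSupport (Φ i) ∧ ∀ q ∈ N, Φ i q = 0) ∧
      ∀ q ∈ N, ∀ v, (∀ i, fderiv ℝ (Φ i) q v = 0) → v ∈ tangentConeAt ℝ N q := by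
  classical
  choose k U Φ hU hp hΦ hs hz using hN
  have hr : ∀ p (h : p ∈ N), ∃ r > 0, closedBall p (2 * r) ⊆ U p h := by
    intro p h
    obtain ⟨r, hr, hb⟩ := Metric.nhds_basis_closedBall.mem_iff.1 ((hU p h).mem_nhds (hp p h))
    refine ⟨r / 2, by positivity, ?_⟩
    rwa [show 2 * (r / 2) = r by ring]
  choose r hr0 hrU using hr
  obtain ⟨t, ht⟩ := hc.elim_finite_subcover (fun p : N => ball (p : V m) (r p p.2))
    (fun p => isOpen_ball) (fun q hq => mem_iUnion.2 ⟨⟨q, hq⟩, mem_ball_self (hr0 q hq)⟩)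
  let χ : ∀ p : N, ContDiffBump (p : V m) := fun p =>
    ⟨r p p.2, 2 * r p p.2, hr0 p p.2, by linarith [hr0 p p.2]⟩
  have hts : ∀ p : N, tsupport (χ p) ⊆ U p p.2 := fun p => by
    rw [(χ p).tsupport_eq]; exact hrU p p.2
  refine ⟨t, inferInstance, fun i => k i.1 i.1.2, fun i x => χ i.1 x • Φ i.1 i.1.2 x, ?_, ?_⟩
  · intro i
    refine ⟨?_, ?_, ?_⟩
    · rw [contDiff_iff_contDiffAt]
      intro x
      by_cases hx : x ∈ U i.1 i.1.2
      · exact (χ i.1).contDiff.contDiffAt.smul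
          (((hΦ i.1 i.1.2).contDiffAt ((hU i.1 i.1.2).mem_nhds hx)).of_le (by norm_num))
      · have hx' : x ∉ tsupport (χ i.1) := fun h => hx (hts i.1 h)
        have h0 := notMem_tsupport_iff_eventuallyEq.1 hx'
        refine (contDiffAt_const (c := (0 : V (k i.1 i.1.2)))).congr_of_eventuallyEq ?_
        filter_upwards [h0] with y hy
        simp [hy]
    · exact (χ i.1).hasCompactSupport.smul_right
    · intro q hq
      by_cases hx : q ∈ U i.1 i.1.2
      · have h0 : Φ i.1 i.1.2 q = 0 := (hz i.1 i.1.2 q hx).1 hq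
        simp [h0]
      · have hx' : q ∉ tsupport (χ i.1) := fun h => hx (hts i.1 h)
        have h0 : χ i.1 q = 0 := image_eq_zero_of_notMem_tsupport hx'
        simp [h0]
  · intro q hq v hv
    obtain ⟨p, hpt, hqp⟩ := mem_iUnion₂.1 (ht hq)
    have hqU : q ∈ U p p.2 := by
      apply hrU p p.2
      have := hr0 p p.2
      exact closedBall_subset_closedBall (by linarith) (ball_subset_closedBall hqp)
    have he : (fun x => χ p x • Φ p p.2 x) =ᶠ[𝓝 q] Φ p p.2 := by
      filter_upwards [isOpen_ball.mem_nhds hqp] with y hy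
      have h1 : χ p y = 1 := (χ p).one_of_mem_closedBall (ball_subset_closedBall hy)
      simp [h1]
    have h2 := hv ⟨p, hpt⟩
    simp only at h2
    rw [he.fderiv_eq] at h2
    exact (cone_eq (hU p p.2) (hΦ p p.2) (hs p p.2) (hz p p.2) hqU hq v).2 h2

end Pool.Agent.Lib.MP_a785f2_an.NH
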