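import Pool.Agent.Lib.MP_a785f2_an.NH.Chain
import Pool.Agent.Lib.MP_a785f2_an.NH.Real

open MeasureTheory Metric Set Filter Topology
open scoped ContDiff RealInnerProductSpace ENNReal Convolution

namespace Pool.Agent.Lib.MP_a785f2_an.NH

open HS

variable {m : ℕ} {H : Type} [NormedAddCommGroup H] [NormedSpace ℝ H]
  {a : V m → H →L[ℝ] V m →L[ℝ] V m} {b : V m → H} {L : ℝ}
  {Ω : Set (D 3)} {u : D 3 → V m} {G : D 3 → D 3 →L[ℝ] V m} {x0 : D 3} {t δ : ℝ}

/-- Pointwise bound for the defect. -/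
theorem Ctx.sig_bd (X : Ctx Ω u G x0 t δ) (T : Str a b L) (hk : 100 * kap L * δ ≤ 1) {x : D 3}
    (hx : x ∈ closedBall x0 (13 * t / 16)) (J : ℕ) {M : ℝ}
    (hM : ∀ j ≤ J, zz G t j x ≤ sc t j * M) :
    sg a b (UU u t J) (WW a b u x0 t J) x ≤ 40 * kap L * δ * M := by
  have hL := T.L1
  have hδ := X.dp
  have l2 : 1 ≤ L ^ 2 := one_le_pow₀ hL
  have l4 : L ^ 2 ≤ L ^ 4 := pow_le_pow_right₀ hL (by norm_num)
  have k0 : 0 ≤ kap L := by unfold kap; positivity
  have sp := sc_pos X.tp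
  have e : ∀ j, t / 16 / 2 ^ j * (zz G t j x / sc t j) = zz G t j x := fun j =>
    mul_div_cancel₀ _ (sp j).ne'
  have A0 : ∀ j, 0 ≤ zz G t j x / sc t j := fun j => div_nonneg (zz_nonneg G t j x) (sp j).le
  refine r1 (s := t / 16) (A := fun j => zz G t j x / sc t j) (d := fun j => kap L * zz G t j x)
    (σ := fun j => sg a b (UU u t j) (WW a b u x0 t j) x) k0 hδ
    (by nlinarith [mul_nonneg k0 hδ.le]) (by linarith [X.tp]) (fun j hj => ⟨A0 j, ?_, ?_⟩)
    (fun j _ => ⟨mul_nonneg k0 (zz_nonneg G t j x), ?_⟩) ?_ fun j _ => ?_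
  · rw [div_le_iff₀' (sp j)]; exact hM j hj
  · rw [e]; exact (X.chain hx j).1
  · rw [e]
  · have h1 := sg_zero T (U := UU u t 0) (UU u t 0 fun i => x0 i + 13 * t / 16) x
    have h2 : ‖UU u t 0 x - UU u t 0 fun i => x0 i + 13 * t / 16‖ ≤ 26 * δ :=
      X.w0_in (a := a) (b := b) hx
    have h3 := (X.chain hx 0).2.2.1
    refine le_trans h1 ?_
    calc _ ≤ 2 * L ^ 4 * (26 * δ) * (40 * (zz G t 0 x / sc t 0)) := by gcongr
      _ ≤ _ := by
        have : 0 ≤ L ^ 4 * δ * (zz G t 0 x / sc t 0) := mul_nonneg (by positivity) (A0 0)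
        unfold kap
        nlinarith
  · obtain ⟨c1, c2, c3, c4⟩ := X.chain hx j
    have z0 := zz_nonneg G t j x
    have h1 := sg_step T (X.smU j) (X.smU (j + 1)) (X.smW T j) x c2 (by
      have : L ^ 2 * zz G t j x ≤ L ^ 4 * δ := by gcongr
      have : 0 ≤ L ^ 4 * δ := by positivity
      unfold kap at hk
      nlinarith) c3 c4
    refine le_trans h1 ?_
    have s0 := sg_nonneg a b (UU u t j) (WW a b u x0 t j) x
    have p0 : 0 ≤ L ^ 4 * zz G t j x := by positivity
    have p1 := mul_nonneg p0 s0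
    have p2 := mul_nonneg p0 (A0 (j + 1))
    unfold kap
    nlinarith

/-- The bulk term. -/
theorem bulk (T : Str a b L) : ∃ C : ℝ, 1 ≤ C ∧ ∀ (Ω : Set (D 3)) (u : D 3 → V m)
    (G : D 3 → D 3 →L[ℝ] V m) (x0 : D 3) (t δ : ℝ), Ctx Ω u G x0 t δ → 100 * kap L * δ ≤ 1 →
    ∀ K : ℝ, 1 ≤ K → ∀ J : ℕ,
      ∫ x in closedBall x0 (13 * t / 16),
        (K * δ * (‖G x‖ * sg a b (UU u t J) (WW a b u x0 t J) x ^ 2) +
          sg a b (UU u t J) (WW a b u x0 t J) x ^ 3) ≤ C * K * En G x0 t * δ ^ 3 := by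
  have hL := T.L1
  have k1 : 1 ≤ 640 * kap L := by
    have : 1 ≤ L ^ 4 := one_le_pow₀ hL
    unfold kap
    linarith
  set c := 640 * kap L with hc
  have c3 : 1 ≤ c ^ 3 := one_le_pow₀ k1
  refine ⟨2049 * c ^ 3, by linarith, fun Ω u G x0 t δ X hk K hK J => ?_⟩
  have tp := X.tp
  have hδ := X.dp
  have sp := sc_pos X.tp
  obtain ⟨M, -, M0, iM, bM, hM⟩ := mass_max (n := 3) (by norm_num) X.sob x0 (R := 13 * t / 16)
    (ρ := t / 8) J (fun j => 2 * sc t j) (fun j => by have := sp j; positivity)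
    (fun j => by have := sc_le tp j; linarith)
  have iG : Integrable (fun y => ‖G y‖ ^ 3) volume := X.sob.powG (by norm_num)
  have mono : ∀ r ≤ t, ∫ x in closedBall x0 r, ‖G x‖ ^ 3 ≤ En G x0 t := fun r hr =>
    setIntegral_mono_set iG.integrableOn (Eventually.of_forall fun y => by positivity)
      (closedBall_subset_closedBall hr).eventuallyLE
  have E1 := mono (13 * t / 16) (by linarith)
  have E2 := mono (13 * t / 16 + t / 8) (by linarith)
  have E3 : ∫ x in closedBall x0 (13 * t / 16), M x ^ 3 ≤ 1024 * En G x0 t :=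
    (setIntegral_le_integral iM (Eventually.of_forall fun y => pow_nonneg (M0 y) 3)).trans
      (bM.trans (by norm_num; linarith))
  have q0 : 0 ≤ c ^ 3 * K * δ ^ 3 := by positivity
  calc _ ≤ ∫ x in closedBall x0 (13 * t / 16),
        c ^ 3 * K * δ ^ 3 * (‖G x‖ ^ 3 + 2 * M x ^ 3) := by
        refine integral_mono_of_nonneg (Eventually.of_forall fun x => ?_)
          (((iG.add (iM.const_mul 2)).const_mul _).integrableOn)
          ((ae_restrict_iff' measurableSet_closedBall).2 (Eventually.of_forall fun x hx => ?_))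
        · have := sg_nonneg a b (UU u t J) (WW a b u x0 t J) x
          positivity
        · have s0 := sg_nonneg a b (UU u t J) (WW a b u x0 t J) x
          have h1 := X.sig_bd T hk hx J (M := 16 * M x) fun j hj => by
            have h2 := hM x hx j hj
            have := sp j
            unfold zz
            rw [div_le_iff₀ (by positivity)]
            exact h2.trans (le_of_eq (by ring))
          have h2 : sg a b (UU u t J) (WW a b u x0 t J) x ≤ c * δ * M x :=
            h1.trans (le_of_eq (by rw [hc]; ring))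
          have m0 := M0 x
          have g0 := norm_nonneg (G x)
          have h3 : ‖G x‖ * M x ^ 2 ≤ ‖G x‖ ^ 3 + M x ^ 3 := by
            rcases le_total ‖G x‖ (M x) with h | h
            · have : ‖G x‖ * M x ^ 2 ≤ M x * M x ^ 2 := by gcongr
              nlinarith [pow_nonneg g0 3]
            · have : ‖G x‖ * M x ^ 2 ≤ ‖G x‖ * ‖G x‖ ^ 2 := by gcongr
              nlinarith [pow_nonneg m0 3]
          have c2 : c ^ 2 ≤ c ^ 3 := pow_le_pow_right₀ k1 (by norm_num)
          calc _ ≤ K * δ * (‖G x‖ * (c * δ * M x) ^ 2) + (c * δ * M x) ^ 3 := by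
                beta_reduce
                gcongr
            _ = c ^ 2 * K * δ ^ 3 * (‖G x‖ * M x ^ 2) + c ^ 3 * 1 * δ ^ 3 * M x ^ 3 := by ring
            _ ≤ c ^ 3 * K * δ ^ 3 * (‖G x‖ ^ 3 + M x ^ 3) + c ^ 3 * K * δ ^ 3 * M x ^ 3 := by
              gcongr
            _ = _ := by ring
    _ = c ^ 3 * K * δ ^ 3 * ((∫ x in closedBall x0 (13 * t / 16), ‖G x‖ ^ 3) +
          2 * ∫ x in closedBall x0 (13 * t / 16), M x ^ 3) := by
        rw [integral_const_mul, integral_add iG.integrableOn (iM.const_mul 2).integrableOn,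
          integral_const_mul]
    _ ≤ c ^ 3 * K * δ ^ 3 * (En G x0 t + 2 * (1024 * En G x0 t)) := by gcongr
    _ = _ := by ring

end Pool.Agent.Lib.MP_a785f2_an.NH
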