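import Pool.Agent.Lib.MP_a785f2_an.NH.Star
import Pool.Agent.Lib.MP_a785f2_an.NH.Sig
import Pool.Agent.Lib.MP_a785f2_an.NH.Bdry
import Pool.Agent.Lib.MP_a785f2_an.NH.Inner

open MeasureTheory Metric Set Filter Topology
open scoped ContDiff RealInnerProductSpace ENNReal Convolution

namespace Pool.Agent.Lib.MP_a785f2_an.NH

open HS

variable {m : ℕ} {H : Type} [NormedAddCommGroup H] [NormedSpace ℝ H]
  {a : V m → H →L[ℝ] V m →L[ℝ] V m} {b : V m → H} {L : ℝ}
  {Ω : Set (D 3)} {u : D 3 → V m} {G : D 3 → D 3 →L[ℝ] V m} {x0 : D 3} {t δ : ℝ}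

/-- One pass. -/
theorem pass (T : Str a b L) : ∃ C : ℝ, 1 ≤ C ∧ ∀ (Ω : Set (D 3)) (u : D 3 → V m)
    (G : D 3 → D 3 →L[ℝ] V m) (x0 : D 3) (t δ : ℝ), Ctx Ω u G x0 t δ → Eqn a b Ω u G →
    ∀ K : ℕ, 1 ≤ K → 100 * kap L * δ * K ≤ 1 → ∀ η : ℝ, 0 < η → η ≤ 1 →
    ∫ y in closedBall x0 t \ closedBall x0 (t / 2), ‖G y‖ ≤ η * δ * t ^ 2 →
      ∃ w : D 3 → ℝ, Continuous w ∧ (∀ x, 1 ≤ w x) ∧
        ∫ x in closedBall x0 (t / 2), ‖G x‖ ^ 3 / w x ^ 3 ≤ C * (η + K * En G x0 t) * δ ^ 3 ∧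
        ∀ i : ℕ, 1 ≤ i → i ≤ K →
          ∫ x in closedBall x0 (t / 2 ^ i), w x ^ 2 ≤ C * (t / 2 ^ i) ^ 3 := by
  obtain ⟨B, hB, hcut⟩ := exists_cut
  obtain ⟨C1, h1, hstar⟩ := star T
  obtain ⟨C2, h2, hbulk⟩ := bulk T
  obtain ⟨C3, h3, hbd⟩ := bdry T hB
  obtain ⟨C4, h4, hin⟩ := inner_wt T
  have p12 : 0 ≤ C1 * C2 := by positivity
  have p13 : 0 ≤ C1 * C3 := by positivity
  refine ⟨C1 * C2 + C1 * C3 + 1 + C4, by linarith, ?_⟩
  intro Ω u G x0 t δ X E K hK hk η hη0 hη1 hint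
  have hδ := X.dp
  have ht := X.tp
  have hK1 : (1 : ℝ) ≤ K := by exact_mod_cast hK
  have hkap : 0 ≤ 100 * kap L * δ := by unfold kap; positivity
  have hk1 : 100 * kap L * δ ≤ 1 := le_trans (le_mul_of_one_le_right hkap hK1) hk
  have hh : 0 < (K : ℝ) * δ := by positivity
  have hδh : δ ≤ (K : ℝ) * δ := le_mul_of_one_le_left hδ.le hK1
  obtain ⟨χ, cut⟩ := hcut x0 t ht
  have hsub : closedBall x0 (13 * t / 16) ⊆ Ω :=
    (closedBall_subset_closedBall (by linarith)).trans X.sub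
  have hev := hstar Ω u G X.sob E x0 (13 * t / 16) (UU u t) (WW a b u x0 t) hsub X.apx
    (X.smW T) χ cut.sm cut.supp cut.lo cut.hi (K * δ) hh (η * δ ^ 3) (by positivity)
  obtain ⟨J, hJ, hKJ⟩ := (hev.and (eventually_ge_atTop K)).exists
  have cw : Continuous fun x => wt (K * δ) (WW a b u x0 t J x) :=
    (continuous_wt _).comp (X.smW T J).continuous
  have hEn : 0 ≤ En G x0 t := integral_nonneg fun _ => by positivity
  refine ⟨fun x => wt (K * δ) (WW a b u x0 t J x), cw, fun x => one_le_wt _ _, ?_, ?_⟩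
  · have hb := hbulk Ω u G x0 t δ X hk1 K hK1 J
    have hd := hbd Ω u G x0 t δ X hk1 η hη0 hη1 hint χ cut (K * δ) hδh J
    have nn : ∀ x, 0 ≤ χ x ^ 3 * (‖G x‖ ^ 3 / wt (K * δ) (WW a b u x0 t J x) ^ 3) := fun x =>
      mul_nonneg (pow_nonneg (cut.lo x) 3)
        (div_nonneg (by positivity) (pow_nonneg (zero_le_one.trans (one_le_wt _ _)) 3))
    have hi : Integrable
        (fun x => χ x ^ 3 * (‖G x‖ ^ 3 / wt (K * δ) (WW a b u x0 t J x) ^ 3)) volume := by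
      refine (X.sob.powG (by norm_num)).mono' ?_ (Eventually.of_forall fun x => ?_)
      · exact ((cut.sm.continuous.measurable.pow_const 3).mul
          ((X.sob.mG.norm.measurable.pow_const 3).div
            (cw.measurable.pow_const 3))).aestronglyMeasurable
      · rw [Real.norm_of_nonneg (nn x)]
        have e1 : χ x ^ 3 ≤ 1 := pow_le_one₀ (cut.lo x) (cut.hi x)
        have e2 : ‖G x‖ ^ 3 / wt (K * δ) (WW a b u x0 t J x) ^ 3 ≤ ‖G x‖ ^ 3 :=
          div_le_self (by positivity) (one_le_pow₀ (one_le_wt _ _))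
        have e3 : 0 ≤ ‖G x‖ ^ 3 / wt (K * δ) (WW a b u x0 t J x) ^ 3 :=
          div_nonneg (by positivity) (pow_nonneg (zero_le_one.trans (one_le_wt _ _)) 3)
        exact (mul_le_of_le_one_left e3 e1).trans e2
    have e1 : ∫ x in closedBall x0 (t / 2), ‖G x‖ ^ 3 / wt (K * δ) (WW a b u x0 t J x) ^ 3 =
        ∫ x in closedBall x0 (t / 2),
          χ x ^ 3 * (‖G x‖ ^ 3 / wt (K * δ) (WW a b u x0 t J x) ^ 3) :=
      setIntegral_congr_fun measurableSet_closedBall fun x hx => by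
        simp only [cut.one x hx, one_pow, one_mul]
    have e2 : ∫ x in closedBall x0 (t / 2),
          χ x ^ 3 * (‖G x‖ ^ 3 / wt (K * δ) (WW a b u x0 t J x) ^ 3) ≤
        ∫ x in closedBall x0 (13 * t / 16),
          χ x ^ 3 * (‖G x‖ ^ 3 / wt (K * δ) (WW a b u x0 t J x) ^ 3) :=
      setIntegral_mono_set hi.integrableOn (Eventually.of_forall nn)
        (closedBall_subset_closedBall (by linarith)).eventuallyLE
    have e3 := mul_le_mul_of_nonneg_left (add_le_add hb hd) (zero_le_one.trans h1)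
    have q1 : 0 ≤ η * δ ^ 3 := by positivity
    have q2 : 0 ≤ K * En G x0 t * δ ^ 3 := by positivity
    have q3 := mul_nonneg p12 q1
    have q4 := mul_nonneg p13 q2
    have q5 := mul_nonneg (zero_le_one.trans h4) q1
    have q6 := mul_nonneg (zero_le_one.trans h4) q2
    rw [e1]
    refine e2.trans (hJ.trans ((add_le_add_left e3 _).trans ?_))
    nlinarith [q1, q2, q3, q4, q5, q6]
  · intro i hi1 hiK
    refine (hin Ω u G x0 t δ X K hK hk i J hi1 hiK hKJ).trans ?_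
    exact mul_le_mul_of_nonneg_right (by linarith) (by positivity)

end Pool.Agent.Lib.MP_a785f2_an.NH
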