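import Pool.Agent.Lib.MP_a785f2_an.NH.Top

/-! Potentials pulled back from the target, in coordinates. -/

open MeasureTheory Metric Set Filter Topology
open scoped ContDiff RealInnerProductSpace ENNReal

namespace Pool.Agent.Lib.MP_a785f2_an.NH

open HS

variable {n m k : ℕ}

/-- The elementary bilinear map. -/
noncomputable def elm (l : Fin k) (i j : Fin m) : (Fin k → ℝ) →L[ℝ] V m →L[ℝ] V m :=
  (ContinuousLinearMap.proj l : (Fin k → ℝ) →L[ℝ] ℝ).smulRight
    ((EuclideanSpace.proj j : V m →L[ℝ] ℝ).smulRight (EuclideanSpace.single i 1))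

/-- The bilinear map with given coefficients. -/
noncomputable def bil (k m : ℕ) :
    (Fin k → Fin m → Fin m → ℝ) →ₗ[ℝ] (Fin k → ℝ) →L[ℝ] V m →L[ℝ] V m where
  toFun A := ∑ l, ∑ i, ∑ j, A l i j • elm l i j
  map_add' A B := by
    simp only [← Finset.sum_add_distrib]
    exact Finset.sum_congr rfl fun l _ => Finset.sum_congr rfl fun i _ =>
      Finset.sum_congr rfl fun j _ => add_smul (A l i j) (B l i j) (elm l i j)
  map_smul' c A := by
    simp only [Pi.smul_apply, smul_eq_mul, mul_smul, RingHom.id_apply, Finset.smul_sum]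

theorem bil_apply (A : Fin k → Fin m → Fin m → ℝ) (p : Fin k → ℝ) (v : V m) (i : Fin m) :
    bil k m A p v i = ∑ j, (∑ l, A l i j * p l) * v j := by
  simp only [bil, elm, LinearMap.coe_mk, AddHom.coe_mk, sum_apply,
    smul_apply, ContinuousLinearMap.smulRight_apply, ContinuousLinearMap.proj_apply,
    WithLp.ofLp_sum, Finset.sum_apply, WithLp.ofLp_smul, Pi.smul_apply, smul_eq_mul,
    Finset.sum_mul]
  rw [Finset.sum_comm (s := Finset.univ) (t := Finset.univ)
    (f := fun j l => A l i j * p l * v j)]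
  refine Finset.sum_congr rfl fun l _ => ?_
  rw [Finset.sum_eq_single i]
  · exact Finset.sum_congr rfl fun j _ => by simp [mul_assoc]
  · intro i' _ h
    exact Finset.sum_eq_zero fun j _ => by simp [h.symm]
  · simp

theorem bil_le : ∃ c : ℝ, 0 ≤ c ∧ ∀ A, ‖bil k m A‖ ≤ c * ‖A‖ := by
  have h0 : ∀ (l : Fin k) (i j : Fin m), 0 ≤ ‖elm l i j‖ := fun l i j =>
    ContinuousLinearMap.opNorm_nonneg _
  refine ⟨∑ l : Fin k, ∑ i : Fin m, ∑ j : Fin m, ‖elm l i j‖, Finset.sum_nonneg fun l _ =>
    Finset.sum_nonneg fun i _ => Finset.sum_nonneg fun j _ => h0 l i j, fun A => ?_⟩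
  simp only [Finset.sum_mul]
  change ‖∑ l : Fin k, ∑ i : Fin m, ∑ j : Fin m, A l i j • elm l i j‖ ≤ _
  refine norm_sum_le_of_le (E := (Fin k → ℝ) →L[ℝ] V m →L[ℝ] V m) _ fun l _ =>
    norm_sum_le_of_le (E := (Fin k → ℝ) →L[ℝ] V m →L[ℝ] V m) _ fun i _ =>
    norm_sum_le_of_le (E := (Fin k → ℝ) →L[ℝ] V m →L[ℝ] V m) _ fun j _ => ?_
  refine (ContinuousLinearMap.opNorm_smul_le _ _).trans ?_
  rw [mul_comm]
  exact mul_le_mul_of_nonneg_left (((norm_le_pi_norm _ j).trans (norm_le_pi_norm _ i)).trans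
    (norm_le_pi_norm A l)) (h0 l i j)

theorem pi_lip {ι Y : Type} [Fintype ι] [NormedAddCommGroup Y] [NormedSpace ℝ Y]
    {f : ι → V m → Y} (h : ∀ i, ContDiff ℝ 1 (f i) ∧ ∃ L : ℝ, ∀ y, ‖fderiv ℝ (f i) y‖ ≤ L) :
    ContDiff ℝ 1 (fun q i => f i q) ∧ ∃ L : ℝ, ∀ y, ‖fderiv ℝ (fun q i => f i q) y‖ ≤ L := by
  choose L hL using fun i => (h i).2
  refine ⟨contDiff_pi.2 fun i => (h i).1, ∑ i, |L i|, fun y => ?_⟩
  rw [fderiv_pi fun i => (h i).1.differentiable one_ne_zero y]
  have h0 : 0 ≤ ∑ i, |L i| := by positivity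
  refine ContinuousLinearMap.opNorm_le_bound _ h0 fun v =>
    (pi_norm_le_iff_of_nonneg (by positivity)).2 fun i => ?_
  refine ((fderiv ℝ (f i) y).le_of_opNorm_le (hL i y) v).trans
    (mul_le_mul_of_nonneg_right ((le_abs_self _).trans ?_) (norm_nonneg _))
  exact Finset.single_le_sum (f := fun i => |L i|) (fun _ _ => abs_nonneg _) (Finset.mem_univ i)

theorem str_pull {a : Fin k → Fin m → Fin m → E m → ℝ} {b : Fin k → E m → ℝ}
    (ha : ∀ l i j, IsC1Lip (a l i j) ∧ ∃ L : ℝ, ∀ y, |a l i j y| ≤ L)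
    (hs : ∀ l i j y, a l j i y = -a l i j y) (hb : ∀ l, IsC1Lip (b l)) :
    ∃ L, Str (fun q => bil k m fun l i j => a l i j q) (fun q l => b l q) L := by
  obtain ⟨a1, L1, hL1⟩ := pi_lip fun l => pi_lip fun i => pi_lip fun j => (ha l i j).1
  obtain ⟨b1, L2, hL2⟩ := pi_lip hb
  obtain ⟨c, c0, hc⟩ := bil_le (k := k) (m := m)
  obtain ⟨c1, c2⟩ := str_comp (X := Fin k → Fin m → Fin m → ℝ)
    (Y := (Fin k → ℝ) →L[ℝ] V m →L[ℝ] V m) a1 (bil k m) c0 hc hL1
  choose L hL using fun l i j => (ha l i j).2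
  set L3 : ℝ := ∑ l, ∑ i, ∑ j, |L l i j| with hL3
  have L30 : 0 ≤ L3 := by positivity
  have h3 : ∀ q, ‖fun l i j => a l i j q‖ ≤ L3 := fun q => by
    refine (pi_norm_le_iff_of_nonneg L30).2 fun l => (pi_norm_le_iff_of_nonneg L30).2 fun i =>
      (pi_norm_le_iff_of_nonneg L30).2 fun j => ((hL l i j q).trans (le_abs_self _)).trans ?_
    exact ((Finset.single_le_sum (f := fun j => |L l i j|) (fun _ _ => abs_nonneg _)
      (Finset.mem_univ j)).trans (Finset.single_le_sum (f := fun i => ∑ j, |L l i j|)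
        (fun _ _ => by positivity) (Finset.mem_univ i))).trans
      (Finset.single_le_sum (f := fun l => ∑ i, ∑ j, |L l i j|) (fun _ _ => by positivity)
        (Finset.mem_univ l))
  have L10 : 0 ≤ c * L1 := mul_nonneg c0 ((norm_nonneg _).trans (hL1 0))
  have L20 : 0 ≤ L2 := (norm_nonneg _).trans (hL2 0)
  have L40 : 0 ≤ c * L3 := mul_nonneg c0 L30
  refine ⟨1 + c * L1 + L2 + c * L3, by linarith, c1, b1, fun q => ?_, fun q v => ?_, fun q => ?_,
    fun q p v => ?_⟩
  · linarith [hc fun l i j => a l i j q, mul_le_mul_of_nonneg_left (h3 q) c0]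
  · exact (c2 q v).trans (mul_le_mul_of_nonneg_right (by linarith) (norm_nonneg _))
  · linarith [hL2 q]
  · have e : ⟪(bil k m fun l i j => a l i j q) p v, v⟫ =
        ∑ i, ∑ j, (∑ l, a l i j q * p l) * v j * v i := by
      rw [PiLp.inner_apply]
      refine Finset.sum_congr rfl fun i _ => ?_
      rw [bil_apply, ← Finset.sum_mul]
      simp [mul_comm]
    have e2 : ∑ i, ∑ j, (∑ l, a l i j q * p l) * v j * v i =
        -∑ i, ∑ j, (∑ l, a l i j q * p l) * v j * v i := by
      conv_lhs => rw [Finset.sum_comm]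
      rw [← Finset.sum_neg_distrib]
      refine Finset.sum_congr rfl fun i _ => ?_
      rw [← Finset.sum_neg_distrib]
      refine Finset.sum_congr rfl fun j _ => ?_
      simp only [hs _ i j q, neg_mul, Finset.sum_neg_distrib]
      ring
    rw [e]
    linarith

theorem pull (hn : 2 ≤ n) (hC : Core n) (a : Fin k → Fin m → Fin m → E m → ℝ)
    (b : Fin k → E m → ℝ)
    (ha : ∀ l i j, IsC1Lip (a l i j) ∧ ∃ L : ℝ, ∀ y, |a l i j y| ≤ L)
    (hs : ∀ l i j y, a l j i y = -a l i j y) (hb : ∀ l, IsC1Lip (b l))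
    (u : Fin m → E n → ℝ) (G : Fin m → Fin n → E n → ℝ) (hu : IsW1n u G)
    (he : IsWeakSolution G (pullPotential a b u G)) : HasContinuousRep u := by
  obtain ⟨L, T⟩ := str_pull ha hs hb
  have hcol : ∀ x α, col (trM fun i α => G i α x) α = dir G α x := fun x α => by
    ext i; rw [trM_col]; rfl
  have hfro : ∀ x, fro (trM fun i α => G i α x) = gradNorm G x := fun x => trM_fro _
  have key : ∀ x, (WithLp.toLp 2 fun i => ∑ j, ∑ α, pullPotential a b u G α i j x *
      (gradNorm G x ^ (n - 2) * G j α x) : V m) = fro (trM fun i α => G i α x) ^ (n - 2) •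
      ∑ α, (bil k m fun l i j => a l i j (pt u x))
        (fderiv ℝ (fun q l => b l q) (pt u x) (col (trM fun i α => G i α x) α))
        (col (trM fun i α => G i α x) α) := fun x => by
    ext i
    rw [fderiv_pi fun l => (hb l).1.differentiable one_ne_zero _]
    simp only [hcol, hfro, WithLp.ofLp_smul, WithLp.ofLp_sum, Pi.smul_apply, Finset.sum_apply,
      bil_apply, smul_eq_mul, Finset.mul_sum, ContinuousLinearMap.pi_apply, pullPotential]
    rw [Finset.sum_comm]
    refine Finset.sum_congr rfl fun α _ => Finset.sum_congr rfl fun j _ => ?_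
    have : dir G α x j = G j α x := rfl
    rw [this]
    ring
  have lG : MemLp (fun x => trM fun i α => G i α x) n (ballMeasure n) := trM_memLp hu.2.1
  have mu : AEStronglyMeasurable (pt u) (ballMeasure n) := (MemLp.of_eval_piLp hu.1).1
  have mfro : AEStronglyMeasurable (fun x => fro (trM fun i α => G i α x)) (ballMeasure n) :=
    continuous_fro.comp_aestronglyMeasurable lG.1
  have ifro : Integrable (fun x => fro (trM fun i α => G i α x) ^ n) (ballMeasure n) := by
    refine ((lG.integrable_norm_pow (by omega)).const_mul ((n : ℝ) ^ n)).mono' (mfro.pow n)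
      (ae_of_all _ fun x => ?_)
    rw [Real.norm_of_nonneg (pow_nonneg (fro_nonneg _) _), ← mul_pow]
    exact pow_le_pow_left₀ (fro_nonneg _) (fro_le_norm _) n
  refine transfer2 hn (fun y A f => f = fro A ^ (n - 2) • ∑ α, (bil k m fun l i j => a l i j y)
      (fderiv ℝ (fun q l => b l q) y (col A α)) (col A α))
    (fun Ω u G F S h => hC m _ _ _ L Ω u G F T S h) u G _ hu (fun i => ?_)
    (ae_of_all _ key) he
  refine (ifro.const_mul (n * (L * L))).mono' ?_ (ae_of_all _ fun x => ?_)
  · refine Finset.aestronglyMeasurable_fun_sum _ fun j _ =>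
      Finset.aestronglyMeasurable_fun_sum _ fun α _ => AEStronglyMeasurable.mul ?_
        (AEStronglyMeasurable.mul ?_ (hu.2.1 j α).1)
    · refine Finset.aestronglyMeasurable_fun_sum _ fun l _ => AEStronglyMeasurable.mul
        ((ha l i j).1.1.continuous.comp_aestronglyMeasurable mu) ?_
      have md : AEStronglyMeasurable (dir G α) (ballMeasure n) :=
        (MemLp.of_eval_piLp fun i => hu.2.1 i α).1
      have c : Continuous fun p : E m × E m => fderiv ℝ (b l) p.1 p.2 :=
        (((hb l).1.continuous_fderiv one_ne_zero).comp continuous_fst).clm_apply continuous_snd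
      have h := c.comp_aestronglyMeasurable (mu.prodMk md)
      exact h
    · simp only [← hfro]
      exact mfro.pow _
  · have h1 := PiLp.norm_apply_le (WithLp.toLp 2 fun i => ∑ j, ∑ α,
      pullPotential a b u G α i j x * (gradNorm G x ^ (n - 2) * G j α x) : V m) i
    refine h1.trans ?_
    rw [key, norm_smul, Real.norm_of_nonneg (pow_nonneg (fro_nonneg _) _)]
    set A := trM fun i α => G i α x
    have f0 := fro_nonneg A
    have L0 : 0 ≤ L := zero_le_one.trans T.L1
    have h2 : ‖∑ α, (bil k m fun l i j => a l i j (pt u x))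
        (fderiv ℝ (fun q l => b l q) (pt u x) (col A α)) (col A α)‖ ≤
        n * (L * (L * fro A) * fro A) := by
      refine (norm_sum_le_of_le (f := fun α => (bil k m fun l i j => a l i j (pt u x))
        (fderiv ℝ (fun q l => b l q) (pt u x) (col A α)) (col A α))
        (n := fun _ => L * (L * fro A) * fro A) _ fun α _ => ?_).trans (by simp)
      refine (ContinuousLinearMap.le_opNorm₂ _ _ _).trans ?_
      have h3 := T.ba (pt u x)
      have h4 := col_le_fro A α
      have h5 := ((fderiv ℝ (fun q l => b l q) (pt u x)).le_of_opNorm_le (T.db (pt u x))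
        (col A α)).trans (mul_le_mul_of_nonneg_left h4 L0)
      gcongr
    have h6 : fro A ^ n = fro A ^ (n - 2) * fro A ^ 2 := by
      rw [← pow_add]; congr 1; omega
    rw [h6]
    calc _ ≤ fro A ^ (n - 2) * (n * (L * (L * fro A) * fro A)) :=
          mul_le_mul_of_nonneg_left h2 (pow_nonneg f0 _)
      _ = _ := by ring

end Pool.Agent.Lib.MP_a785f2_an.NH
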