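import Pool.Agent.Lib.MP_a785f2_an.NH.Defs
import Pool.Agent.Lib.MP_a785f2_an.NH.Psi

/-! The pointwise form of the Caccioppoli inequality. -/

open MeasureTheory Metric Set Filter Topology
open scoped ContDiff RealInnerProductSpace ENNReal Convolution

namespace Pool.Agent.Lib.MP_a785f2_an.NH

open HS

variable {m : ℕ} {H : Type} [NormedAddCommGroup H] [NormedSpace ℝ H]
  {a : V m → H →L[ℝ] V m →L[ℝ] V m} {b : V m → H} {L h : ℝ}

theorem starA_wt (hh : 0 < h) (w : V m) : wt h w = √(h ^ 2 + ‖w‖ ^ 2) / h := by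
  have e : 1 + ‖w‖ ^ 2 / h ^ 2 = (h ^ 2 + ‖w‖ ^ 2) / h ^ 2 := by field_simp
  rw [wt, e, Real.sqrt_div (by positivity), Real.sqrt_sq hh.le]

theorem starA_con (T : Str a b L) (q : V m) : ‖con a b q‖ ≤ L ^ 2 := by
  have h0 : 0 ≤ L := zero_le_one.trans T.L1
  calc ‖con a b q‖ ≤ ‖a q‖ * ‖fderiv ℝ b q‖ := ContinuousLinearMap.opNorm_comp_le _ _
    _ ≤ L * L := mul_le_mul (T.ba q) (T.db q) (norm_nonneg _) h0
    _ = L ^ 2 := (sq L).symm

theorem starA_brD (hh : 0 < h) (w v : V m) :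
    ‖br w • fderiv ℝ (Yf 0 h) w v‖ ≤ 2 * (1 + 1 / h) * ‖v‖ := by
  have r0 := norm_nonneg w
  have v0 := norm_nonneg v
  have hs : h ≤ √(h ^ 2 + ‖w‖ ^ 2) := Real.le_sqrt_of_sq_le (by nlinarith)
  have hrs : ‖w‖ ≤ √(h ^ 2 + ‖w‖ ^ 2) := Real.le_sqrt_of_sq_le (by nlinarith)
  have k2 := br_le w
  have k0 := br_pos w
  rw [norm_smul, Real.norm_eq_abs, abs_of_pos k0, psi_fderiv hh]
  set s := √(h ^ 2 + ‖w‖ ^ 2)
  have s0 : 0 < s := hh.trans_le hs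
  have h1 : ‖s⁻¹ • v - (⟪w, v⟫ / s ^ 3) • w‖ ≤ 2 * (s⁻¹ * ‖v‖) := by
    refine (norm_sub_le _ _).trans ?_
    rw [norm_smul, norm_smul, Real.norm_eq_abs, Real.norm_eq_abs, abs_of_pos (inv_pos.2 s0),
      abs_div, abs_of_pos (pow_pos s0 3)]
    have h2 : |⟪w, v⟫| ≤ s * ‖v‖ :=
      (abs_real_inner_le_norm _ _).trans (mul_le_mul_of_nonneg_right hrs v0)
    have h3 : |⟪w, v⟫| / s ^ 3 * ‖w‖ ≤ s⁻¹ * ‖v‖ := by
      calc _ ≤ s * ‖v‖ / s ^ 3 * s :=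
            mul_le_mul (div_le_div_of_nonneg_right h2 (by positivity)) hrs r0 (by positivity)
        _ = _ := by field_simp
    linarith
  have h4 : br w * s⁻¹ ≤ 1 + 1 / h := by
    have h5 : s⁻¹ ≤ 1 / h := by rw [one_div]; exact inv_anti₀ hh hs
    have h6 : s * s⁻¹ = 1 := mul_inv_cancel₀ s0.ne'
    have h7 : br w * s⁻¹ ≤ (1 + s) * s⁻¹ :=
      mul_le_mul_of_nonneg_right (by linarith) (inv_pos.2 s0).le
    linarith
  calc br w * _ ≤ br w * (2 * (s⁻¹ * ‖v‖)) := mul_le_mul_of_nonneg_left h1 k0.le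
    _ = 2 * (br w * s⁻¹) * ‖v‖ := by ring
    _ ≤ _ := by gcongr

theorem starA_col (T : Str a b L) (hh : 0 < h) (q Q w : V m) (A B Dw : D 3 →L[ℝ] V m) {c : ℝ}
    (c0 : 0 ≤ c) (c1 : c ≤ 1) (v : D 3) (hv : ‖v‖ ≤ 1) :
    ‖(c * br w) • fderiv ℝ (Yf 0 h) w (A v + (br w)⁻¹ • (Dw - br w • B + om a b Q B w) v) -
      (c • fderiv ℝ (Yf 0 h) w (Dw v) + om a b q A (c • Yf 0 h w) v)‖ ≤
      (2 * (1 + 1 / h) + L ^ 2) * ‖B - A‖ + ‖A‖ * ‖con a b Q - con a b q‖ := by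
  have k0 := br_pos w
  have sk := psi_skew hh w (a Q (fderiv ℝ b Q (B v))) (by rw [real_inner_comm]; exact T.anti _ _ _)
  have key : (c * br w) • fderiv ℝ (Yf 0 h) w
        (A v + (br w)⁻¹ • (Dw - br w • B + om a b Q B w) v) -
      (c • fderiv ℝ (Yf 0 h) w (Dw v) + om a b q A (c • Yf 0 h w) v) =
      c • (con a b Q ((B - A) v) (Yf 0 h w) + (con a b Q - con a b q) (A v) (Yf 0 h w) -
        br w • fderiv ℝ (Yf 0 h) w ((B - A) v)) := by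
    simp only [add_apply, sub_apply, smul_apply, om_apply, con_apply, map_add, map_sub, map_smul,
      sk]
    match_scalars <;> field_simp <;> ring
  rw [key, norm_smul, Real.norm_eq_abs, abs_of_nonneg c0]
  have y1 : ‖Yf 0 h w‖ ≤ 1 := Yf_le hh w
  have n1 : ‖(B - A) v‖ ≤ ‖B - A‖ :=
    ((B - A).le_opNorm v).trans (mul_le_of_le_one_right (norm_nonneg _) hv)
  have n2 : ‖A v‖ ≤ ‖A‖ := (A.le_opNorm v).trans (mul_le_of_le_one_right (norm_nonneg _) hv)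
  have e1 : ‖con a b Q ((B - A) v) (Yf 0 h w)‖ ≤ L ^ 2 * ‖B - A‖ := by
    refine ((con a b Q).le_opNorm₂ _ _).trans ?_
    refine (mul_le_of_le_one_right (by positivity) y1).trans ?_
    exact mul_le_mul (starA_con T Q) n1 (norm_nonneg _) (sq_nonneg L)
  have e2 : ‖(con a b Q - con a b q) (A v) (Yf 0 h w)‖ ≤ ‖A‖ * ‖con a b Q - con a b q‖ := by
    refine ((con a b Q - con a b q).le_opNorm₂ _ _).trans ?_
    refine (mul_le_of_le_one_right (by positivity) y1).trans ?_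
    rw [mul_comm]
    exact mul_le_mul_of_nonneg_right n2 (ContinuousLinearMap.opNorm_nonneg _)
  have e3 : ‖br w • fderiv ℝ (Yf 0 h) w ((B - A) v)‖ ≤ 2 * (1 + 1 / h) * ‖B - A‖ :=
    (starA_brD hh w _).trans (mul_le_mul_of_nonneg_left n1 (by positivity))
  refine (mul_le_of_le_one_left (norm_nonneg _) c1).trans ?_
  refine (norm_sub_le _ _).trans ?_
  have e4 := norm_add_le (con a b Q ((B - A) v) (Yf 0 h w))
    ((con a b Q - con a b q) (A v) (Yf 0 h w))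
  linarith

/-- The pointwise inequality with its error terms. -/
theorem starA_pt (T : Str a b L) (hh : 0 < h) (q Q w : V m) (A B Dw Φ : D 3 →L[ℝ] V m)
    (p : D 3 →L[ℝ] ℝ) {χ s : ℝ} (χ0 : 0 ≤ χ) (χ1 : χ ≤ 1)
    (hs : s = ‖Dw - br w • B + om a b Q B w‖ / br w)
    (hΦ : ∀ v, Φ v = χ ^ 3 • fderiv ℝ (Yf 0 h) w (Dw v) + (3 * χ ^ 2 * p v) • Yf 0 h w) :
    χ ^ 3 * (‖A‖ ^ 3 / wt h w ^ 3) ≤
      108 * h * pr A (Φ + om a b q A (χ ^ 3 • Yf 0 h w)) +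
      221184 * ((h * (‖A‖ * s ^ 2) + s ^ 3) + ‖p‖ ^ 3 * (‖w‖ ^ 3 * wt h w ^ 3)) +
      (972 * h * (2 * (1 + 1 / h) + L ^ 2) * (‖A‖ ^ 2 * ‖B - A‖) +
        972 * h * (‖A‖ ^ 3 * ‖con a b Q - con a b q‖)) := by
  have k0 := br_pos w
  have s0 : 0 ≤ s := hs ▸ div_nonneg (norm_nonneg _) k0.le
  have g0 := fro_nonneg A
  have g1 : fro A ≤ 3 * ‖A‖ := by simpa using fro_le_norm A
  have g2 : ‖A‖ ≤ 3 * fro A := by simpa using norm_le_fro A
  have c1 : χ ^ 3 ≤ 1 := pow_le_one₀ χ0 χ1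
  have c0 : 0 ≤ χ ^ 3 := by positivity
  have sv : ∀ α : Fin 3, ‖(Pi.single α 1 : D 3)‖ ≤ 1 := fun α => by
    rw [Pi.norm_single, norm_one]
  have eσ : ∑ α, ‖(br w)⁻¹ • col (Dw - br w • B + om a b Q B w) α‖ ^ 2 ≤ (2 * s) ^ 2 := by
    have h1 : ∀ α, ‖(br w)⁻¹ • col (Dw - br w • B + om a b Q B w) α‖ ^ 2 ≤ s ^ 2 := fun α => by
      refine pow_le_pow_left₀ (norm_nonneg _) ?_ 2
      rw [norm_smul, Real.norm_eq_abs, abs_of_pos (inv_pos.2 k0), hs, div_eq_inv_mul]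
      exact mul_le_mul_of_nonneg_left (col_le_norm _ α) (inv_pos.2 k0).le
    refine (Finset.sum_le_sum fun α _ => h1 α).trans ?_
    simp only [Finset.sum_const, Finset.card_univ, Fintype.card_fin, nsmul_eq_mul, Nat.cast_ofNat]
    nlinarith [sq_nonneg s]
  have eP : ∑ α : Fin 3, p (Pi.single α 1) ^ 2 ≤ (2 * ‖p‖) ^ 2 := by
    have h1 : ∀ α : Fin 3, p (Pi.single α 1) ^ 2 ≤ ‖p‖ ^ 2 := fun α => by
      rw [← sq_abs]
      refine pow_le_pow_left₀ (abs_nonneg _) ?_ 2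
      exact (p.le_opNorm _).trans (mul_le_of_le_one_right (norm_nonneg _) (sv α))
    refine (Finset.sum_le_sum fun α _ => h1 α).trans ?_
    simp only [Finset.sum_const, Finset.card_univ, Fintype.card_fin, nsmul_eq_mul, Nat.cast_ofNat]
    nlinarith [sq_nonneg ‖p‖]
  have main := star_pt hh w (col A) (fun α => (br w)⁻¹ • col (Dw - br w • B + om a b Q B w) α)
    (fun α => p (Pi.single α 1)) g0 (by positivity : 0 ≤ 2 * s) (by positivity : 0 ≤ 2 * ‖p‖)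
    χ0 χ1 (fro_sq A) eσ eP
  set η := (2 * (1 + 1 / h) + L ^ 2) * ‖B - A‖ + ‖A‖ * ‖con a b Q - con a b q‖ with hη
  have η0 : 0 ≤ η := by positivity
  have h2 : ∀ α, ⟪col A α, (χ ^ 3 * √(1 + ‖w‖ ^ 2)) • fderiv ℝ (Yf 0 h) w
        (col A α + (br w)⁻¹ • col (Dw - br w • B + om a b Q B w) α) +
        (3 * χ ^ 2 * p (Pi.single α 1)) • Yf 0 h w⟫ ≤
      ⟪col A α, col (Φ + om a b q A (χ ^ 3 • Yf 0 h w)) α⟫ + ‖A‖ * η := fun α => by
    have h3 := starA_col T hh q Q w A B Dw c0 c1 (Pi.single α 1) (sv α)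
    have h4 := (real_inner_le_norm (col A α) _).trans
      (mul_le_mul (col_le_norm A α) h3 (norm_nonneg _) (norm_nonneg _))
    rw [inner_sub_right, inner_add_right] at h4
    have h5 : col (Φ + om a b q A (χ ^ 3 • Yf 0 h w)) α =
        Φ (Pi.single α 1) + om a b q A (χ ^ 3 • Yf 0 h w) (Pi.single α 1) := rfl
    rw [h5, hΦ, inner_add_right, inner_add_right, inner_add_right]
    have h6 : ⟪col A α, (χ ^ 3 * √(1 + ‖w‖ ^ 2)) • fderiv ℝ (Yf 0 h) w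
        (col A α + (br w)⁻¹ • col (Dw - br w • B + om a b Q B w) α)⟫ =
        ⟪col A α, (χ ^ 3 * br w) • fderiv ℝ (Yf 0 h) w (A (Pi.single α 1) +
          (br w)⁻¹ • (Dw - br w • B + om a b Q B w) (Pi.single α 1))⟫ := rfl
    rw [h6]
    linarith
  have h7 := Finset.sum_le_sum fun α (_ : α ∈ Finset.univ) => h2 α
  rw [Finset.sum_add_distrib] at h7
  simp only [Finset.sum_const, Finset.card_univ, Fintype.card_fin, nsmul_eq_mul,
    Nat.cast_ofNat] at h7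
  have h8 := mul_le_mul_of_nonneg_left (mul_le_mul_of_nonneg_left h7 g0) hh.le
  have e1 : pr A (Φ + om a b q A (χ ^ 3 • Yf 0 h w)) =
      fro A * ∑ α, ⟪col A α, col (Φ + om a b q A (χ ^ 3 • Yf 0 h w)) α⟫ := by
    rw [pr, show 3 - 2 = 1 from rfl, pow_one]
  have w0 : 0 < √(h ^ 2 + ‖w‖ ^ 2) := by positivity
  have e2 : h / √(h ^ 2 + ‖w‖ ^ 2) = (wt h w)⁻¹ := by rw [starA_wt hh, inv_div]
  rw [e2, ← starA_wt hh] at main
  have t0 : 0 < wt h w := one_pos.trans_le (one_le_wt h w)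
  have h9 : χ ^ 3 * (‖A‖ ^ 3 / wt h w ^ 3) ≤ 27 * (χ ^ 3 * fro A ^ 3 * (wt h w)⁻¹ ^ 3) := by
    calc _ ≤ χ ^ 3 * ((3 * fro A) ^ 3 / wt h w ^ 3) := by gcongr
      _ = _ := by rw [inv_pow]; ring
  have h10 : h * (fro A * (3 * (‖A‖ * η))) ≤ h * (3 * ‖A‖ * (3 * (‖A‖ * η))) := by gcongr
  have h11 : h * (fro A * (2 * s) ^ 2) ≤ h * (3 * ‖A‖ * (2 * s) ^ 2) := by gcongr
  have p1 : 0 ≤ h * (‖A‖ * s ^ 2) := by positivity
  have p2 : 0 ≤ s ^ 3 := by positivity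
  rw [e1]
  rw [mul_add, mul_add] at h8
  rw [hη] at h10
  nlinarith

end Pool.Agent.Lib.MP_a785f2_an.NH
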