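import Pool.Agent.Lib.MP_a785f2_an.NH.Rec
import Pool.Agent.Lib.MP_a785f2_an.NH.Err
import Pool.Agent.Lib.MP_a785f2_an.NH.Psi
import Pool.Agent.Lib.MP_a785f2_an.NH.StarA

open MeasureTheory Metric Set Filter Topology
open scoped ContDiff RealInnerProductSpace ENNReal Convolution

namespace Pool.Agent.Lib.MP_a785f2_an.NH

open HS

variable {m : ℕ} {H : Type} [NormedAddCommGroup H] [NormedSpace ℝ H]
  {a : V m → H →L[ℝ] V m →L[ℝ] V m} {b : V m → H} {L : ℝ}
  {Ω : Set (D 3)} {u : D 3 → V m} {G : D 3 → D 3 →L[ℝ] V m} {x0 : D 3} {t δ : ℝ}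

theorem star_om_cont (T : Str a b L) :
    Continuous fun p : V m × (D 3 →L[ℝ] V m) × V m => om a b p.1 p.2.1 p.2.2 := by
  have h1 : Continuous a := T.ca.continuous
  have h2 : Continuous (fderiv ℝ b) := T.cb.continuous_fderiv one_ne_zero
  have h3 : Continuous fun p : V m × (D 3 →L[ℝ] V m) × V m => (a p.1).flip p.2.2 :=
    ((ContinuousLinearMap.flipₗᵢ ℝ H (V m) (V m)).continuous.comp
      (h1.comp continuous_fst)).clm_apply (continuous_snd.comp continuous_snd)
  exact h3.clm_comp ((h2.comp continuous_fst).clm_comp (continuous_fst.comp continuous_snd))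

theorem star_om_zero (q : V m) (A : D 3 →L[ℝ] V m) : om a b q A 0 = 0 := by
  ext1 v
  rw [om_apply, map_zero, zero_apply]

/-- The integrand of the weak equation is integrable on cubes for bounded test fields. -/
theorem star_int (T : Str a b L) (S : Sob Ω u G) {φ : D 3 → V m} (h1 : ContDiff ℝ 1 φ)
    (h2 : ∀ x, ‖φ x‖ ≤ 1) (x0 : D 3) (R : ℝ) :
    IntegrableOn (fun x => pr (G x) (fderiv ℝ φ x + om a b (u x) (G x) (φ x)))
      (closedBall x0 R) := by
  have c1 : Continuous (fderiv ℝ φ) := h1.continuous_fderiv one_ne_zero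
  obtain ⟨M, hM⟩ := (isCompact_closedBall x0 R).exists_bound_of_continuousOn c1.continuousOn
  have m0 := (star_om_cont T).comp_stronglyMeasurable
    (S.mu.prodMk (S.mG.prodMk h1.continuous.stronglyMeasurable))
  have m1 : StronglyMeasurable fun x => om a b (u x) (G x) (φ x) := by
    simpa only using m0
  have m3 := continuous_pr.comp_stronglyMeasurable
    (S.mG.prodMk (c1.stronglyMeasurable.add m1))
  have m2 : StronglyMeasurable fun x => pr (G x) (fderiv ℝ φ x + om a b (u x) (G x) (φ x)) := by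
    simpa only [Pi.add_apply] using m3
  have i1 : IntegrableOn (fun x => ‖G x‖ ^ 3) (closedBall x0 R) :=
    (S.powG (by norm_num)).integrableOn
  have i2 : IntegrableOn (fun _ : D 3 => (1 : ℝ)) (closedBall x0 R) :=
    continuousOn_const.integrableOn_compact (isCompact_closedBall x0 R)
  refine Integrable.mono' (((i1.add i2).const_mul (27 * |M|)).add (i1.const_mul (27 * L ^ 2)))
    m2.aestronglyMeasurable ?_
  refine (ae_restrict_iff' measurableSet_closedBall).2 (ae_of_all _ fun x hx => ?_)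
  have g0 := norm_nonneg (G x)
  have g1 : fro (G x) ≤ 3 * ‖G x‖ := by simpa using fro_le_norm (G x)
  have g2 : fro (G x) ^ 2 ≤ (3 * ‖G x‖) ^ 2 := pow_le_pow_left₀ (fro_nonneg _) g1 2
  have e1 := abs_pr_le (n := 3) (by norm_num) (G x) (fderiv ℝ φ x + om a b (u x) (G x) (φ x))
  have e2 : ‖fderiv ℝ φ x + om a b (u x) (G x) (φ x)‖ ≤ |M| + L ^ 2 * ‖G x‖ := by
    refine (norm_add_le _ _).trans (add_le_add ((hM x hx).trans (le_abs_self M)) ?_)
    exact (om_norm T _ _ _).trans (mul_le_of_le_one_right (by positivity) (h2 x))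
  have e3 : fro (G x) ^ 2 * ‖fderiv ℝ φ x + om a b (u x) (G x) (φ x)‖ ≤
      (3 * ‖G x‖) ^ 2 * (|M| + L ^ 2 * ‖G x‖) :=
    mul_le_mul g2 e2 (norm_nonneg _) (by positivity)
  have e4 : ‖G x‖ ^ 2 ≤ ‖G x‖ ^ 3 + 1 := by
    nlinarith [mul_nonneg g0 (sq_nonneg (‖G x‖ - 1)), sq_nonneg (‖G x‖ - 1), sq_nonneg ‖G x‖]
  have e5 := mul_le_mul_of_nonneg_left e4 (abs_nonneg M)
  rw [show 3 - 1 = 2 from rfl, Nat.cast_ofNat] at e1
  rw [Real.norm_eq_abs]
  simp only [Pi.add_apply]
  nlinarith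

/-- The Caccioppoli inequality for an arbitrary field `W k` with defect `sg`. -/
theorem star (T : Str a b L) : ∃ C : ℝ, 1 ≤ C ∧ ∀ (Ω : Set (D 3)) (u : D 3 → V m)
    (G : D 3 → D 3 →L[ℝ] V m), Sob Ω u G → Eqn a b Ω u G → ∀ (x0 : D 3) (R : ℝ)
    (U W : ℕ → D 3 → V m), closedBall x0 R ⊆ Ω → Apx (closedBall x0 R) u G U →
    (∀ k, ContDiff ℝ 1 (W k)) → ∀ χ : D 3 → ℝ, ContDiff ℝ 1 χ → tsupport χ ⊆ closedBall x0 R →
    (∀ x, 0 ≤ χ x) → (∀ x, χ x ≤ 1) → ∀ h : ℝ, 0 < h → ∀ ε : ℝ, 0 < ε → ∀ᶠ k in atTop,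
      ∫ x in closedBall x0 R, χ x ^ 3 * (‖G x‖ ^ 3 / wt h (W k x) ^ 3) ≤
        C * ((∫ x in closedBall x0 R,
            (h * (‖G x‖ * sg a b (U k) (W k) x ^ 2) + sg a b (U k) (W k) x ^ 3)) +
          ∫ x in closedBall x0 R, ‖fderiv ℝ χ x‖ ^ 3 * (‖W k x‖ ^ 3 * wt h (W k x) ^ 3)) + ε := by
  refine ⟨221184, by norm_num, ?_⟩
  intro Ω u G S E x0 R U W hK hU hW χ hχ hs χ0 χ1 h hh ε hε
  obtain ⟨i1, t1⟩ := err_grad (n := 3) (by norm_num) S hU
  obtain ⟨i2, t2⟩ := err_con (n := 3) (by norm_num) T S hU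
  have t3 := (t1.const_mul (972 * h * (2 * (1 + 1 / h) + L ^ 2))).add (t2.const_mul (972 * h))
  rw [mul_zero, mul_zero, add_zero] at t3
  filter_upwards [t3.eventually (gt_mem_nhds hε)] with k hk
  have K := isCompact_closedBall x0 R
  have cψ : ContDiff ℝ 1 (Yf (0 : V m) h) := (Yf_contDiff 0 hh).of_le (by simp)
  have cU : ContDiff ℝ 1 (U k) := (hU.sm k).of_le (by simp)
  have cφ : ContDiff ℝ 1 fun x => χ x ^ 3 • Yf 0 h (W k x) :=
    (hχ.pow 3).smul (cψ.comp (hW k))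
  have sφ : tsupport (fun x => χ x ^ 3 • Yf 0 h (W k x)) ⊆ closedBall x0 R := by
    refine subset_trans (closure_mono fun x hx => ?_) hs
    intro h0
    exact hx (by simp only [h0, zero_pow three_ne_zero, zero_smul])
  have bφ : ∀ x, ‖χ x ^ 3 • Yf 0 h (W k x)‖ ≤ 1 := fun x => by
    rw [norm_smul, Real.norm_eq_abs, abs_of_nonneg (pow_nonneg (χ0 x) 3)]
    exact mul_le_one₀ (pow_le_one₀ (χ0 x) (χ1 x)) (norm_nonneg _) (Yf_le hh _)
  have dφ : ∀ x v, fderiv ℝ (fun x => χ x ^ 3 • Yf 0 h (W k x)) x v =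
      χ x ^ 3 • fderiv ℝ (Yf 0 h) (W k x) (fderiv ℝ (W k) x v) +
        (3 * χ x ^ 2 * fderiv ℝ χ x v) • Yf 0 h (W k x) := fun x v => by
    have d1 := ((hχ.differentiable one_ne_zero x).hasFDerivAt.pow 3).fun_smul
      ((cψ.differentiable one_ne_zero (W k x)).hasFDerivAt.comp x
        ((hW k).differentiable one_ne_zero x).hasFDerivAt)
    have d2 : fderiv ℝ (fun x => χ x ^ 3 • Yf 0 h (W k x)) x = _ := d1.fderiv
    rw [d2]
    simp
  have e0 := E _ cφ (HasCompactSupport.of_support_subset_isCompact K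
    ((subset_tsupport _).trans sφ)) (sφ.trans hK)
  rw [← setIntegral_eq_integral_of_forall_compl_eq_zero (s := closedBall x0 R)
    fun x hx => by
      have h0 : x ∉ tsupport fun x => χ x ^ 3 • Yf 0 h (W k x) := fun h1 => hx (sφ h1)
      rw [fderiv_of_notMem_tsupport ℝ h0, image_eq_zero_of_notMem_tsupport h0, star_om_zero,
        add_zero]
      simp [pr, col]] at e0
  have i0 := star_int T S cφ bφ x0 R
  have cs := sg_cont T cU (hW k)
  have i3 : IntegrableOn (fun x => h * (‖G x‖ * sg a b (U k) (W k) x ^ 2) +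
      sg a b (U k) (W k) x ^ 3) (closedBall x0 R) :=
    (((S.locG (by norm_num) x0 R).mul_continuousOn (cs.pow 2).continuousOn K).const_mul h).add
      ((cs.pow 3).continuousOn.integrableOn_compact K)
  have i4 : IntegrableOn (fun x => ‖fderiv ℝ χ x‖ ^ 3 * (‖W k x‖ ^ 3 * wt h (W k x) ^ 3))
      (closedBall x0 R) :=
    (((hχ.continuous_fderiv one_ne_zero).norm.pow 3).mul (((hW k).continuous.norm.pow 3).mul
      (((continuous_wt h).comp (hW k).continuous).pow 3))).continuousOn.integrableOn_compact K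
  have j0 := i0.const_mul (108 * h)
  have j3 := (i3.add i4).const_mul 221184
  have j1 := (i1 k).const_mul (972 * h * (2 * (1 + 1 / h) + L ^ 2))
  have j2 := (i2 k).const_mul (972 * h)
  have le := integral_mono_of_nonneg (μ := volume.restrict (closedBall x0 R))
    (f := fun x => χ x ^ 3 * (‖G x‖ ^ 3 / wt h (W k x) ^ 3))
    (ae_of_all _ fun x => mul_nonneg (pow_nonneg (χ0 x) 3) (div_nonneg (by positivity)
      (pow_nonneg (zero_le_one.trans (one_le_wt h _)) 3))) ((j0.add j3).add (j1.add j2))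
    (ae_of_all _ fun x => starA_pt T hh (u x) (U k x) (W k x) (G x) (fderiv ℝ (U k) x)
      (fderiv ℝ (W k) x) _ (fderiv ℝ χ x) (χ0 x) (χ1 x) rfl (dφ x))
  rw [integral_add' (j0.add j3) (j1.add j2), integral_add' j0 j3, integral_add' j1 j2,
    integral_const_mul, integral_const_mul, integral_const_mul, integral_const_mul,
    integral_add' i3 i4, e0] at le
  linarith

end Pool.Agent.Lib.MP_a785f2_an.NH
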