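import Pool.Agent.Lib.MP_a785f2_an.NH.Pull
import Pool.Agent.Lib.MP_a785f2_an.NH.Core

namespace Pool.Agent.Lib.MP_a785f2_an.NH

theorem core_three : Core 3 := fun _ _ _ _ _ _ _ _ _ _ _ T S hF => core T S hF

end Pool.Agent.Lib.MP_a785f2_an.NH
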