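import Pool.Agent.Lib.MP_a785f2_an.NH.ManA
import Pool.Agent.Lib.MP_a785f2_an.NH.ManC
import Pool.Agent.Lib.MP_a785f2_an.NH.Tr
import Pool.Agent.Lib.MP_a785f2_an.NH.Defs

/-! Reduction of harmonic maps and of pulled back potentials to the internal theorem. -/

open MeasureTheory Metric Set Filter Topology
open scoped ContDiff RealInnerProductSpace ENNReal

namespace Pool.Agent.Lib.MP_a785f2_an.NH

open HS

variable {n m : ℕ}

/-- The internal continuity theorem in dimension `n`, as a property. -/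
def Core (n : ℕ) : Prop :=
  ∀ (m : ℕ) (H : Type) [NormedAddCommGroup H] [NormedSpace ℝ H]
    (a : V m → H →L[ℝ] V m →L[ℝ] V m) (b : V m → H) (L : ℝ) (Ω : Set (D n)) (u : D n → V m)
    (G : D n → D n →L[ℝ] V m) (F : D n → V m), Str a b L → GSol Ω u G F →
    (∀ᵐ x, x ∈ Ω → F x = fro (G x) ^ (n - 2) •
      ∑ α, a (u x) (fderiv ℝ b (u x) (col (G x) α)) (col (G x) α)) → Rep Ω u

/-- The adjoint as a real linear map. -/
noncomputable def adjL (m : ℕ) : (V m →L[ℝ] V m) →L[ℝ] V m →L[ℝ] V m :=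
  LinearMap.mkContinuous
    { toFun := fun p => ContinuousLinearMap.adjoint p
      map_add' := fun p q => map_add _ p q
      map_smul' := fun c p => by simp } 1 (fun p => by simp)

theorem adjL_inner (p : V m →L[ℝ] V m) (v w : V m) : ⟪adjL m p v, w⟫ = ⟪v, p w⟫ :=
  ContinuousLinearMap.adjoint_inner_left p w v

/-- The antisymmetric part of a product. -/
noncomputable def skw (P : V m →L[ℝ] V m) : (V m →L[ℝ] V m) →L[ℝ] V m →L[ℝ] V m :=
  (ContinuousLinearMap.id ℝ _ - adjL m).comp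
    (ContinuousLinearMap.compL ℝ (V m) (V m) (V m) P)

theorem skw_apply (P p : V m →L[ℝ] V m) (v : V m) :
    skw P p v = P (p v) - adjL m (P.comp p) v := rfl

theorem skw_le (P : V m →L[ℝ] V m) : ‖skw P‖ ≤ 2 * ‖P‖ := by
  refine ContinuousLinearMap.opNorm_le_bound _ (by positivity) fun p => ?_
  have h1 : ‖adjL m (P.comp p)‖ = ‖P.comp p‖ :=
    (ContinuousLinearMap.adjoint (𝕜 := ℝ) (E := V m) (F := V m)).norm_map _
  have h2 : skw P p = P.comp p - adjL m (P.comp p) := rfl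
  have h3 := P.opNorm_comp_le p
  rw [h2]
  linarith [norm_sub_le (P.comp p) (adjL m (P.comp p))]

/-- The map `skw` is linear. -/
noncomputable def skwL (m : ℕ) :
    (V m →L[ℝ] V m) →ₗ[ℝ] (V m →L[ℝ] V m) →L[ℝ] V m →L[ℝ] V m where
  toFun := skw
  map_add' p q := by simp only [skw, map_add, ContinuousLinearMap.comp_add]
  map_smul' c p := by simp only [skw, map_smul, ContinuousLinearMap.comp_smul, RingHom.id_apply]

theorem str_comp {X Y : Type} [NormedAddCommGroup X] [NormedSpace ℝ X] [NormedAddCommGroup Y]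
    [NormedSpace ℝ Y] {P : V m → X} (h1 : ContDiff ℝ 1 P) (T : X →ₗ[ℝ] Y) {c L : ℝ} (hc : 0 ≤ c)
    (hT : ∀ p, ‖T p‖ ≤ c * ‖p‖) (hL : ∀ q, ‖fderiv ℝ P q‖ ≤ L) :
    ContDiff ℝ 1 (fun q => T (P q)) ∧ ∀ q v, ‖fderiv ℝ (fun q => T (P q)) q v‖ ≤ c * L * ‖v‖ := by
  refine ⟨(T.mkContinuous c hT).contDiff.comp h1, fun q v => ?_⟩
  have h := ((T.mkContinuous c hT).hasFDerivAt.comp q
    (h1.differentiable one_ne_zero q).hasFDerivAt).fderiv
  have h2 : fderiv ℝ (fun q => T (P q)) q v = T (fderiv ℝ P q v) :=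
    congrArg (fun A : V m →L[ℝ] Y => A v) h
  rw [h2, mul_assoc]
  exact (hT _).trans (mul_le_mul_of_nonneg_left ((fderiv ℝ P q).le_of_opNorm_le (hL q) v) hc)

theorem str_proj {P : V m → V m →L[ℝ] V m} (h1 : ContDiff ℝ 1 P) (h2 : HasCompactSupport P) :
    ∃ L, Str (fun q => skw (P q)) P L := by
  obtain ⟨L1, L10, hL1⟩ := tr_bdd h1.continuous h2
  obtain ⟨L2, L20, hL2⟩ := bdd_fderiv h1 h2
  obtain ⟨c1, c2⟩ := str_comp (X := V m →L[ℝ] V m)
    (Y := (V m →L[ℝ] V m) →L[ℝ] V m →L[ℝ] V m) h1 (skwL m) zero_le_two (fun p => skw_le p) hL2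
  refine ⟨1 + 2 * L1 + 2 * L2, by linarith, c1, h1, fun q => ?_, fun q v => ?_, fun q => ?_,
    fun q p v => ?_⟩
  · linarith [skw_le (P q), hL1 q]
  · exact (c2 q v).trans (mul_le_mul_of_nonneg_right (by linarith) (norm_nonneg _))
  · linarith [hL2 q]
  · rw [skw_apply, inner_sub_left, adjL_inner, real_inner_comm]
    exact sub_self _

theorem harm_int (hn : 2 ≤ n) (hC : Core n) {N : Set (V m)} (hc : IsCompact N)
    (hN : IsC2Submanifold N) (Ω : Set (D n)) (u : D n → V m) (G : D n → D n →L[ℝ] V m)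
    (F : D n → V m) (S : GSol Ω u G F)
    (h : ∀ᵐ x, x ∈ Ω → u x ∈ N ∧ ∀ τ ∈ tangentConeAt ℝ N (u x), ⟪F x, τ⟫ = 0) : Rep Ω u := by
  obtain ⟨P, h1, h2, hs, hP⟩ := exists_proj hc hN
  obtain ⟨ι, _, k, Φ, hΦ, hT⟩ := exists_eqs hc hN
  obtain ⟨L, T⟩ := str_proj h1 h2
  have hG : ∀ᵐ x, x ∈ Ω → ∀ v, P (u x) (G x v) = G x v := by
    have h3 := ae_all_iff.2 fun i => S.chain hn (hΦ i).1 (hΦ i).2.1
      (h.mono fun x hx hxΩ => (hΦ i).2.2 _ (hx hxΩ).1)
    filter_upwards [h, h3] with x k1 k2 hx v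
    exact (hP _ (k1 hx).1).2 _ (hT _ (k1 hx).1 _ fun i => k2 i hx v)
  have hF : ∀ᵐ x, x ∈ Ω → P (u x) (F x) = 0 := by
    filter_upwards [h] with x k1 hx
    refine ext_inner_right ℝ fun v => ?_
    rw [hs, inner_zero_left]
    exact (k1 hx).2 _ ((hP _ (k1 hx).1).1 v)
  have hQ : ∀ w : V m, ∀ᵐ x, x ∈ Ω → ∀ v,
      fderiv ℝ (fun q => P q (P q w) - P q w) (u x) (G x v) = 0 := fun w => by
    have c1 : ContDiff ℝ 1 fun q => P q w := h1.clm_apply contDiff_const
    refine S.chain hn ((h1.clm_apply c1).sub c1) ?_ (h.mono fun x hx hxΩ => ?_)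
    · refine h2.mono fun q hq h0 => hq ?_
      simp [h0]
    · rw [(hP _ (hx hxΩ).1).2 _ ((hP _ (hx hxΩ).1).1 w), sub_self]
  have hD : ∀ (w q e : V m), fderiv ℝ (fun q => P q (P q w) - P q w) q e =
      fderiv ℝ P q e (P q w) + P q (fderiv ℝ P q e w) - fderiv ℝ P q e w := fun w q e => by
    have d0 := (h1.differentiable one_ne_zero q).hasFDerivAt
    have d1 := d0.clm_apply (hasFDerivAt_const w q)
    have d2 := ((d0.clm_apply d1).sub d1).fderiv
    have d3 : fderiv ℝ (fun q => P q (P q w) - P q w) q = _ := d2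
    rw [d3]
    simp [add_comm]
  refine hC m _ _ P L Ω u G F T S ?_
  filter_upwards [S.normal hn h1 h2 hs hG hF, hG, h,
    ae_all_iff.2 fun i : Fin m => hQ (EuclideanSpace.single i 1)] with x k1 k2 k3 k4 hx
  rw [k1 hx, ← smul_neg, ← Finset.sum_neg_distrib]
  refine congrArg _ (Finset.sum_congr rfl fun α _ => ?_)
  set B := fderiv ℝ P (u x) (col (G x) α) with hB
  have e1 : ∀ w, B (P (u x) w) + P (u x) (B w) - B w = 0 := fun w => by
    have e2 : (B.comp (P (u x)) + (P (u x)).comp B - B) = 0 := by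
      refine ContinuousLinearMap.coe_injective
        ((EuclideanSpace.basisFun (Fin m) ℝ).toBasis.ext fun i => ?_)
      have := k4 i hx (Pi.single α 1)
      rw [hD] at this
      simpa [hB, col] using this
    exact congrArg (fun A : V m →L[ℝ] V m => A w) e2
  have e3 : P (u x) (col (G x) α) = col (G x) α := k2 hx _
  have e4 : P (u x) (B (col (G x) α)) = 0 := by
    have := e1 (col (G x) α)
    rw [e3] at this
    rwa [add_sub_cancel_left] at this
  have e5 : adjL m ((P (u x)).comp B) (col (G x) α) = B (col (G x) α) := by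
    refine ext_inner_right ℝ fun v => ?_
    rw [adjL_inner, ContinuousLinearMap.comp_apply, ← hs, e3, hB, manC_sym h1 hs]
  rw [skw_apply, e4, e5, zero_sub]

theorem harm (hn : 2 ≤ n) (hC : Core n) (N : Set (E m)) (hc : IsCompact N)
    (hN : IsC2Submanifold N) (u : Fin m → E n → ℝ) (G : Fin m → Fin n → E n → ℝ)
    (hu : IsW1n u G) (hh : IsWeaklyHarmonic N u G) : HasContinuousRep u := by
  obtain ⟨h1, F, h2, h3, h4⟩ := hh
  refine transfer2 hn (fun y _ f => y ∈ N ∧ ∀ τ ∈ tangentConeAt ℝ N y, ⟪f, τ⟫ = 0)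
    (harm_int hn hC hc hN) u G F hu h2 ?_ h4
  filter_upwards [h1, h3] with x k1 k2
  refine ⟨k1, fun τ hτ => ?_⟩
  rw [← k2 τ hτ, PiLp.inner_apply]
  exact Finset.sum_congr rfl fun i _ => by simp [mul_comm]

end Pool.Agent.Lib.MP_a785f2_an.NH
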